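import Pool.Agent.K6.H24.OP.H1

/-!
# Densities, directional variances
-/

namespace Pool.Agent.K6.H24.OP

open MeasureTheory Filter Topology ProbabilityTheory
open scoped InnerProductSpace ENNReal

set_option linter.unusedSectionVars false

variable {n : ℕ} {ν : Measure ℝ} [IsProbabilityMeasure ν] {R : Fin n → Fin n → Prop}

/-- Fubini for products of powers -/
theorem lint_pi (n : ℕ) (f : Fin n → ℝ → ℝ≥0∞) (hf : ∀ i, Measurable (f i)) :
    ∫⁻ x : Fin n → ℝ, ∏ i, f i (x i) = ∏ i, ∫⁻ y, f i y := by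
  induction n with
  | zero => simp [volume_pi]
  | succ n ih =>
    have h := (volume_preserving_piFinSuccAbove (fun _ : Fin (n + 1) => ℝ) 0).symm
    rw [← h.lintegral_comp_emb (MeasurableEquiv.measurableEmbedding _)]
    have h1 : ∀ z : ℝ × (Fin n → ℝ), ∏ i, f i ((MeasurableEquiv.piFinSuccAbove
        (fun _ : Fin (n + 1) => ℝ) 0).symm z i) = f 0 z.1 * ∏ i, f (Fin.succ i) (z.2 i) := by
      intro z
      rw [Fin.prod_univ_succ]
      rfl
    simp only [h1]
    rw [Measure.volume_eq_prod]
    rw [lintegral_prod_mul (f := f 0) (g := fun y : Fin n → ℝ => ∏ i, f (Fin.succ i) (y i))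
      (hf 0).aemeasurable (Measurable.aemeasurable (by fun_prop)), ih _ fun i => hf _,
      Fin.prod_univ_succ]

theorem pi_wd (n : ℕ) (f : ℝ → ℝ≥0∞) (hf : Measurable f)
    [SigmaFinite ((volume : Measure ℝ).withDensity f)] :
    Measure.pi (fun _ : Fin n => (volume : Measure ℝ).withDensity f) =
      (volume : Measure (Fin n → ℝ)).withDensity (fun x => ∏ i, f (x i)) := by
  refine Measure.pi_eq fun s hs => ?_
  rw [withDensity_apply _ (MeasurableSet.univ_pi hs), ← lintegral_indicator (MeasurableSet.univ_pi hs)]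
  have h1 : ∀ x : Fin n → ℝ, (Set.univ.pi s).indicator (fun x => ∏ i, f (x i)) x =
      ∏ i, (s i).indicator f (x i) := by
    intro x
    by_cases hx : x ∈ Set.univ.pi s
    · rw [Set.indicator_of_mem hx]
      refine Finset.prod_congr rfl fun i _ => ?_
      rw [Set.indicator_of_mem (hx i (Set.mem_univ i))]
    · rw [Set.indicator_of_notMem hx]
      simp only [Set.mem_univ_pi, not_forall] at hx
      obtain ⟨i, hi⟩ := hx
      refine (Finset.prod_eq_zero (Finset.mem_univ i) ?_).symm
      rw [Set.indicator_of_notMem hi]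
  simp only [h1]
  rw [lint_pi n _ fun i => hf.indicator (hs i)]
  refine Finset.prod_congr rfl fun i _ => ?_
  rw [lintegral_indicator (hs i), withDensity_apply _ (hs i)]

/-- the density -/
noncomputable def pw (h : ℝ → ℝ) (R : Fin n → Fin n → Prop) (x : Eu n) : ℝ :=
  (cone R).indicator (fun x => ∏ i, h (x i)) x

/-- the probability measure with density proportional to `w` -/
noncomputable def nrm (w : Eu n → ℝ) : Measure (Eu n) :=
  (∫⁻ x, ENNReal.ofReal (w x))⁻¹ • volume.withDensity fun x => ENNReal.ofReal (w x)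

/-- an admissible relation -/
def Ext (R : Fin n → Fin n → Prop) : Prop := ∃ σ : Equiv.Perm (Fin n), ∀ i j, R i j → σ i ≤ σ j

lemma cone_ne [NullSingletonClass ν] (hR : Ext R) : iid ν n (cone R) ≠ 0 := by
  rw [iid_cone]
  obtain ⟨σ, hσ⟩ := hR
  refine KK_pos (x0 := fun i => ((σ i : ℕ) : ℝ)) ⟨fun i j hij he => hij ?_, fun i j hR => ?_⟩
  · have he' : ((σ i : ℕ) : ℝ) = ((σ j : ℕ) : ℝ) := he
    have : (σ i : ℕ) = (σ j : ℕ) := by exact_mod_cast he'
    exact σ.injective (Fin.ext this)
  · have h1 := hσ i j hR.2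
    have h2 : σ i ≠ σ j := fun h => hR.1 (σ.injective h)
    have h3 : σ i < σ j := lt_of_le_of_ne h1 h2
    have h4 : (σ i : ℕ) < (σ j : ℕ) := Fin.lt_def.1 h3
    change ((σ i : ℕ) : ℝ) < ((σ j : ℕ) : ℝ)
    exact_mod_cast h4

section dens

variable {h : ℝ → ℝ} (hl : LC h) (hpos : 0 < ∫ x, h x)

include hl hpos in
/-- the weighted volume is a multiple of the law of iid variables -/
lemma vol_iid : (volume : Measure (Eu n)).withDensity (fun x => ENNReal.ofReal (∏ i, h (x i))) =
    (∫⁻ x, ENNReal.ofReal (h x)) ^ n • iid (law h) n := by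
  have hm : Measurable fun x => ENNReal.ofReal (h x) := hl.meas.ennreal_ofReal
  set c := ∫⁻ x, ENNReal.ofReal (h x) with hc
  have hc1 : c = ENNReal.ofReal (∫ x, h x) := lint_eq hl hpos
  have hc0 : c ≠ 0 := by
    rw [hc1]
    simpa using hpos
  have hct : c ≠ ⊤ := by
    rw [hc1]
    exact ENNReal.ofReal_ne_top
  have hprod : ∀ x : Fin n → ℝ, ENNReal.ofReal (∏ i, h (x i)) = ∏ i, ENNReal.ofReal (h (x i)) :=
    fun x => ENNReal.ofReal_prod_of_nonneg fun i _ => hl.nonneg _
  have hlaw : law h = (volume : Measure ℝ).withDensity (fun x => c⁻¹ * ENNReal.ofReal (h x)) := by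
    unfold law
    rw [← withDensity_smul _ hm]
    rfl
  have hp := law_prob hl hpos
  have hm2 : Measurable fun x => c⁻¹ * ENNReal.ofReal (h x) := hm.const_mul _
  have hsf : SigmaFinite ((volume : Measure ℝ).withDensity fun x => c⁻¹ * ENNReal.ofReal (h x)) := by
    rw [← hlaw]
    infer_instance
  have h1 : Measure.pi (fun _ : Fin n => law h) = (c⁻¹) ^ n •
      (volume : Measure (Fin n → ℝ)).withDensity (fun x => ENNReal.ofReal (∏ i, h (x i))) := by
    rw [hlaw, pi_wd n _ hm2]
    rw [← withDensity_smul _ (by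
      simp only [hprod]
      exact Finset.measurable_prod _ fun i _ => hm.comp (measurable_pi_apply i))]
    congr 1
    funext x
    simp only [Pi.smul_apply, smul_eq_mul]
    rw [Finset.prod_mul_distrib, Finset.prod_const, Finset.card_univ, Fintype.card_fin, hprod]
  have h2 : c ^ n • Measure.pi (fun _ : Fin n => law h) =
      (volume : Measure (Fin n → ℝ)).withDensity (fun x => ENNReal.ofReal (∏ i, h (x i))) := by
    rw [h1, smul_smul, ← mul_pow, ENNReal.mul_inv_cancel hc0 hct, one_pow, one_smul]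
  have hmw : Measurable fun x : Eu n => ENNReal.ofReal (∏ i, h (x i)) := by
    refine Measurable.ennreal_ofReal ?_
    refine Finset.measurable_prod _ fun i _ => hl.meas.comp ?_
    fun_prop
  have hv := PiLp.volume_preserving_toLp (Fin n)
  unfold iid
  rw [← Measure.map_smul, h2]
  ext s hs
  rw [Measure.map_apply meas_toLp hs, withDensity_apply _ (hs.preimage meas_toLp),
    withDensity_apply _ hs, ← hv.map_eq, setLIntegral_map hs hmw meas_toLp]

include hl hpos in
theorem nrm_eq (hR : Ext R) : nrm (pw h R) = ord (law h) R := by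
  have hnull := law_null hl hpos
  have hp := law_prob hl hpos
  set c := ∫⁻ x, ENNReal.ofReal (h x) with hc
  have hc1 : c = ENNReal.ofReal (∫ x, h x) := lint_eq hl hpos
  have hc0 : c ≠ 0 := by
    rw [hc1]
    simpa using hpos
  have hct : c ≠ ⊤ := by
    rw [hc1]
    exact ENNReal.ofReal_ne_top
  have hcn0 : c ^ n ≠ 0 := pow_ne_zero _ hc0
  have hcnt : c ^ n ≠ ⊤ := ENNReal.pow_ne_top hct
  have hcm := (closed_cone R).measurableSet
  have h1 : (volume : Measure (Eu n)).withDensity (fun x => ENNReal.ofReal (pw h R x)) =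
      c ^ n • (iid (law h) n).restrict (cone R) := by
    have e : (fun x => ENNReal.ofReal (pw h R x)) =
        (cone R).indicator (fun x => ENNReal.ofReal (∏ i, h (x i))) := by
      funext x
      unfold pw
      by_cases hx : x ∈ cone R
      · rw [Set.indicator_of_mem hx, Set.indicator_of_mem hx]
      · rw [Set.indicator_of_notMem hx, Set.indicator_of_notMem hx, ENNReal.ofReal_zero]
    rw [e, withDensity_indicator hcm, ← restrict_withDensity hcm, vol_iid hl hpos,
      Measure.restrict_smul]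
  have h2 : ∫⁻ x, ENNReal.ofReal (pw h R x) = c ^ n * iid (law h) n (cone R) := by
    have : ∫⁻ x, ENNReal.ofReal (pw h R x) =
        (volume : Measure (Eu n)).withDensity (fun x => ENNReal.ofReal (pw h R x)) Set.univ := by
      rw [withDensity_apply _ MeasurableSet.univ, Measure.restrict_univ]
    rw [this, h1, Measure.smul_apply, Measure.restrict_apply_univ, smul_eq_mul]
  unfold nrm ord ProbabilityTheory.cond
  rw [h1, h2, smul_smul]
  congr 1
  rw [ENNReal.mul_inv (Or.inl hcn0) (Or.inl hcnt), mul_comm, ← mul_assoc,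
    ENNReal.mul_inv_cancel hcn0 hcnt, one_mul]

end dens

/-- the diagonal direction -/
noncomputable def diag (n : ℕ) : Eu n := WithLp.toLp 2 fun _ => (Real.sqrt n)⁻¹

lemma diag_norm (hn : 1 ≤ n) : ‖diag n‖ = 1 := by
  have hn0 : (0 : ℝ) < n := by exact_mod_cast hn
  rw [EuclideanSpace.norm_eq]
  unfold diag
  simp only [Real.norm_eq_abs, sq_abs, Finset.sum_const, Finset.card_univ, Fintype.card_fin,
    nsmul_eq_mul]
  rw [inv_pow, Real.sq_sqrt hn0.le, mul_inv_cancel₀ hn0.ne', Real.sqrt_one]

/-- **the variance of the sum** -/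
theorem ord_var [NullSingletonClass ν] (hR : iid ν n (cone R) ≠ 0)
    (hm : MemLp (fun x : ℝ => x) 2 ν) :
    variance (fun x : Eu n => ∑ i, x i) (ord ν R) = n * variance (fun x : ℝ => x) ν := by
  rw [iid_cone] at hR
  rw [ord_eq, var_toLp (by fun_prop)]
  have := cnd_var (R := off R) hR hm
  rw [Fintype.card_fin] at this
  exact this

theorem ord_diag [NullSingletonClass ν] (hn : 1 ≤ n) (hR : iid ν n (cone R) ≠ 0)
    (hm : MemLp (fun x : ℝ => x) 2 ν) :
    variance (fun x : Eu n => ⟪x, diag n⟫_ℝ) (ord ν R) = variance (fun x : ℝ => x) ν := by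
  have hn0 : (0 : ℝ) < n := by exact_mod_cast hn
  have e : (fun x : Eu n => ⟪x, diag n⟫_ℝ) = fun x : Eu n => (Real.sqrt n)⁻¹ * ∑ i, x i := by
    funext x
    unfold diag
    rw [PiLp.inner_apply, Finset.mul_sum]
    refine Finset.sum_congr rfl fun i _ => ?_
    simp
  rw [e, variance_const_mul, ord_var hR hm, inv_pow, Real.sq_sqrt hn0.le, ← mul_assoc,
    inv_mul_cancel₀ hn0.ne', one_mul]

end Pool.Agent.K6.H24.OP
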