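import Pool.Agent.K6.H24.OP.G1

/-!
# Log-concave functions on the line
-/

namespace Pool.Agent.K6.H24.OP

open MeasureTheory Filter Topology ProbabilityTheory

set_option linter.unusedSectionVars false

/-- log-concave functions `h ≥ 0` on the line -/
structure LC (h : ℝ → ℝ) : Prop where
  nonneg : ∀ s, 0 ≤ h s
  conc : ∀ x y t : ℝ, 0 < t → t < 1 → h x ^ (1 - t) * h y ^ t ≤ h ((1 - t) * x + t * y)

theorem LC.meas {h : ℝ → ℝ} (hl : LC h) : Measurable h := by
  have h0 := hl.nonneg
  have hlc := hl.conc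
  refine measurable_of_Ici fun c => ?_
  rcases le_or_gt c 0 with hc | hc
  · have : h ⁻¹' Set.Ici c = Set.univ := by
      ext s
      simp [hc.trans (h0 s)]
    rw [this]
    exact MeasurableSet.univ
  · have h1 : Convex ℝ (h ⁻¹' Set.Ici c) := by
      intro x hx y hy a b ha hb hab
      rw [Set.mem_preimage, Set.mem_Ici] at hx hy ⊢
      rcases eq_or_lt_of_le ha with h3 | h3
      · have : b = 1 := by linarith
        rw [← h3, this, zero_smul, one_smul, zero_add]
        exact hy
      rcases eq_or_lt_of_le hb with h4 | h4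
      · have : a = 1 := by linarith
        rw [← h4, this, zero_smul, one_smul, add_zero]
        exact hx
      have e : a = 1 - b := by linarith
      have h2 := hlc x y b h4 (by linarith)
      rw [e, smul_eq_mul, smul_eq_mul]
      refine le_trans ?_ h2
      calc c = c ^ (1 - b) * c ^ b := by
            rw [← Real.rpow_add hc, sub_add_cancel, Real.rpow_one]
        _ ≤ h x ^ (1 - b) * h y ^ b :=
            mul_le_mul (Real.rpow_le_rpow hc.le hx (by linarith)) (Real.rpow_le_rpow hc.le hy h4.le)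
              (Real.rpow_nonneg hc.le _) (Real.rpow_nonneg (hc.le.trans hx) _)
    exact h1.ordConnected.measurableSet

theorem LC.refl {h : ℝ → ℝ} (hl : LC h) : LC (fun x => h (-x)) := by
  refine ⟨fun s => hl.nonneg _, fun x y t h0 h1 => ?_⟩
  have := hl.conc (-x) (-y) t h0 h1
  have e : (1 - t) * -x + t * -y = -((1 - t) * x + t * y) := by ring
  rwa [e] at this

/-- the four point inequality -/
theorem LC.four {h : ℝ → ℝ} (hl : LC h) {x t r : ℝ} (hxt : x ≤ t) (hr : 0 ≤ r) :
    h (t + r) * h x ≤ h t * h (x + r) := by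
  rcases hxt.eq_or_lt with rfl | hxt
  · exact le_of_eq (mul_comm _ _)
  rcases hr.eq_or_lt with rfl | hr
  · simp
  set L := t - x + r with hL
  have hL0 : 0 < L := by rw [hL]; linarith
  set a := (t - x) / L with ha
  have ha0 : 0 < a := div_pos (by linarith) hL0
  have ha1 : a < 1 := by rw [ha, div_lt_one hL0]; linarith
  have e1 : (1 - a) * x + a * (t + r) = t := by
    rw [ha]; field_simp; rw [hL]; ring
  have e2 : (1 - (1 - a)) * x + (1 - a) * (t + r) = x + r := by
    rw [ha]; field_simp; rw [hL]; ring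
  have h1 := hl.conc x (t + r) a ha0 ha1
  have h2 := hl.conc x (t + r) (1 - a) (by linarith) (by linarith)
  rw [e1] at h1
  rw [e2] at h2
  have n1 := hl.nonneg x
  have n2 := hl.nonneg (t + r)
  calc h (t + r) * h x
      = (h x ^ (1 - a) * h (t + r) ^ a) * (h x ^ (1 - (1 - a)) * h (t + r) ^ (1 - a)) := by
        have q1 : h x ^ (1 - a) * h x ^ (1 - (1 - a)) = h x := by
          rw [← Real.rpow_add_of_nonneg n1 (by linarith) (by linarith)]
          have : 1 - a + (1 - (1 - a)) = 1 := by ring
          rw [this, Real.rpow_one]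
        have q2 : h (t + r) ^ a * h (t + r) ^ (1 - a) = h (t + r) := by
          rw [← Real.rpow_add_of_nonneg n2 (by linarith) (by linarith)]
          have : a + (1 - a) = 1 := by ring
          rw [this, Real.rpow_one]
        calc h (t + r) * h x = (h (t + r) ^ a * h (t + r) ^ (1 - a)) *
              (h x ^ (1 - a) * h x ^ (1 - (1 - a))) := by rw [q1, q2]
          _ = _ := by ring
    _ ≤ h t * h (x + r) := by
        refine mul_le_mul h1 h2 ?_ (hl.nonneg t)
        exact mul_nonneg (Real.rpow_nonneg n1 _) (Real.rpow_nonneg n2 _)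

theorem tail_le {h : ℝ → ℝ} (hl : LC h) (hi : Integrable h) {x₀ : ℝ} (hx₀ : 0 < h x₀) (t : ℝ)
    (ht : x₀ ≤ t) : ∫ s in Set.Ioi t, h s ≤ ((∫ s, h s) / h x₀) * h t := by
  have e1 : ∫ s in Set.Ioi t, h s = ∫ r in Set.Ioi (0:ℝ), h (t + r) := by
    rw [← integral_indicator measurableSet_Ioi, ← integral_indicator measurableSet_Ioi,
      ← integral_add_left_eq_self (fun s => (Set.Ioi t).indicator h s) t]
    congr 1
    funext r
    by_cases hr : 0 < r
    · rw [Set.indicator_of_mem (by simpa using hr), Set.indicator_of_mem (by simpa using hr)]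
    · rw [Set.indicator_of_notMem (by simpa using hr), Set.indicator_of_notMem (by simpa using hr)]
  have e2 : ∫ r in Set.Ioi (0:ℝ), h (t + r) ≤ ∫ r in Set.Ioi (0:ℝ), (h t / h x₀) * h (x₀ + r) := by
    refine setIntegral_mono_on (hi.comp_add_left t).integrableOn
      ((hi.comp_add_left x₀).const_mul _).integrableOn measurableSet_Ioi fun r hr => ?_
    have h1 := hl.four ht (le_of_lt (Set.mem_Ioi.1 hr))
    rw [div_mul_eq_mul_div, le_div_iff₀ hx₀]
    exact h1
  rw [integral_const_mul] at e2
  have e3 : ∫ r in Set.Ioi (0:ℝ), h (x₀ + r) ≤ ∫ s, h s := by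
    calc ∫ r in Set.Ioi (0:ℝ), h (x₀ + r) ≤ ∫ r, h (x₀ + r) :=
          setIntegral_le_integral (hi.comp_add_left x₀)
            (Filter.Eventually.of_forall fun r => hl.nonneg _)
      _ = ∫ s, h s := integral_add_left_eq_self h x₀
  rw [e1]
  refine e2.trans ?_
  calc (h t / h x₀) * ∫ r in Set.Ioi (0:ℝ), h (x₀ + r) ≤ (h t / h x₀) * ∫ s, h s :=
        mul_le_mul_of_nonneg_left e3 (div_nonneg (hl.nonneg t) hx₀.le)
    _ = _ := by ring

/-- the probability measure with density proportional to `h` -/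
noncomputable def law (h : ℝ → ℝ) : Measure ℝ :=
  (∫⁻ x, ENNReal.ofReal (h x))⁻¹ • volume.withDensity fun x => ENNReal.ofReal (h x)

section

variable {h : ℝ → ℝ} (hl : LC h) (hpos : 0 < ∫ x, h x)
include hl hpos

theorem law_integrable : Integrable h := by
  by_contra hc
  rw [integral_undef hc] at hpos
  exact lt_irrefl _ hpos

theorem lint_eq : ∫⁻ x, ENNReal.ofReal (h x) = ENNReal.ofReal (∫ x, h x) :=
  (ofReal_integral_eq_lintegral_ofReal (law_integrable hl hpos)
    (Filter.Eventually.of_forall hl.nonneg)).symm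

theorem law_prob : IsProbabilityMeasure (law h) := by
  constructor
  unfold law
  rw [Measure.smul_apply, withDensity_apply _ MeasurableSet.univ, Measure.restrict_univ, smul_eq_mul,
    lint_eq hl hpos]
  exact ENNReal.inv_mul_cancel (ENNReal.ofReal_pos.2 hpos).ne' ENNReal.ofReal_ne_top

theorem law_ac : law h ≪ volume := by
  unfold law
  exact (withDensity_absolutelyContinuous _ _).smul_left _

theorem law_null : NullSingletonClass (law h) := by
  constructor
  intro x
  exact law_ac hl hpos (measure_singleton x)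

theorem law_int (g : ℝ → ℝ) : ∫ x, g x ∂(law h) = (∫ x, h x)⁻¹ * ∫ x, g x * h x := by
  unfold law
  rw [integral_smul_measure, lint_eq hl hpos, ENNReal.toReal_inv, ENNReal.toReal_ofReal hpos.le,
    integral_withDensity_eq_integral_toReal_smul₀ hl.meas.ennreal_ofReal.aemeasurable
      (Filter.Eventually.of_forall fun x => ENNReal.ofReal_lt_top), smul_eq_mul]
  congr 2
  funext x
  rw [ENNReal.toReal_ofReal (hl.nonneg x), smul_eq_mul, mul_comm]

theorem law_integrable_iff (g : ℝ → ℝ) :
    Integrable g (law h) ↔ Integrable (fun x => g x * h x) := by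
  unfold law
  have hI : (∫⁻ x, ENNReal.ofReal (h x))⁻¹ ≠ 0 := by
    rw [lint_eq hl hpos]; simp
  have hI' : (∫⁻ x, ENNReal.ofReal (h x))⁻¹ ≠ ⊤ := by
    rw [lint_eq hl hpos, ENNReal.inv_ne_top]
    exact (ENNReal.ofReal_pos.2 hpos).ne'
  rw [integrable_smul_measure hI hI', integrable_withDensity_iff hl.meas.ennreal_ofReal
    (Filter.Eventually.of_forall fun x => ENNReal.ofReal_lt_top)]
  simp only [ENNReal.toReal_ofReal (hl.nonneg _)]

/-- The Poincare inequality from the value of the density at one point. -/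
theorem poinc_of_point {x₀ : ℝ} (hx₀ : 0 < h x₀) :
    Poinc (law h) (4 * ((∫ x, h x) / h x₀) ^ 2) := by
  intro g hg hc
  have hprob := law_prob hl hpos
  have hi := law_integrable hl hpos
  obtain ⟨B, hB⟩ := bdd_of_compact_deriv hg hc
  have hdc : Continuous (deriv g) := hg.continuous_deriv (by norm_num)
  obtain ⟨B', hB'⟩ : ∃ B' : ℝ, ∀ x, |deriv g x| ≤ B' := by
    obtain ⟨B', hB'⟩ := hdc.bounded_above_of_compact_support hc
    exact ⟨B', fun x => by rw [← Real.norm_eq_abs]; exact hB' x⟩
  set K : ℝ := (∫ x, h x) / h x₀ with hK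
  have hK0 : 0 ≤ K := by rw [hK]; positivity
  have right := half_hardy (f := h) hl.nonneg hl.meas hi hK0 (tail_le hl hi hx₀) hg hB hB'
  have hgd : ∀ x, HasDerivAt (fun x => g (-x)) (-deriv g (-x)) x := by
    intro x
    have h1 := ((hg.differentiable (by norm_num) (-x)).hasDerivAt).comp x (hasDerivAt_neg x)
    refine h1.congr_deriv ?_
    ring
  have hgd' : ∀ x, deriv (fun x => g (-x)) x = -deriv g (-x) := fun x => (hgd x).deriv
  have hx₀' : 0 < (fun x => h (-x)) (-x₀) := by simpa using hx₀
  have hI' : ∫ x, h (-x) = ∫ x, h x := integral_neg_eq_self h volume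
  have left := half_hardy (f := fun x => h (-x)) (x₀ := -x₀) (K := K) hl.refl.nonneg hl.refl.meas
    hi.comp_neg hK0 (fun t ht => by
      have := tail_le hl.refl hi.comp_neg hx₀' t ht
      rw [hI', neg_neg] at this
      exact this) (g := fun x => g (-x)) (hg.comp contDiff_neg) (B := B) (B' := B')
      (fun x => hB _) (fun x => by rw [hgd', abs_neg]; exact hB' _)
  simp only [hgd', neg_sq, neg_neg] at left
  have l1 : ∫ x in Set.Ioi (-x₀), (g (-x) - g x₀) ^ 2 * h (-x)
      = ∫ x in Set.Iic x₀, (g x - g x₀) ^ 2 * h x := by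
    have := integral_comp_neg_Ioi (-x₀) (fun x => (g x - g x₀) ^ 2 * h x)
    simpa using this
  have l2 : ∫ x in Set.Ioi (-x₀), (deriv g (-x)) ^ 2 * h (-x)
      = ∫ x in Set.Iic x₀, (deriv g x) ^ 2 * h x := by
    have := integral_comp_neg_Ioi (-x₀) (fun x => (deriv g x) ^ 2 * h x)
    simpa using this
  rw [l1, l2] at left
  have hbi : ∀ {Φ : ℝ → ℝ}, Continuous Φ → ∀ {D : ℝ}, (∀ x, |Φ x| ≤ D) →
      Integrable (fun x => Φ x * h x) := by
    intro Φ hΦ D hD
    exact hi.bdd_mul (c := D) hΦ.aestronglyMeasurable (Filter.Eventually.of_forall fun x => by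
      rw [Real.norm_eq_abs]; exact hD x)
  have iA : Integrable (fun x => (g x - g x₀) ^ 2 * h x) :=
    hbi ((hg.continuous.sub continuous_const).pow 2) (D := (2 * B) ^ 2) fun x => by
      rw [abs_pow]
      refine pow_le_pow_left₀ (abs_nonneg _) ?_ 2
      have h1 := abs_sub (g x) (g x₀)
      have h2 := hB x
      have h3 := hB x₀
      linarith
  have iB : Integrable (fun x => (deriv g x) ^ 2 * h x) :=
    hbi (hdc.pow 2) (D := B' ^ 2) fun x => by
      rw [abs_pow]; exact pow_le_pow_left₀ (abs_nonneg _) (hB' x) 2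
  have hsum : ∫ x, (g x - g x₀) ^ 2 * h x ≤ 4 * K ^ 2 * ∫ x, (deriv g x) ^ 2 * h x := by
    rw [← intervalIntegral.integral_Iic_add_Ioi (b := x₀) iA.integrableOn iA.integrableOn,
      ← intervalIntegral.integral_Iic_add_Ioi (b := x₀) iB.integrableOn iB.integrableOn]
    linarith
  have hvar : variance g (law h) ≤ ∫ x, (g x - g x₀) ^ 2 ∂(law h) := by
    rw [← variance_sub_const hg.continuous.aestronglyMeasurable (g x₀)]
    exact variance_le_expectation_sq
      (hg.continuous.sub continuous_const).aestronglyMeasurable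
  refine hvar.trans ?_
  rw [law_int hl hpos, law_int hl hpos]
  have hinv : 0 ≤ (∫ x, h x)⁻¹ := inv_nonneg.2 hpos.le
  calc (∫ x, h x)⁻¹ * ∫ x, (g x - g x₀) ^ 2 * h x
      ≤ (∫ x, h x)⁻¹ * (4 * K ^ 2 * ∫ x, (deriv g x) ^ 2 * h x) :=
        mul_le_mul_of_nonneg_left hsum hinv
    _ = _ := by ring

theorem exists_point : ∃ x₀, 0 < h x₀ := by
  by_contra hc
  push Not at hc
  have : h = fun _ => 0 := funext fun x => le_antisymm (hc x) (hl.nonneg x)
  rw [this] at hpos
  simp at hpos

/-- second moments are finite -/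
theorem law_memLp : MemLp (fun x : ℝ => x) 2 (law h) := by
  have hprob := law_prob hl hpos
  have hnull := law_null hl hpos
  obtain ⟨x₀, hx₀⟩ := exists_point hl hpos
  have hP := poinc_of_point hl hpos hx₀
  have hC : 0 < 4 * ((∫ x, h x) / h x₀) ^ 2 := by positivity
  have hF : ContDiff ℝ 1 (fun x : Unit → ℝ => x ()) := contDiff_apply ℝ ℝ ()
  have hfd : ∀ x : Unit → ℝ, fderiv ℝ (fun x : Unit → ℝ => x ()) x
      = ContinuousLinearMap.proj (R := ℝ) (φ := fun _ : Unit => ℝ) () := fun x =>
    (ContinuousLinearMap.proj (R := ℝ) (φ := fun _ : Unit => ℝ) ()).fderiv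
  have hD : IntegrableOn (fun x : Unit → ℝ => ∑ i, (fderiv ℝ (fun x : Unit → ℝ => x ()) x
      (Pi.single i 1)) ^ 2) (KK fun _ _ : Unit => False) (Measure.pi fun _ : Unit => law h) := by
    simp only [hfd]
    exact (integrable_const _).integrableOn
  have key := (main_full (R := fun _ _ : Unit => False) hC hP hF hD).1
  have hK : (KK fun _ _ : Unit => False) = (Set.univ : Set (Unit → ℝ)) := by
    ext x
    simp [KK]
  rw [hK, integrableOn_univ] at key
  rw [memLp_two_iff_integrable_sq (by fun_prop)]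
  have hmp := measurePreserving_eval (fun _ : Unit => law h) ()
  exact (hmp.integrable_comp (g := fun x : ℝ => x ^ 2) (by fun_prop)).1 key

/-- the variance is at least `1 / (12 M²)` if the density is at most `M` -/
theorem var_ge {M : ℝ} (hM : 0 < M) (hb : ∀ x, h x ≤ M * ∫ x, h x) :
    1 / (12 * M ^ 2) ≤ variance (fun x : ℝ => x) (law h) := by
  have hprob := law_prob hl hpos
  have hmem := law_memLp hl hpos
  have hi := law_integrable hl hpos
  set m : ℝ := ∫ x, x ∂(law h) with hm
  rw [variance_eq_integral (by fun_prop)]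
  set I : ℝ := ∫ x, h x with hI
  set a : ℝ := 1 / (2 * M) with ha
  have ha0 : 0 < a := by rw [ha]; positivity
  have i1 : Integrable (fun x => (x - m) ^ 2) (law h) :=
    (hmem.sub (memLp_const m)).integrable_sq
  have i2 := (law_integrable_iff hl hpos _).1 i1
  have i3 : Integrable (fun x => ((x - m) ^ 2 - a ^ 2) * h x) := by
    have := i2.sub (hi.const_mul (a ^ 2))
    refine this.congr (Filter.Eventually.of_forall fun x => ?_)
    simp only [Pi.sub_apply]; ring
  have hpt : ∀ x, (Set.Icc (m - a) (m + a)).indicator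
      (fun x => ((x - m) ^ 2 - a ^ 2) * (M * I)) x ≤ ((x - m) ^ 2 - a ^ 2) * h x := by
    intro x
    by_cases hx : x ∈ Set.Icc (m - a) (m + a)
    · rw [Set.indicator_of_mem hx]
      have h1 : (x - m) ^ 2 - a ^ 2 ≤ 0 := by
        have := hx.1; have := hx.2; nlinarith
      exact mul_le_mul_of_nonpos_left (hb x) h1
    · rw [Set.indicator_of_notMem hx]
      refine mul_nonneg ?_ (hl.nonneg x)
      rw [Set.mem_Icc, not_and_or, not_le, not_le] at hx
      rcases hx with hx | hx <;> nlinarith
  have hint := integral_mono (μ := volume)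
    ((by
      refine (ContinuousOn.integrableOn_Icc ?_).integrable_indicator measurableSet_Icc
      fun_prop : Integrable ((Set.Icc (m - a) (m + a)).indicator
        (fun x => ((x - m) ^ 2 - a ^ 2) * (M * I))) volume)) i3 hpt
  have hleft : ∫ x, (Set.Icc (m - a) (m + a)).indicator
      (fun x => ((x - m) ^ 2 - a ^ 2) * (M * I)) x = - (4 / 3) * a ^ 3 * (M * I) := by
    rw [integral_indicator measurableSet_Icc, integral_Icc_eq_integral_Ioc,
      ← intervalIntegral.integral_of_le (by linarith), intervalIntegral.integral_mul_const]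
    have : ∫ x in (m - a)..(m + a), ((x - m) ^ 2 - a ^ 2) = - (4 / 3) * a ^ 3 := by
      have h1 : ∫ x in (m - a)..(m + a), ((x - m) ^ 2 - a ^ 2)
          = ∫ x in (-a)..a, (x ^ 2 - a ^ 2) := by
        have := intervalIntegral.integral_comp_sub_right (a := m - a) (b := m + a)
          (fun x => x ^ 2 - a ^ 2) m
        rw [this]
        congr 1 <;> ring
      rw [h1, intervalIntegral.integral_sub (by simp) (by simp), integral_pow]
      simp
      ring
    rw [this]
  have hright : ∫ x, ((x - m) ^ 2 - a ^ 2) * h x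
      = I * (∫ x, (x - m) ^ 2 ∂(law h)) - a ^ 2 * I := by
    have e : ∀ x, ((x - m) ^ 2 - a ^ 2) * h x = (x - m) ^ 2 * h x - a ^ 2 * h x := fun x => by ring
    simp only [e]
    rw [integral_sub i2 (hi.const_mul _), integral_const_mul, law_int hl hpos, ← hI]
    field_simp
  rw [hleft, hright] at hint
  have hcan : -(4/3) * a ^ 3 * M ≤ (∫ x, (x - m) ^ 2 ∂(law h)) - a ^ 2 := by
    have h1 : I * (-(4/3) * a ^ 3 * M) ≤ I * ((∫ x, (x - m) ^ 2 ∂(law h)) - a ^ 2) := by
      linarith
    exact le_of_mul_le_mul_left h1 hpos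
  have e1 : a ^ 3 * M = a ^ 2 / 2 := by
    rw [ha]; field_simp
  have e2 : 1 / (12 * M ^ 2) = a ^ 2 / 3 := by
    rw [ha]; field_simp; ring
  rw [e2]
  have e3 : -(4/3) * a ^ 3 * M = -(4/3) * (a ^ 3 * M) := by ring
  rw [e3, e1] at hcan
  linarith

theorem var_pos : 0 < variance (fun x : ℝ => x) (law h) := by
  have hprob := law_prob hl hpos
  have hnull := law_null hl hpos
  have hmem := law_memLp hl hpos
  refine lt_of_le_of_ne (variance_nonneg _ _) fun h0 => ?_
  have h1 : evariance (fun x : ℝ => x) (law h) = 0 := by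
    rw [← hmem.ofReal_variance_eq, ← h0, ENNReal.ofReal_zero]
  rw [evariance_eq_zero_iff (by fun_prop)] at h1
  set c := ∫ x, x ∂(law h)
  have h2 : ∀ᵐ x ∂(law h), x ≠ c := by
    rw [ae_iff]
    simp
  obtain ⟨x, hx1, hx2⟩ := (h1.and h2).exists
  exact hx2 hx1

/-- **The Poincare constant is at most `48` times the variance.** -/
theorem poinc_law : Poinc (law h) (48 * variance (fun x : ℝ => x) (law h)) := by
  have hprob := law_prob hl hpos
  set σ2 : ℝ := variance (fun x : ℝ => x) (law h) with hσ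
  have hσ0 : 0 < σ2 := var_pos hl hpos
  intro g hg hc
  set E : ℝ := ∫ x, (deriv g x) ^ 2 ∂(law h) with hE
  have hE0 : 0 ≤ E := integral_nonneg fun x => sq_nonneg _
  -- for every `q < 1`
  have main : ∀ q : ℝ, 0 < q → q < 1 → q * variance g (law h) ≤ 48 * σ2 * E := by
    intro q hq0 hq1
    set M : ℝ := √(q / (12 * σ2)) with hM
    have hM0 : 0 < M := Real.sqrt_pos.2 (by positivity)
    have hM2 : M ^ 2 = q / (12 * σ2) := Real.sq_sqrt (by positivity)
    have hex : ∃ x₀, M * (∫ x, h x) < h x₀ := by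
      by_contra hno
      push Not at hno
      have := var_ge hl hpos hM0 hno
      rw [hM2, ← hσ] at this
      have e : 1 / (12 * (q / (12 * σ2))) = σ2 / q := by field_simp
      rw [e, div_le_iff₀ hq0] at this
      nlinarith
    obtain ⟨x₀, hx₀⟩ := hex
    have hx₀p : 0 < h x₀ := lt_trans (mul_pos hM0 hpos) hx₀
    have hP := poinc_of_point hl hpos hx₀p g hg hc
    have hratio : (∫ x, h x) / h x₀ ≤ 1 / M := by
      rw [div_le_div_iff₀ hx₀p hM0]
      linarith
    have hsq : ((∫ x, h x) / h x₀) ^ 2 ≤ 12 * σ2 / q := by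
      calc ((∫ x, h x) / h x₀) ^ 2 ≤ (1 / M) ^ 2 :=
            pow_le_pow_left₀ (by positivity) hratio 2
        _ = 12 * σ2 / q := by rw [div_pow, one_pow, hM2]; field_simp
    have h2 : variance g (law h) ≤ 4 * (12 * σ2 / q) * E :=
      hP.trans (mul_le_mul_of_nonneg_right (by linarith) hE0)
    calc q * variance g (law h) ≤ q * (4 * (12 * σ2 / q) * E) :=
          mul_le_mul_of_nonneg_left h2 hq0.le
      _ = 48 * σ2 * E := by field_simp; ring
  have hlim : Tendsto (fun q : ℝ => q * variance g (law h)) (𝓝[<] 1)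
      (𝓝 (1 * variance g (law h))) := by
    refine Tendsto.mono_left ?_ nhdsWithin_le_nhds
    exact (continuous_id.mul continuous_const).tendsto 1
  have hmem : Set.Ioo (0:ℝ) 1 ∈ 𝓝[<] (1:ℝ) := Ioo_mem_nhdsLT (by norm_num)
  have := le_of_tendsto hlim (by
    filter_upwards [hmem] with q hq
    exact main q hq.1 hq.2)
  rwa [one_mul] at this

end

end Pool.Agent.K6.H24.OP
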