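import Pool.Agent.K6.H24.OP.E2
import Pool.Agent.K6.H24.OP.G2

/-!
# Transfer to Euclidean space
-/

namespace Pool.Agent.K6.H24.OP

open MeasureTheory Filter Topology ProbabilityTheory
open scoped InnerProductSpace

set_option linter.unusedSectionVars false

/-- Euclidean space -/
abbrev Eu (n : ℕ) : Type := EuclideanSpace ℝ (Fin n)

/-- the law of `n` independent variables -/
noncomputable def iid (ν : Measure ℝ) (n : ℕ) : Measure (Eu n) :=
  Measure.map (WithLp.toLp 2) (Measure.pi fun _ : Fin n => ν)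

/-- the cone -/
def cone {n : ℕ} (R : Fin n → Fin n → Prop) : Set (Eu n) := {x | ∀ i j, R i j → x i ≤ x j}

/-- the relation without its diagonal -/
def off {n : ℕ} (R : Fin n → Fin n → Prop) : Fin n → Fin n → Prop := fun i j => i ≠ j ∧ R i j

variable {n : ℕ} {ν : Measure ℝ} [IsProbabilityMeasure ν] {R : Fin n → Fin n → Prop}

lemma meas_toLp : Measurable (WithLp.toLp 2 : (Fin n → ℝ) → Eu n) :=
  (PiLp.continuous_toLp 2 _).measurable

lemma closed_cone (R : Fin n → Fin n → Prop) : IsClosed (cone R) := by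
  have : cone R = ⋂ i, ⋂ j, ⋂ _ : R i j, {x : Eu n | x i ≤ x j} := by
    ext x
    simp only [cone, Set.mem_iInter, Set.mem_ofPred_eq]
  rw [this]
  refine isClosed_iInter fun i => isClosed_iInter fun j => isClosed_iInter fun _ => ?_
  exact isClosed_le (by fun_prop) (by fun_prop)

/-- up to null sets the cone is the set of the strict inequalities -/
lemma cone_ae [NullSingletonClass ν] :
    (WithLp.toLp 2 ⁻¹' (cone R) : Set (Fin n → ℝ)) =ᵐ[Measure.pi fun _ : Fin n => ν]
      KK (off R) := by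
  filter_upwards [ae_injective (ι := Fin n) (ν := ν)] with x hx
  apply propext
  constructor
  · intro h
    refine ⟨fun i j hij he => hij (hx he), fun i j hR => ?_⟩
    exact lt_of_le_of_ne (h i j hR.2) fun he => hR.1 (hx he)
  · intro h i j hR
    by_cases hij : i = j
    · rw [hij]
    · exact (h.2 i j ⟨hij, hR⟩).le

lemma iid_cone [NullSingletonClass ν] :
    iid ν n (cone R) = (Measure.pi fun _ : Fin n => ν) (KK (off R)) := by
  unfold iid
  rw [Measure.map_apply meas_toLp (closed_cone R).measurableSet]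
  exact measure_congr cone_ae

/-- the conditioned measure -/
noncomputable def ord (ν : Measure ℝ) (R : Fin n → Fin n → Prop) : Measure (Eu n) :=
  ProbabilityTheory.cond (iid ν n) (cone R)

lemma ord_eq [NullSingletonClass ν] :
    ord ν R = Measure.map (WithLp.toLp 2) (cnd ν (off R)) := by
  unfold ord cnd ProbabilityTheory.cond
  rw [iid_cone, Measure.map_smul]
  congr 1
  unfold iid
  rw [Measure.restrict_map meas_toLp (closed_cone R).measurableSet]
  congr 1
  exact Measure.restrict_congr_set cone_ae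

instance iid_prob : IsProbabilityMeasure (iid ν n) :=
  Measure.isProbabilityMeasure_map meas_toLp.aemeasurable

lemma contDiff_toLp : ContDiff ℝ 1 (WithLp.toLp 2 : (Fin n → ℝ) → Eu n) :=
  (PiLp.continuousLinearEquiv 2 ℝ (fun _ : Fin n => ℝ)).symm.contDiff

lemma fderiv_toLp {f : Eu n → ℝ} (hf : ContDiff ℝ 1 f) (x : Fin n → ℝ) (i : Fin n) :
    fderiv ℝ (fun y : Fin n → ℝ => f (WithLp.toLp 2 y)) x (Pi.single i 1) =
      fderiv ℝ f (WithLp.toLp 2 x) (EuclideanSpace.single i 1) := by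
  have h1 : HasFDerivAt (WithLp.toLp 2 : (Fin n → ℝ) → Eu n)
      ((PiLp.continuousLinearEquiv 2 ℝ (fun _ : Fin n => ℝ)).symm :
        (Fin n → ℝ) →L[ℝ] Eu n) x :=
    (PiLp.continuousLinearEquiv 2 ℝ (fun _ : Fin n => ℝ)).symm.hasFDerivAt
  have h2 : HasFDerivAt f (fderiv ℝ f (WithLp.toLp 2 x)) (WithLp.toLp 2 x) :=
    ((hf.differentiable one_ne_zero) _).hasFDerivAt
  have h3 := h2.comp x h1
  have h4 : fderiv ℝ (fun y : Fin n → ℝ => f (WithLp.toLp 2 y)) x = _ := h3.fderiv
  rw [h4]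
  rfl

lemma norm_fderiv (L : Eu n →L[ℝ] ℝ) :
    ∑ i, (L (EuclideanSpace.single i 1)) ^ 2 = ‖L‖ ^ 2 := by
  set v : Eu n := (InnerProductSpace.toDual ℝ (Eu n)).symm L with hv
  have hL : ∀ x, L x = ⟪v, x⟫_ℝ := by
    intro x
    rw [hv, InnerProductSpace.toDual_symm_apply]
  have h1 : ‖L‖ = ‖v‖ := by
    rw [hv]
    exact (LinearIsometryEquiv.norm_map _ _).symm
  rw [h1, EuclideanSpace.norm_sq_eq]
  refine Finset.sum_congr rfl fun i _ => ?_
  rw [hL, EuclideanSpace.inner_single_right]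
  simp

lemma memLp_toLp_iff {μ : Measure (Fin n → ℝ)} {f : Eu n → ℝ} (hf : Continuous f)
    {p : ENNReal} : MemLp f p (Measure.map (WithLp.toLp 2) μ) ↔
      MemLp (fun x : Fin n → ℝ => f (WithLp.toLp 2 x)) p μ :=
  memLp_map_measure_iff hf.aestronglyMeasurable meas_toLp.aemeasurable

lemma int_toLp {μ : Measure (Fin n → ℝ)} {f : Eu n → ℝ} (hf : Continuous f) :
    ∫ x, f x ∂(Measure.map (WithLp.toLp 2) μ) = ∫ x, f (WithLp.toLp 2 x) ∂μ :=
  integral_map meas_toLp.aemeasurable hf.aestronglyMeasurable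

lemma var_toLp {μ : Measure (Fin n → ℝ)} {f : Eu n → ℝ} (hf : Continuous f) :
    variance f (Measure.map (WithLp.toLp 2) μ) = variance (fun x => f (WithLp.toLp 2 x)) μ :=
  variance_map hf.measurable.aemeasurable meas_toLp.aemeasurable

/-- Poincaré's inequality with constant `C`, for `C¹` functions with a square integrable gradient -/
def PI {E : Type*} [NormedAddCommGroup E] [NormedSpace ℝ E] [MeasurableSpace E]
    (μ : Measure E) (C : ℝ) : Prop :=
  ∀ f : E → ℝ, ContDiff ℝ 1 f → MemLp (fun x => ‖fderiv ℝ f x‖) 2 μ →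
    MemLp f 2 μ ∧ variance f μ ≤ C * ∫ x, ‖fderiv ℝ f x‖ ^ 2 ∂μ

/-- **from the line to the cone** -/
theorem pi_of_poinc [NullSingletonClass ν] {C : ℝ} (hC : 0 < C) (hP : Poinc ν C)
    (h : iid ν n (cone R) ≠ 0) : PI (ord ν R) C := by
  intro f hf hg
  rw [iid_cone] at h
  have hF : ContDiff ℝ 1 (fun x : Fin n → ℝ => f (WithLp.toLp 2 x)) := hf.comp contDiff_toLp
  have hgc : Continuous fun x => ‖fderiv ℝ f x‖ := (hf.continuous_fderiv one_ne_zero).norm
  have e : ∀ x : Fin n → ℝ, ∑ i, (fderiv ℝ (fun y : Fin n → ℝ => f (WithLp.toLp 2 y)) x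
      (Pi.single i 1)) ^ 2 = ‖fderiv ℝ f (WithLp.toLp 2 x)‖ ^ 2 := by
    intro x
    rw [← norm_fderiv]
    exact Finset.sum_congr rfl fun i _ => by rw [fderiv_toLp hf]
  rw [ord_eq, memLp_toLp_iff hgc] at hg
  have hD : Integrable (fun x : Fin n → ℝ => ∑ i, (fderiv ℝ
      (fun y : Fin n → ℝ => f (WithLp.toLp 2 y)) x (Pi.single i 1)) ^ 2) (cnd ν (off R)) := by
    simp only [e]
    exact hg.integrable_sq
  obtain ⟨h1, h2⟩ := cnd_poinc hC hP h hF hD
  rw [ord_eq, memLp_toLp_iff hf.continuous, var_toLp hf.continuous]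
  refine ⟨h1, h2.trans (le_of_eq ?_)⟩
  rw [int_toLp (f := fun x => ‖fderiv ℝ f x‖ ^ 2) (hgc.pow 2)]
  simp only [e]

/-- the derivative of a sum of functions of one variable -/
lemma fderiv_sum_norm {G : ℝ → ℝ} (hG : ContDiff ℝ 1 G) (x : Eu n) :
    ‖fderiv ℝ (fun y : Eu n => ∑ i, G (y i)) x‖ ^ 2 = ∑ i, (deriv G (x i)) ^ 2 := by
  rw [← norm_fderiv]
  have h1 : HasFDerivAt (fun y : Eu n => ∑ i, G (y i))
      (∑ i, (deriv G (x i)) • (EuclideanSpace.proj i : Eu n →L[ℝ] ℝ)) x := by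
    have h2 : ∀ i ∈ (Finset.univ : Finset (Fin n)), HasFDerivAt (fun y : Eu n => G (y i))
        ((deriv G (x i)) • (EuclideanSpace.proj i : Eu n →L[ℝ] ℝ)) x := by
      intro i _
      have h3 : HasDerivAt G (deriv G (x i)) (x i) :=
        ((hG.differentiable one_ne_zero) _).hasDerivAt
      have h4 : HasFDerivAt (fun y : Eu n => y i) (EuclideanSpace.proj i : Eu n →L[ℝ] ℝ) x :=
        (EuclideanSpace.proj i : Eu n →L[ℝ] ℝ).hasFDerivAt
      exact h3.comp_hasFDerivAt x h4
    have h5 := HasFDerivAt.sum h2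
    have e : (∑ i, fun y : Eu n => G (y i)) = fun y : Eu n => ∑ i, G (y i) := by
      funext y
      simp
    rwa [e] at h5
  rw [h1.fderiv]
  refine Finset.sum_congr rfl fun j _ => ?_
  congr 1
  rw [ContinuousLinearMap.sum_apply, Finset.sum_eq_single j]
  · simp
  · intro i _ hij
    simp [hij]
  · intro h
    exact absurd (Finset.mem_univ _) h

/-- **from the cone to the line** -/
theorem poinc_of_pi [NullSingletonClass ν] {C : ℝ} (hn : 1 ≤ n)
    (h : iid ν n (cone R) ≠ 0) (hP : PI (ord ν R) C) : Poinc ν C := by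
  intro g hg hgc
  obtain ⟨B, hB⟩ := bdd_of_compact_deriv hg hgc
  obtain ⟨B', hB'⟩ := hgc.exists_bound_of_continuous (hg.continuous_deriv le_rfl)
  have hg2 : MemLp g 2 ν :=
    MemLp.of_bound hg.continuous.aestronglyMeasurable B (Eventually.of_forall fun x => hB x)
  have hg3 : MemLp (deriv g) 2 ν :=
    MemLp.of_bound (hg.continuous_deriv le_rfl).aestronglyMeasurable B'
      (Eventually.of_forall fun x => hB' x)
  have h' := h
  rw [iid_cone] at h'
  have hp := cnd_prob h'
  set F : Eu n → ℝ := fun y => ∑ i, g (y i) with hF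
  have hFc : ContDiff ℝ 1 F := by
    refine ContDiff.sum fun i _ => ?_
    exact hg.comp (EuclideanSpace.proj i : Eu n →L[ℝ] ℝ).contDiff
  have hnf : Continuous fun x => ‖fderiv ℝ F x‖ := (hFc.continuous_fderiv one_ne_zero).norm
  have hsq : ∀ x, ‖fderiv ℝ F x‖ ^ 2 = ∑ i, (deriv g (x i)) ^ 2 := fun x => fderiv_sum_norm hg x
  have hint0 : Integrable (fun x : Fin n → ℝ => ∑ i, (deriv g (x i)) ^ 2)
      (Measure.pi fun _ : Fin n => ν) := by
    refine integrable_finsetSum _ fun i _ => ?_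
    have h3 : MemLp (fun x : Fin n → ℝ => deriv g (x i)) 2 (Measure.pi fun _ : Fin n => ν) :=
      hg3.comp_measurePreserving (measurePreserving_eval (fun _ : Fin n => ν) i)
    exact h3.integrable_sq
  have hint : Integrable (fun x : Fin n → ℝ => ∑ i, (deriv g (x i)) ^ 2) (cnd ν (off R)) := by
    rw [← memLp_one_iff_integrable] at hint0 ⊢
    exact cnd_memLp hint0 h'
  have hmem : MemLp (fun x => ‖fderiv ℝ F x‖) 2 (ord ν R) := by
    rw [ord_eq, memLp_toLp_iff hnf, memLp_two_iff_integrable_sq (by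
      exact (hnf.comp (PiLp.continuous_toLp 2 _)).aestronglyMeasurable)]
    simp only [hsq]
    exact hint
  obtain ⟨-, h2⟩ := hP F hFc hmem
  rw [ord_eq, var_toLp hFc.continuous, int_toLp (f := fun x => ‖fderiv ℝ F x‖ ^ 2) (hnf.pow 2)] at h2
  simp only [hsq] at h2
  have e1 : variance (fun x : Fin n → ℝ => F (WithLp.toLp 2 x)) (cnd ν (off R)) =
      (n : ℝ) * variance g ν := by
    have := cnd_var (R := off R) h' hg2
    rw [Fintype.card_fin] at this
    exact this
  have e2 : ∫ x, ∑ i, (deriv g (x i)) ^ 2 ∂(cnd ν (off R)) = n * ∫ x, (deriv g x) ^ 2 ∂ν := by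
    rw [cnd_symm h' (fun π x => Equiv.sum_comp π fun i => (deriv g (x i)) ^ 2) hint0,
      integral_finsetSum]
    · have : ∀ i : Fin n, ∫ x : Fin n → ℝ, (deriv g (x i)) ^ 2 ∂(Measure.pi fun _ : Fin n => ν)
          = ∫ x, (deriv g x) ^ 2 ∂ν := by
        intro i
        have hm := measurePreserving_eval (fun _ : Fin n => ν) i
        have h5 := integral_map (μ := Measure.pi fun _ : Fin n => ν) hm.measurable.aemeasurable
          (f := fun x : ℝ => (deriv g x) ^ 2) (by
            rw [hm.map_eq]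
            exact ((hg.continuous_deriv le_rfl).pow 2).aestronglyMeasurable)
        rw [hm.map_eq] at h5
        exact h5.symm
      simp [this]
    · intro i _
      have h3 : MemLp (fun x : Fin n → ℝ => deriv g (x i)) 2 (Measure.pi fun _ : Fin n => ν) :=
        hg3.comp_measurePreserving (measurePreserving_eval (fun _ : Fin n => ν) i)
      exact h3.integrable_sq
  have e3 : ∫ x : Fin n → ℝ, ∑ i, (deriv g ((WithLp.toLp 2 x : Eu n) i)) ^ 2 ∂(cnd ν (off R)) =
      n * ∫ x, (deriv g x) ^ 2 ∂ν := e2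
  rw [e1, e3] at h2
  have hn0 : (0 : ℝ) < n := by exact_mod_cast hn
  have h4 : (n : ℝ) * variance g ν ≤ n * (C * ∫ x, (deriv g x) ^ 2 ∂ν) := by
    linarith
  exact le_of_mul_le_mul_left h4 hn0

end Pool.Agent.K6.H24.OP
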