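import Mathlib

/-!
# Labels on a path: one bond

Sites `Fin (m+1)`, bonds `Fin m`.  A placement of labels is a map `z : ι → Fin (m+1)`.
For a monotone `ψ` on the sites, `D ψ z w = ∑ |ψ (z i) - ψ (w i)|`.
-/

namespace Pool.Agent.K6.H24.OP

open Finset

set_option linter.unusedSectionVars false
set_option linter.deprecated false

variable {ι : Type*} [Fintype ι] [DecidableEq ι] {m : ℕ}

/-- The transposition of the two ends of the bond `a`. -/
def sw (a : Fin m) : Equiv.Perm (Fin (m+1)) := Equiv.swap a.castSucc a.succ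

/-- Averaging a function on the sites over the bond `a`. -/
noncomputable def ea (a : Fin m) (ψ : Fin (m+1) → ℝ) : Fin (m+1) → ℝ :=
  fun t => (ψ t + ψ (sw a t)) / 2

/-- The `ψ`-distance of two placements. -/
noncomputable def D (ψ : Fin (m+1) → ℝ) (z w : ι → Fin (m+1)) : ℝ :=
  ∑ i, (ψ (max (z i) (w i)) - ψ (min (z i) (w i)))

lemma sw_left (a : Fin m) : sw a a.castSucc = a.succ := Equiv.swap_apply_left _ _
lemma sw_right (a : Fin m) : sw a a.succ = a.castSucc := Equiv.swap_apply_right _ _
lemma sw_other (a : Fin m) {t : Fin (m+1)} (h1 : t ≠ a.castSucc) (h2 : t ≠ a.succ) :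
    sw a t = t := Equiv.swap_apply_of_ne_of_ne h1 h2
lemma sw_sw (a : Fin m) (t : Fin (m+1)) : sw a (sw a t) = t := Equiv.swap_apply_self _ _ _

lemma lt_or_gt_of_not_mem (a : Fin m) {t : Fin (m+1)} (h1 : t ≠ a.castSucc) (h2 : t ≠ a.succ) :
    t < a.castSucc ∨ a.succ < t := by
  rcases lt_trichotomy t a.castSucc with h | h | h
  · exact Or.inl h
  · exact absurd h h1
  · right
    rcases lt_trichotomy t a.succ with h' | h' | h'
    · exfalso
      rw [Fin.lt_def] at h h'
      simp only [Fin.val_castSucc, Fin.val_succ] at h h'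
      omega
    · exact absurd h' h2
    · exact h'

lemma castSucc_lt_succ' (a : Fin m) : a.castSucc < a.succ := Fin.castSucc_lt_succ

lemma abs_eq_of_mono {ψ : Fin (m+1) → ℝ} (hψ : Monotone ψ) (s t : Fin (m+1)) :
    ψ (max s t) - ψ (min s t) = |ψ s - ψ t| := by
  rcases le_total s t with h | h
  · rw [max_eq_right h, min_eq_left h, abs_sub_comm, abs_of_nonneg (sub_nonneg.2 (hψ h))]
  · rw [max_eq_left h, min_eq_right h, abs_of_nonneg (sub_nonneg.2 (hψ h))]

lemma D_eq {ψ : Fin (m+1) → ℝ} (hψ : Monotone ψ) (z w : ι → Fin (m+1)) :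
    D ψ z w = ∑ i, |ψ (z i) - ψ (w i)| := by
  unfold D
  exact Finset.sum_congr rfl fun i _ => abs_eq_of_mono hψ _ _

lemma D_comm (ψ : Fin (m+1) → ℝ) (z w : ι → Fin (m+1)) : D ψ z w = D ψ w z := by
  unfold D
  refine Finset.sum_congr rfl fun i _ => ?_
  rw [max_comm, min_comm]

lemma D_self (ψ : Fin (m+1) → ℝ) (z : ι → Fin (m+1)) : D ψ z z = 0 := by
  unfold D; simp

lemma D_nonneg {ψ : Fin (m+1) → ℝ} (hψ : Monotone ψ) (z w : ι → Fin (m+1)) : 0 ≤ D ψ z w := by
  rw [D_eq hψ]; positivity

private lemma two_abs {x y z : ℝ} (h : (z ≤ x ∧ z ≤ y) ∨ (x ≤ z ∧ y ≤ z)) :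
    |x - z| + |y - z| = 2 * |(x + y) / 2 - z| := by
  rcases h with ⟨h1, h2⟩ | ⟨h1, h2⟩
  · rw [abs_of_nonneg (by linarith), abs_of_nonneg (by linarith), abs_of_nonneg (by linarith)]
    ring
  · rw [abs_of_nonpos (by linarith), abs_of_nonpos (by linarith), abs_of_nonpos (by linarith)]
    ring

lemma ea_left (a : Fin m) (ψ : Fin (m+1) → ℝ) :
    ea a ψ a.castSucc = (ψ a.castSucc + ψ a.succ) / 2 := by
  unfold ea; rw [sw_left]

lemma ea_right (a : Fin m) (ψ : Fin (m+1) → ℝ) :
    ea a ψ a.succ = (ψ a.castSucc + ψ a.succ) / 2 := by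
  unfold ea; rw [sw_right, add_comm]

lemma ea_other (a : Fin m) (ψ : Fin (m+1) → ℝ) {t : Fin (m+1)} (h1 : t ≠ a.castSucc)
    (h2 : t ≠ a.succ) : ea a ψ t = ψ t := by
  unfold ea; rw [sw_other a h1 h2]; ring

/-- The averaged function is monotone. -/
lemma ea_mono (a : Fin m) {ψ : Fin (m+1) → ℝ} (hψ : Monotone ψ) : Monotone (ea a ψ) := by
  intro s t hst
  have hPQ := hψ (castSucc_lt_succ' a).le
  by_cases hs1 : s = a.castSucc
  · subst hs1
    rw [ea_left]
    by_cases ht1 : t = a.castSucc
    · subst ht1; rw [ea_left]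
    · by_cases ht2 : t = a.succ
      · subst ht2; rw [ea_right]
      · rw [ea_other a ψ ht1 ht2]
        rcases lt_or_gt_of_not_mem a ht1 ht2 with h | h
        · exact absurd hst (not_le.2 h)
        · have := hψ h.le
          linarith
  · by_cases hs2 : s = a.succ
    · subst hs2
      rw [ea_right]
      by_cases ht1 : t = a.castSucc
      · subst ht1; rw [ea_left]
      · by_cases ht2 : t = a.succ
        · subst ht2; rw [ea_right]
        · rw [ea_other a ψ ht1 ht2]
          have := hψ hst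
          linarith
    · rw [ea_other a ψ hs1 hs2]
      by_cases ht1 : t = a.castSucc
      · subst ht1; rw [ea_left]
        have := hψ hst
        linarith
      · by_cases ht2 : t = a.succ
        · subst ht2; rw [ea_right]
          rcases lt_or_gt_of_not_mem a hs1 hs2 with h | h
          · have := hψ h.le
            linarith
          · exact absurd hst (not_le.2 h)
        · rw [ea_other a ψ ht1 ht2]
          exact hψ hst

/-- The single-label identities behind the coupling. -/
lemma one_label_id (a : Fin m) {ψ : Fin (m+1) → ℝ} (hψ : Monotone ψ) (s t : Fin (m+1))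
    (h : (s = a.castSucc ∨ s = a.succ) → (t = a.castSucc ∨ t = a.succ) → s = t) :
    |ψ s - ψ t| + |ψ (sw a s) - ψ (sw a t)| = 2 * |ea a ψ s - ea a ψ t| := by
  have hPQ := hψ (castSucc_lt_succ' a).le
  by_cases hs : s = a.castSucc ∨ s = a.succ
  · by_cases ht : t = a.castSucc ∨ t = a.succ
    · have := h hs ht
      subst this
      simp
    · have ht' := ht
      push Not at ht
      rw [sw_other a ht.1 ht.2, ea_other a ψ ht.1 ht.2]
      have key := lt_or_gt_of_not_mem a ht.1 ht.2
      rcases hs with hs | hs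
      · subst hs
        rw [sw_left, ea_left]
        apply two_abs
        rcases key with h | h
        · left
          exact ⟨hψ h.le, le_trans (hψ h.le) hPQ⟩
        · right
          exact ⟨le_trans hPQ (hψ h.le), hψ h.le⟩
      · subst hs
        rw [sw_right, ea_right, add_comm (|ψ a.succ - ψ t|)]
        apply two_abs
        rcases key with h | h
        · left
          exact ⟨hψ h.le, le_trans (hψ h.le) hPQ⟩
        · right
          exact ⟨le_trans hPQ (hψ h.le), hψ h.le⟩
  · push Not at hs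
    by_cases ht : t = a.castSucc ∨ t = a.succ
    · rw [sw_other a hs.1 hs.2, ea_other a ψ hs.1 hs.2]
      have key := lt_or_gt_of_not_mem a hs.1 hs.2
      rw [abs_sub_comm (ψ s), abs_sub_comm (ψ s), abs_sub_comm (ψ s)]
      rcases ht with hs | hs
      · subst hs
        rw [sw_left, ea_left]
        apply two_abs
        rcases key with h | h
        · left
          exact ⟨hψ h.le, le_trans (hψ h.le) hPQ⟩
        · right
          exact ⟨le_trans hPQ (hψ h.le), hψ h.le⟩
      · subst hs
        rw [sw_right, ea_right, add_comm (|ψ a.succ - ψ s|)]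
        apply two_abs
        rcases key with h | h
        · left
          exact ⟨hψ h.le, le_trans (hψ h.le) hPQ⟩
        · right
          exact ⟨le_trans hPQ (hψ h.le), hψ h.le⟩
    · push Not at ht
      rw [sw_other a hs.1 hs.2, ea_other a ψ hs.1 hs.2, sw_other a ht.1 ht.2,
        ea_other a ψ ht.1 ht.2]
      ring

lemma ea_sw (a : Fin m) (ψ : Fin (m+1) → ℝ) (t : Fin (m+1)) : ea a ψ (sw a t) = ea a ψ t := by
  unfold ea
  rw [sw_sw, add_comm]

lemma sw_mem (a : Fin m) {t : Fin (m+1)} (h : t = a.castSucc ∨ t = a.succ) :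
    sw a t = a.castSucc ∨ sw a t = a.succ := by
  rcases h with h | h
  · subst h; right; exact sw_left a
  · subst h; left; exact sw_right a

lemma mem_of_sw_mem (a : Fin m) {t : Fin (m+1)} (h : sw a t = a.castSucc ∨ sw a t = a.succ) :
    t = a.castSucc ∨ t = a.succ := by
  have := sw_mem a h
  rwa [sw_sw] at this

lemma one_label_sw (a : Fin m) {ψ : Fin (m+1) → ℝ} (hψ : Monotone ψ) (s t : Fin (m+1))
    (h : (s = a.castSucc ∨ s = a.succ) → (t = a.castSucc ∨ t = a.succ) → s ≠ t) :
    |ψ s - ψ (sw a t)| + |ψ (sw a s) - ψ t| = 2 * |ea a ψ s - ea a ψ t| := by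
  have h' : (s = a.castSucc ∨ s = a.succ) → (sw a t = a.castSucc ∨ sw a t = a.succ) →
      s = sw a t := by
    intro h1 h2
    have h3 := mem_of_sw_mem a h2
    have h4 := h h1 h3
    rcases h1 with h1 | h1 <;> rcases h3 with h3 | h3
    · exact absurd (h1.trans h3.symm) h4
    · rw [h1, h3, sw_right]
    · rw [h1, h3, sw_left]
    · exact absurd (h1.trans h3.symm) h4
  have := one_label_id a hψ s (sw a t) h'
  rwa [sw_sw, ea_sw] at this

/-- **Lemma F.** -/
lemma lemma_F (a : Fin m) {ψ : Fin (m+1) → ℝ} (hψ : Monotone ψ) {z w : ι → Fin (m+1)}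
    (hz : Function.Injective z) (hw : Function.Injective w) :
    (D ψ z w + D ψ (sw a ∘ z) (sw a ∘ w) = 2 * D (ea a ψ) z w ∧
      (∀ t, (z t = a.castSucc ∨ z t = a.succ) → (w t = a.castSucc ∨ w t = a.succ) → z t = w t)) ∨
    (D ψ z (sw a ∘ w) + D ψ (sw a ∘ z) w = 2 * D (ea a ψ) z w) := by
  by_cases H : ∀ t, (z t = a.castSucc ∨ z t = a.succ) → (w t = a.castSucc ∨ w t = a.succ) →
      z t = w t
  · left
    refine ⟨?_, H⟩
    rw [D_eq hψ, D_eq hψ, D_eq (ea_mono a hψ), ← Finset.sum_add_distrib, Finset.mul_sum]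
    exact Finset.sum_congr rfl fun i _ => one_label_id a hψ _ _ (H i)
  · right
    have H2 : ∀ t, (z t = a.castSucc ∨ z t = a.succ) → (w t = a.castSucc ∨ w t = a.succ) →
      z t ≠ w t := by
      push Not at H
      obtain ⟨u, hu1, hu2, hu3⟩ := H
      intro t ht1 ht2 ht3
      have htu : t ≠ u := by
        rintro rfl; exact hu3 ht3
      have hzz : z t ≠ z u := fun h => htu (hz h)
      have hww : w t ≠ w u := fun h => htu (hw h)
      rcases hu1 with h1 | h1 <;> rcases hu2 with h2 | h2
      · exact hu3 (h1.trans h2.symm)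
      · rcases ht1 with h3 | h3
        · exact hzz (h3.trans h1.symm)
        · exact hww ((ht3.symm.trans h3).trans h2.symm)
      · rcases ht1 with h3 | h3
        · exact hww ((ht3.symm.trans h3).trans h2.symm)
        · exact hzz (h3.trans h1.symm)
      · exact hu3 (h1.trans h2.symm)
    rw [D_eq hψ, D_eq hψ, D_eq (ea_mono a hψ), ← Finset.sum_add_distrib, Finset.mul_sum]
    exact Finset.sum_congr rfl fun i _ => one_label_sw a hψ _ _ (H2 i)

/-- **Lemma R** (rearrangement). -/
lemma lemma_R (a : Fin m) {ψ : Fin (m+1) → ℝ} (hψ : Monotone ψ) {z w : ι → Fin (m+1)}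
    (hz : Function.Injective z) {i j : ι} (hi : z i = a.castSucc) (hj : z j = a.succ)
    (hw : w i ≤ w j) : D ψ z w ≤ D ψ (sw a ∘ z) w := by
  have hij : i ≠ j := by
    rintro rfl
    exact absurd (hi.symm.trans hj) (castSucc_lt_succ' a).ne
  rw [D_eq hψ, D_eq hψ]
  have hrest : ∀ k, k ≠ i → k ≠ j → sw a (z k) = z k := by
    intro k h1 h2
    refine sw_other a ?_ ?_
    · intro h; exact h1 (hz (h.trans hi.symm))
    · intro h; exact h2 (hz (h.trans hj.symm))
  have hPQ := hψ (castSucc_lt_succ' a).le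
  have hww := hψ hw
  have e1 : ∀ g : ι → ℝ, ∑ k, g k = g i + g j + ∑ k ∈ (Finset.univ.erase i).erase j, g k := by
    intro g
    rw [← Finset.add_sum_erase Finset.univ g (Finset.mem_univ i),
      ← Finset.add_sum_erase (Finset.univ.erase i) g
        (Finset.mem_erase.2 ⟨hij.symm, Finset.mem_univ j⟩)]
    ring
  rw [e1, e1 (fun k => |ψ ((sw a ∘ z) k) - ψ (w k)|)]
  have e2 : ∑ k ∈ (Finset.univ.erase i).erase j, |ψ ((sw a ∘ z) k) - ψ (w k)|
      = ∑ k ∈ (Finset.univ.erase i).erase j, |ψ (z k) - ψ (w k)| := by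
    refine Finset.sum_congr rfl fun k hk => ?_
    have h2 := Finset.ne_of_mem_erase hk
    have h1 := Finset.ne_of_mem_erase (Finset.mem_of_mem_erase hk)
    simp only [Function.comp]
    rw [hrest k h1 h2]
  rw [e2]
  simp only [Function.comp]
  rw [hi, hj, sw_left, sw_right]
  have : |ψ a.castSucc - ψ (w i)| + |ψ a.succ - ψ (w j)| ≤
      |ψ a.succ - ψ (w i)| + |ψ a.castSucc - ψ (w j)| := by
    rcases abs_cases (ψ a.castSucc - ψ (w i)) with h1 | h1 <;>
    rcases abs_cases (ψ a.succ - ψ (w j)) with h2 | h2 <;>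
    rcases abs_cases (ψ a.succ - ψ (w i)) with h3 | h3 <;>
    rcases abs_cases (ψ a.castSucc - ψ (w j)) with h4 | h4 <;> linarith [h1.1, h1.2, h2.1, h2.2, h3.1, h3.2, h4.1, h4.2]
  linarith

/-- Only a blocked pair changes its order under a swap. -/
lemma sw_lt (a : Fin m) {p q : Fin (m+1)} (hpq : p < q)
    (h : ¬ (p = a.castSucc ∧ q = a.succ)) : sw a p < sw a q := by
  have hPQ := castSucc_lt_succ' a
  by_cases hp1 : p = a.castSucc
  · subst hp1
    have hq1 : q ≠ a.succ := fun h' => h ⟨rfl, h'⟩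
    rw [sw_left, sw_other a hpq.ne' hq1]
    rcases lt_or_gt_of_not_mem a hpq.ne' hq1 with h' | h'
    · exact absurd hpq (not_lt.2 h'.le)
    · exact h'
  · by_cases hp2 : p = a.succ
    · subst hp2
      have hq0 : q ≠ a.castSucc := fun h' => absurd (h' ▸ hpq) (not_lt.2 hPQ.le)
      rw [sw_right, sw_other a hq0 hpq.ne']
      exact lt_trans hPQ hpq
    · rw [sw_other a hp1 hp2]
      by_cases hq1 : q = a.castSucc
      · subst hq1
        rw [sw_left]
        exact lt_trans hpq hPQ
      · by_cases hq2 : q = a.succ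
        · subst hq2
          rw [sw_right]
          rcases lt_or_gt_of_not_mem a hp1 hp2 with h' | h'
          · exact h'
          · exact absurd hpq (not_lt.2 h'.le)
        · rw [sw_other a hq1 hq2]
          exact hpq

end Pool.Agent.K6.H24.OP
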