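import Pool.Agent.K6.H24.OP.A1

/-!
# The exclusion dynamics with order constraints contracts the `ψ`-Lipschitz cone
-/

namespace Pool.Agent.K6.H24.OP

open Finset

set_option linter.unusedSectionVars false
set_option linter.deprecated false

variable {ι : Type*} [Fintype ι] [DecidableEq ι] {m : ℕ}

/-- A placement of the labels on distinct sites which respects the relation `R`. -/
def Ok (R : ι → ι → Prop) (x : ι → Fin (m+1)) : Prop :=
  Function.Injective x ∧ ∀ i j, R i j → x i < x j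

/-- The configurations. -/
abbrev Cfg (R : ι → ι → Prop) (m : ℕ) : Type _ := {x : ι → Fin (m+1) // Ok R x}

noncomputable instance (R : ι → ι → Prop) (m : ℕ) : Fintype (Cfg R m) := by
  classical
  exact inferInstance

variable {R : ι → ι → Prop}

open Classical in
/-- The move at the bond `a`: swap the contents of its two ends if that is allowed. -/
noncomputable def tau (a : Fin m) (x : Cfg R m) : Cfg R m :=
  if h : Ok R (sw a ∘ x.1) then ⟨sw a ∘ x.1, h⟩ else x

lemma sw_comp_sw (a : Fin m) (x : ι → Fin (m+1)) : sw a ∘ (sw a ∘ x) = x := by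
  funext i
  simp [sw_sw]

lemma tau_of_ok {a : Fin m} {x : Cfg R m} (h : Ok R (sw a ∘ x.1)) :
    tau a x = ⟨sw a ∘ x.1, h⟩ := by
  unfold tau; rw [dif_pos h]

lemma tau_of_not_ok {a : Fin m} {x : Cfg R m} (h : ¬ Ok R (sw a ∘ x.1)) :
    tau a x = x := by
  unfold tau; rw [dif_neg h]

lemma tau_tau (a : Fin m) (x : Cfg R m) : tau a (tau a x) = x := by
  by_cases h : Ok R (sw a ∘ x.1)
  · rw [tau_of_ok h]
    have h2 : Ok R (sw a ∘ (⟨sw a ∘ x.1, h⟩ : Cfg R m).1) := by
      change Ok R (sw a ∘ (sw a ∘ x.1))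
      rw [sw_comp_sw]; exact x.2
    rw [tau_of_ok h2]
    apply Subtype.ext
    exact sw_comp_sw a x.1
  · rw [tau_of_not_ok h, tau_of_not_ok h]

/-- A blocked configuration has a blocked pair. -/
lemma blocked {a : Fin m} {x : Cfg R m} (h : ¬ Ok R (sw a ∘ x.1)) :
    ∃ i j, R i j ∧ x.1 i = a.castSucc ∧ x.1 j = a.succ := by
  unfold Ok at h
  rw [not_and] at h
  have h1 := h ((sw a).injective.comp x.2.1)
  push Not at h1
  obtain ⟨i, j, hR, hle⟩ := h1
  refine ⟨i, j, hR, ?_⟩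
  by_contra hc
  exact absurd (sw_lt a (x.2.2 i j hR) hc) (not_lt.2 hle)

/-- Averaging over the move at the bond `a`. -/
noncomputable def E (a : Fin m) (g : Cfg R m → ℝ) : Cfg R m → ℝ :=
  fun x => (g x + g (tau a x)) / 2

/-- `g` is `1`-Lipschitz for `D ψ`. -/
def Lip (ψ : Fin (m+1) → ℝ) (g : Cfg R m → ℝ) : Prop :=
  ∀ x y : Cfg R m, |g x - g y| ≤ D ψ x.1 y.1

/-- The key contraction. -/
theorem lip_E (a : Fin m) {ψ : Fin (m+1) → ℝ} (hψ : Monotone ψ) {g : Cfg R m → ℝ}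
    (hg : Lip ψ g) : Lip (ea a ψ) (E a g) := by
  have free_blocked : ∀ X Y : Cfg R m, ¬ Ok R (sw a ∘ X.1) → Ok R (sw a ∘ Y.1) →
      |E a g X - E a g Y| ≤ D (ea a ψ) X.1 Y.1 := by
    intro X Y hX hY
    obtain ⟨i, j, hR, hi, hj⟩ := blocked hX
    have e1 : E a g X = g X := by unfold E; rw [tau_of_not_ok hX]; ring
    have e2 : E a g Y = (g Y + g ⟨sw a ∘ Y.1, hY⟩) / 2 := by unfold E; rw [tau_of_ok hY]
    have h1 := hg X Y
    have h2 := hg X ⟨sw a ∘ Y.1, hY⟩
    have hb : |E a g X - E a g Y| ≤ (D ψ X.1 Y.1 + D ψ X.1 (sw a ∘ Y.1)) / 2 := by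
      rw [e1, e2, abs_le]
      rw [abs_le] at h1 h2
      constructor <;> linarith [h1.1, h1.2, h2.1, h2.2]
    have r1 : D ψ X.1 Y.1 ≤ D ψ (sw a ∘ X.1) Y.1 :=
      lemma_R a hψ X.2.1 hi hj (Y.2.2 i j hR).le
    have r2 : D ψ X.1 (sw a ∘ Y.1) ≤ D ψ (sw a ∘ X.1) (sw a ∘ Y.1) :=
      lemma_R a hψ X.2.1 hi hj (hY.2 i j hR).le
    rcases lemma_F a hψ X.2.1 Y.2.1 with ⟨h, -⟩ | h <;> linarith
  have E_comm : ∀ (ψ' : Fin (m+1) → ℝ) (X Y : Cfg R m), D ψ' X.1 Y.1 = D ψ' Y.1 X.1 :=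
    fun ψ' X Y => D_comm ψ' _ _
  intro X Y
  by_cases hX : Ok R (sw a ∘ X.1)
  · by_cases hY : Ok R (sw a ∘ Y.1)
    · have e1 : E a g X = (g X + g ⟨sw a ∘ X.1, hX⟩) / 2 := by unfold E; rw [tau_of_ok hX]
      have e2 : E a g Y = (g Y + g ⟨sw a ∘ Y.1, hY⟩) / 2 := by unfold E; rw [tau_of_ok hY]
      rw [e1, e2]
      rcases lemma_F a hψ X.2.1 Y.2.1 with ⟨h, -⟩ | h
      · have h1 := hg X Y
        have h2 := hg ⟨sw a ∘ X.1, hX⟩ ⟨sw a ∘ Y.1, hY⟩
        rw [abs_le] at h1 h2 ⊢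
        simp only at h2
        constructor <;> linarith [h1.1, h1.2, h2.1, h2.2]
      · have h1 := hg X ⟨sw a ∘ Y.1, hY⟩
        have h2 := hg ⟨sw a ∘ X.1, hX⟩ Y
        rw [abs_le] at h1 h2 ⊢
        simp only at h1 h2
        constructor <;> linarith [h1.1, h1.2, h2.1, h2.2]
    · rw [abs_sub_comm, E_comm]
      exact free_blocked Y X hY hX
  · by_cases hY : Ok R (sw a ∘ Y.1)
    · exact free_blocked X Y hX hY
    · have e1 : E a g X = g X := by unfold E; rw [tau_of_not_ok hX]; ring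
      have e2 : E a g Y = g Y := by unfold E; rw [tau_of_not_ok hY]; ring
      rw [e1, e2]
      have h1 := hg X Y
      obtain ⟨i, j, hR, hi, hj⟩ := blocked hX
      obtain ⟨k, l, hR', hk, hl⟩ := blocked hY
      have r1 : D ψ X.1 Y.1 ≤ D ψ (sw a ∘ X.1) Y.1 :=
        lemma_R a hψ X.2.1 hi hj (Y.2.2 i j hR).le
      rcases lemma_F a hψ X.2.1 Y.2.1 with ⟨h, hH⟩ | h
      · -- option 1
        by_cases hsame : i = k ∧ j = l
        · obtain ⟨rfl, rfl⟩ := hsame
          have : D ψ X.1 Y.1 = D ψ (sw a ∘ X.1) (sw a ∘ Y.1) := by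
            unfold D
            refine Finset.sum_congr rfl fun t _ => ?_
            simp only [Function.comp]
            by_cases h1 : t = i
            · subst h1
              rw [hi, hk]; simp
            · by_cases h2 : t = j
              · subst h2
                rw [hj, hl]; simp
              · rw [sw_other a (t := X.1 t) (fun h => h1 (X.2.1 (h.trans hi.symm)))
                  (fun h => h2 (X.2.1 (h.trans hj.symm))),
                  sw_other a (t := Y.1 t) (fun h => h1 (Y.2.1 (h.trans hk.symm)))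
                  (fun h => h2 (Y.2.1 (h.trans hl.symm)))]
          linarith
        · have hkl : (sw a ∘ X.1) k ≤ (sw a ∘ X.1) l := by
            refine (sw_lt a (X.2.2 k l hR') ?_).le
            rintro ⟨h1, h2⟩
            exact hsame ⟨X.2.1 (hi.trans h1.symm), X.2.1 (hj.trans h2.symm)⟩
          have r2 : D ψ Y.1 (sw a ∘ X.1) ≤ D ψ (sw a ∘ Y.1) (sw a ∘ X.1) :=
            lemma_R a hψ Y.2.1 hk hl hkl
          rw [D_comm, D_comm ψ (sw a ∘ Y.1)] at r2
          linarith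
      · have r2 : D ψ Y.1 X.1 ≤ D ψ (sw a ∘ Y.1) X.1 :=
          lemma_R a hψ Y.2.1 hk hl (X.2.2 k l hR').le
        rw [D_comm, D_comm ψ (sw a ∘ Y.1)] at r2
        linarith

end Pool.Agent.K6.H24.OP
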