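import Pool.Agent.K6.H24.OP.A2

/-!
# From the contraction to the spectral gap
-/

namespace Pool.Agent.K6.H24.OP

open Finset

set_option linter.unusedSectionVars false

variable {ι : Type*} [Fintype ι] [DecidableEq ι] {m : ℕ} {R : ι → ι → Prop}

/-- The one-label operator. -/
noncomputable def pp (w : Fin m → ℝ) (ψ : Fin (m+1) → ℝ) : Fin (m+1) → ℝ :=
  fun t => ψ t + ∑ a, w a * (ea a ψ t - ψ t)

/-- The averaging operator on functions of the configuration. -/
noncomputable def AA (w : Fin m → ℝ) (g : Cfg R m → ℝ) : Cfg R m → ℝ :=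
  fun x => g x + ∑ a, w a * (E a g x - g x)

lemma pp_eq (w : Fin m → ℝ) (ψ : Fin (m+1) → ℝ) (t : Fin (m+1)) :
    pp w ψ t = (1 - ∑ a, w a) * ψ t + ∑ a, w a * ea a ψ t := by
  unfold pp
  simp only [mul_sub, Finset.sum_sub_distrib, sub_mul, one_mul, Finset.sum_mul]
  ring

lemma AA_eq (w : Fin m → ℝ) (g : Cfg R m → ℝ) (x : Cfg R m) :
    AA w g x = (1 - ∑ a, w a) * g x + ∑ a, w a * E a g x := by
  unfold AA
  simp only [mul_sub, Finset.sum_sub_distrib, sub_mul, one_mul, Finset.sum_mul]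
  ring

lemma D_pp (w : Fin m → ℝ) (ψ : Fin (m+1) → ℝ) (x y : ι → Fin (m+1)) :
    D (pp w ψ) x y = (1 - ∑ a, w a) * D ψ x y + ∑ a, w a * D (ea a ψ) x y := by
  unfold D
  simp only [pp_eq]
  have : ∀ i, (1 - ∑ a, w a) * ψ (max (x i) (y i)) + ∑ a, w a * ea a ψ (max (x i) (y i)) -
        ((1 - ∑ a, w a) * ψ (min (x i) (y i)) + ∑ a, w a * ea a ψ (min (x i) (y i)))
      = (1 - ∑ a, w a) * (ψ (max (x i) (y i)) - ψ (min (x i) (y i)))
        + ∑ a, w a * (ea a ψ (max (x i) (y i)) - ea a ψ (min (x i) (y i))) := by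
    intro i
    simp only [mul_sub, Finset.sum_sub_distrib]
    ring
  simp only [this]
  rw [Finset.sum_add_distrib, ← Finset.mul_sum, Finset.sum_comm]
  congr 1
  refine Finset.sum_congr rfl fun a _ => ?_
  rw [Finset.mul_sum]

lemma pp_mono {w : Fin m → ℝ} (hw : ∀ a, 0 ≤ w a) (hw1 : ∑ a, w a ≤ 1)
    {ψ : Fin (m+1) → ℝ} (hψ : Monotone ψ) : Monotone (pp w ψ) := by
  intro s t hst
  rw [pp_eq, pp_eq]
  refine add_le_add (mul_le_mul_of_nonneg_left (hψ hst) (by linarith)) ?_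
  exact Finset.sum_le_sum fun a _ => mul_le_mul_of_nonneg_left (ea_mono a hψ hst) (hw a)

lemma lip_AA {w : Fin m → ℝ} (hw : ∀ a, 0 ≤ w a) (hw1 : ∑ a, w a ≤ 1)
    {ψ : Fin (m+1) → ℝ} (hψ : Monotone ψ) {g : Cfg R m → ℝ} (hg : Lip ψ g) :
    Lip (pp w ψ) (AA w g) := by
  intro x y
  rw [AA_eq, AA_eq, D_pp]
  have e : (1 - ∑ a, w a) * g x + ∑ a, w a * E a g x
      - ((1 - ∑ a, w a) * g y + ∑ a, w a * E a g y)
      = (1 - ∑ a, w a) * (g x - g y) + ∑ a, w a * (E a g x - E a g y) := by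
    simp only [mul_sub, Finset.sum_sub_distrib]
    ring
  rw [e]
  refine (abs_add_le _ _).trans (add_le_add ?_ ?_)
  · rw [abs_mul, abs_of_nonneg (by linarith : (0:ℝ) ≤ 1 - ∑ a, w a)]
    exact mul_le_mul_of_nonneg_left (hg x y) (by linarith)
  · refine (Finset.abs_sum_le_sum_abs _ _).trans (Finset.sum_le_sum fun a _ => ?_)
    rw [abs_mul, abs_of_nonneg (hw a)]
    exact mul_le_mul_of_nonneg_left (lip_E a hψ hg x y) (hw a)

lemma iter_props {w : Fin m → ℝ} (hw : ∀ a, 0 ≤ w a) (hw1 : ∑ a, w a ≤ 1)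
    {ψ : Fin (m+1) → ℝ} (hψ : Monotone ψ) {g : Cfg R m → ℝ} (hg : Lip ψ g) (k : ℕ) :
    Monotone ((pp w)^[k] ψ) ∧ Lip ((pp w)^[k] ψ) ((AA w)^[k] g) := by
  induction k with
  | zero => exact ⟨hψ, hg⟩
  | succ k ih =>
    rw [Function.iterate_succ_apply', Function.iterate_succ_apply']
    exact ⟨pp_mono hw hw1 ih.1, lip_AA hw hw1 ih.1 ih.2⟩

/-- `tau a` as a permutation. -/
noncomputable def tauP (a : Fin m) : Equiv.Perm (Cfg R m) :=
  Function.Involutive.toPerm (tau a) (tau_tau a)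

lemma sum_tau (a : Fin m) (g : Cfg R m → ℝ) : ∑ x, g (tau a x) = ∑ x, g x :=
  Equiv.sum_comp (tauP a) g

lemma E_symm (a : Fin m) (f g : Cfg R m → ℝ) :
    ∑ x, E a f x * g x = ∑ x, f x * E a g x := by
  have h : ∑ x, f (tau a x) * g x = ∑ x, f x * g (tau a x) := by
    rw [← sum_tau a (fun x => f (tau a x) * g x)]
    refine Finset.sum_congr rfl fun x _ => ?_
    simp only [tau_tau]
  have e1 : ∑ x, E a f x * g x = (∑ x, f x * g x) / 2 + (∑ x, f (tau a x) * g x) / 2 := by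
    rw [← add_div, ← Finset.sum_add_distrib, Finset.sum_div]
    refine Finset.sum_congr rfl fun x _ => ?_
    unfold E; ring
  have e2 : ∑ x, f x * E a g x = (∑ x, f x * g x) / 2 + (∑ x, f x * g (tau a x)) / 2 := by
    rw [← add_div, ← Finset.sum_add_distrib, Finset.sum_div]
    refine Finset.sum_congr rfl fun x _ => ?_
    unfold E; ring
  rw [e1, e2, h]

lemma AA_symm (w : Fin m → ℝ) (f g : Cfg R m → ℝ) :
    ∑ x, AA w f x * g x = ∑ x, f x * AA w g x := by
  have e1 : ∑ x, AA w f x * g x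
      = (1 - ∑ a, w a) * ∑ x, f x * g x + ∑ a, w a * ∑ x, E a f x * g x := by
    simp only [AA_eq, add_mul, Finset.sum_add_distrib, Finset.sum_mul, Finset.mul_sum]
    congr 1
    · refine Finset.sum_congr rfl fun x _ => ?_
      ring
    · rw [Finset.sum_comm]
      refine Finset.sum_congr rfl fun a _ => Finset.sum_congr rfl fun x _ => ?_
      ring
  have e2 : ∑ x, f x * AA w g x
      = (1 - ∑ a, w a) * ∑ x, f x * g x + ∑ a, w a * ∑ x, f x * E a g x := by
    simp only [AA_eq, mul_add, Finset.sum_add_distrib, Finset.mul_sum]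
    congr 1
    · refine Finset.sum_congr rfl fun x _ => ?_
      ring
    · rw [Finset.sum_comm]
      refine Finset.sum_congr rfl fun a _ => Finset.sum_congr rfl fun x _ => ?_
      ring
  rw [e1, e2]
  congr 1
  refine Finset.sum_congr rfl fun a _ => ?_
  rw [E_symm]

lemma AA_sum (w : Fin m → ℝ) (f : Cfg R m → ℝ) : ∑ x, AA w f x = ∑ x, f x := by
  have h := AA_symm (R := R) w f (fun _ => 1)
  have e : ∀ x : Cfg R m, AA w (fun _ => (1:ℝ)) x = 1 := by
    intro x
    unfold AA E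
    simp
  simp only [mul_one, e] at h
  exact h

lemma iter_sum (w : Fin m → ℝ) (f : Cfg R m → ℝ) (k : ℕ) :
    ∑ x, (AA w)^[k] f x = ∑ x, f x := by
  induction k with
  | zero => rfl
  | succ k ih => rw [Function.iterate_succ_apply', AA_sum, ih]

/-- A log-convex sequence below `K q^k` has first ratio at most `q`. -/
lemma logconvex_ratio {N : ℕ → ℝ} {K q : ℝ} (hN : ∀ k, 0 ≤ N k) (hq : 0 ≤ q)
    (hlc : ∀ k, N (k+1) ^ 2 ≤ N k * N (k+2)) (hK : ∀ k, N k ≤ K * q ^ k) :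
    N 1 ≤ q * N 0 := by
  by_contra hcon
  push Not at hcon
  have hN1 : 0 < N 1 := lt_of_le_of_lt (mul_nonneg hq (hN 0)) hcon
  have hN0 : 0 < N 0 := by
    rcases (hN 0).eq_or_lt with h | h
    · have := hlc 0
      rw [← h] at this
      simp only [zero_add, zero_mul] at this
      nlinarith [sq_nonneg (N 1)]
    · exact h
  set r := N 1 / N 0 with hr
  have hr0 : 0 < r := div_pos hN1 hN0
  have hqr : q < r := by rw [hr, lt_div_iff₀ hN0]; exact hcon
  have hstep : ∀ k, 0 < N k ∧ r * N k ≤ N (k+1) := by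
    intro k
    induction k with
    | zero =>
      refine ⟨hN0, ?_⟩
      rw [hr, div_mul_cancel₀ _ hN0.ne']
    | succ k ih =>
      have hk1 : 0 < N (k+1) := lt_of_lt_of_le (mul_pos hr0 ih.1) ih.2
      refine ⟨hk1, ?_⟩
      have h1 := hlc k
      have h2 : r * N k * N (k+1) ≤ N (k+1) ^ 2 := by
        rw [sq]; exact mul_le_mul_of_nonneg_right ih.2 hk1.le
      have h3 : N k * (r * N (k+1)) ≤ N k * N (k+2) := by nlinarith
      exact le_of_mul_le_mul_left h3 ih.1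
  have hlow : ∀ k, r ^ k * N 0 ≤ N k := by
    intro k
    induction k with
    | zero => simp
    | succ k ih =>
      calc r ^ (k+1) * N 0 = r * (r ^ k * N 0) := by ring
        _ ≤ r * N k := mul_le_mul_of_nonneg_left ih hr0.le
        _ ≤ N (k+1) := (hstep k).2
  have hle : ∀ k : ℕ, N 0 ≤ K * (q / r) ^ k := by
    intro k
    have := (hlow k).trans (hK k)
    rw [div_pow]
    have hrk : 0 < r ^ k := pow_pos hr0 k
    rw [← mul_div_assoc, le_div_iff₀ hrk]
    linarith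
  have hlim : Filter.Tendsto (fun k : ℕ => K * (q / r) ^ k) Filter.atTop (nhds (K * 0)) := by
    refine Filter.Tendsto.const_mul _ (tendsto_pow_atTop_nhds_zero_of_lt_one (by positivity) ?_)
    rw [div_lt_one hr0]; exact hqr
  have := ge_of_tendsto' hlim hle
  linarith

/-- Scaling. -/
lemma pp_smul (w : Fin m → ℝ) (K : ℝ) (ψ : Fin (m+1) → ℝ) :
    pp w (fun t => K * ψ t) = fun t => K * pp w ψ t := by
  funext t
  unfold pp ea
  rw [mul_add, Finset.mul_sum]
  congr 1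
  refine Finset.sum_congr rfl fun a _ => ?_
  ring

lemma iter_smul (w : Fin m → ℝ) (K : ℝ) (ψ : Fin (m+1) → ℝ) (k : ℕ) :
    (pp w)^[k] (fun t => K * ψ t) = fun t => K * (pp w)^[k] ψ t := by
  induction k with
  | zero => rfl
  | succ k ih => rw [Function.iterate_succ_apply', ih, pp_smul, Function.iterate_succ_apply']

/-- A strictly monotone `ψ` makes every function Lipschitz after scaling. -/
lemma exists_lip {ψ : Fin (m+1) → ℝ} (hψ : StrictMono ψ) (f : Cfg R m → ℝ) :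
    ∃ K : ℝ, 0 ≤ K ∧ Lip (fun t => K * ψ t) f := by
  have hDpos : ∀ x y : Cfg R m, x ≠ y → 0 < D ψ x.1 y.1 := by
    intro x y hxy
    rw [D_eq hψ.monotone]
    have : ∃ i, x.1 i ≠ y.1 i := by
      by_contra hc
      push Not at hc
      exact hxy (Subtype.ext (funext hc))
    obtain ⟨i, hi⟩ := this
    refine Finset.sum_pos' (fun j _ => abs_nonneg _) ⟨i, Finset.mem_univ i, ?_⟩
    rw [abs_pos, sub_ne_zero]
    exact fun h => hi (hψ.injective h)
  have hnn : ∀ x y : Cfg R m, 0 ≤ |f x - f y| / D ψ x.1 y.1 :=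
    fun x y => div_nonneg (abs_nonneg _) (D_nonneg hψ.monotone _ _)
  refine ⟨∑ x : Cfg R m, ∑ y : Cfg R m, |f x - f y| / D ψ x.1 y.1,
    Finset.sum_nonneg fun x _ => Finset.sum_nonneg fun y _ => hnn x y, ?_⟩
  intro x y
  set K := ∑ x : Cfg R m, ∑ y : Cfg R m, |f x - f y| / D ψ x.1 y.1 with hK
  have e : D (fun t => K * ψ t) x.1 y.1 = K * D ψ x.1 y.1 := by
    unfold D
    rw [Finset.mul_sum]
    exact Finset.sum_congr rfl fun i _ => by ring
  rw [e]
  by_cases hxy : x = y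
  · subst hxy; simp [D_self]
  · have hD := hDpos x y hxy
    have h1 : |f x - f y| / D ψ x.1 y.1 ≤ K := by
      calc |f x - f y| / D ψ x.1 y.1 ≤ ∑ y' : Cfg R m, |f x - f y'| / D ψ x.1 y'.1 :=
            Finset.single_le_sum (f := fun y' : Cfg R m => |f x - f y'| / D ψ x.1 y'.1)
              (fun y' _ => hnn x y') (Finset.mem_univ y)
        _ ≤ K := Finset.single_le_sum
              (f := fun x' : Cfg R m => ∑ y' : Cfg R m, |f x' - f y'| / D ψ x'.1 y'.1)
              (fun x' _ => Finset.sum_nonneg fun y' _ => hnn x' y') (Finset.mem_univ x)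
    rwa [div_le_iff₀ hD] at h1

lemma D_le_card {ψ : Fin (m+1) → ℝ} (hψ : Monotone ψ) (x y : ι → Fin (m+1)) :
    D ψ x y ≤ Fintype.card ι * (ψ (Fin.last m) - ψ 0) := by
  unfold D
  calc ∑ i, (ψ (max (x i) (y i)) - ψ (min (x i) (y i)))
      ≤ ∑ _i : ι, (ψ (Fin.last m) - ψ 0) :=
        Finset.sum_le_sum fun i _ => sub_le_sub (hψ (Fin.le_last _)) (hψ (Fin.zero_le _))
    _ = Fintype.card ι * (ψ (Fin.last m) - ψ 0) := by simp [mul_sub]

/-- **Abstract gap.** -/
theorem gap_abstract {w : Fin m → ℝ} (hw : ∀ a, 0 ≤ w a) (hw1 : ∑ a, w a ≤ 1)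
    {ψ : Fin (m+1) → ℝ} (hψ : StrictMono ψ) {θ B : ℝ} (hθ : 0 ≤ θ)
    (hB : ∀ k : ℕ, (pp w)^[k] ψ (Fin.last m) - (pp w)^[k] ψ 0 ≤ B * θ ^ k)
    (f : Cfg R m → ℝ) (hf : ∑ x, f x = 0) :
    (1 - θ) * ∑ x, f x ^ 2 ≤ (1 / 4) * ∑ a, w a * ∑ x, (f (tau a x) - f x) ^ 2 := by
  obtain ⟨K, hK0, hKL⟩ := exists_lip (R := R) hψ f
  have hψK : Monotone (fun t => K * ψ t) := fun s t h => mul_le_mul_of_nonneg_left (hψ.monotone h) hK0
  set F : ℕ → Cfg R m → ℝ := fun k => (AA w)^[k] f with hF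
  have hF0 : F 0 = f := rfl
  have hFs : ∀ k, F (k+1) = AA w (F k) := fun k => by
    simp only [hF]; rw [Function.iterate_succ_apply']
  set N : ℕ → ℝ := fun k => ∑ x, (F k x) ^ 2 with hN
  have hNnn : ∀ k, 0 ≤ N k := fun k => Finset.sum_nonneg fun x _ => sq_nonneg _
  have hlc : ∀ k, N (k+1) ^ 2 ≤ N k * N (k+2) := by
    intro k
    have h1 : N (k+1) = ∑ x, F k x * F (k+2) x := by
      simp only [hN]
      have := AA_symm (R := R) w (F k) (F (k+1))
      rw [← hFs, ← hFs] at this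
      rw [← this]
      exact Finset.sum_congr rfl fun x _ => by ring
    rw [h1]
    exact Finset.sum_mul_sq_le_sq_mul_sq _ _ _
  set n : ℝ := (Fintype.card ι : ℝ) with hn
  set M : ℝ := n * (K * B) with hM
  have hbd : ∀ k x, |F k x| ≤ M * θ ^ k := by
    intro k x
    obtain ⟨h1, h2⟩ := iter_props (R := R) hw hw1 hψK hKL k
    have h3 : ∀ y, |F k x - F k y| ≤ M * θ ^ k := by
      intro y
      refine (h2 x y).trans ((D_le_card h1 _ _).trans ?_)
      rw [iter_smul]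
      have := hB k
      have h4 : K * ((pp w)^[k] ψ (Fin.last m) - (pp w)^[k] ψ 0) ≤ K * (B * θ ^ k) :=
        mul_le_mul_of_nonneg_left this hK0
      calc (Fintype.card ι : ℝ) * (K * (pp w)^[k] ψ (Fin.last m) - K * (pp w)^[k] ψ 0)
          = n * (K * ((pp w)^[k] ψ (Fin.last m) - (pp w)^[k] ψ 0)) := by rw [hn]; ring
        _ ≤ n * (K * (B * θ ^ k)) := mul_le_mul_of_nonneg_left h4 (by rw [hn]; positivity)
        _ = M * θ ^ k := by rw [hM]; ring
    have hs : ∑ y, F k y = 0 := by rw [← hf]; exact iter_sum w f k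
    have hcard : 0 < (Fintype.card (Cfg R m) : ℝ) := by
      have : 0 < Fintype.card (Cfg R m) := Fintype.card_pos_iff.2 ⟨x⟩
      exact_mod_cast this
    have h5 : (Fintype.card (Cfg R m) : ℝ) * F k x = ∑ y, (F k x - F k y) := by
      rw [Finset.sum_sub_distrib, hs]; simp
    have h6 : |(Fintype.card (Cfg R m) : ℝ) * F k x| ≤ Fintype.card (Cfg R m) * (M * θ ^ k) := by
      rw [h5]
      refine (Finset.abs_sum_le_sum_abs _ _).trans ?_
      calc ∑ y, |F k x - F k y| ≤ ∑ _y : Cfg R m, M * θ ^ k := Finset.sum_le_sum fun y _ => h3 y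
        _ = Fintype.card (Cfg R m) * (M * θ ^ k) := by simp
    rw [abs_mul, abs_of_pos hcard] at h6
    exact le_of_mul_le_mul_left h6 hcard
  have hNk : ∀ k, N k ≤ (Fintype.card (Cfg R m) * M ^ 2) * (θ ^ 2) ^ k := by
    intro k
    calc N k ≤ ∑ _x : Cfg R m, (M * θ ^ k) ^ 2 := by
          refine Finset.sum_le_sum fun x _ => ?_
          rw [← sq_abs]
          exact pow_le_pow_left₀ (abs_nonneg _) (hbd k x) 2
      _ = (Fintype.card (Cfg R m) * M ^ 2) * (θ ^ 2) ^ k := by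
          simp only [Finset.sum_const, Finset.card_univ, nsmul_eq_mul]
          ring
  have hratio : N 1 ≤ θ ^ 2 * N 0 := logconvex_ratio hNnn (sq_nonneg θ) hlc hNk
  have hCS : (∑ x, f x * F 1 x) ^ 2 ≤ N 0 * N 1 := Finset.sum_mul_sq_le_sq_mul_sq _ _ _
  have hin : ∑ x, f x * F 1 x ≤ θ * N 0 := by
    have h7 : (∑ x, f x * F 1 x) ^ 2 ≤ (θ * N 0) ^ 2 := by
      calc _ ≤ N 0 * N 1 := hCS
        _ ≤ N 0 * (θ ^ 2 * N 0) := mul_le_mul_of_nonneg_left hratio (hNnn 0)
        _ = (θ * N 0) ^ 2 := by ring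
    exact (abs_le_of_sq_le_sq' h7 (mul_nonneg hθ (hNnn 0))).2
  have hfin : (1 / 4) * ∑ a, w a * ∑ x, (f (tau a x) - f x) ^ 2 = N 0 - ∑ x, f x * F 1 x := by
    have e1 : F 1 = AA w f := hFs 0
    rw [e1]
    have e2 : ∑ x, f x * AA w f x = N 0 + ∑ a, w a * ∑ x, f x * (E a f x - f x) := by
      simp only [AA, mul_add, Finset.sum_add_distrib, Finset.mul_sum, hN, hF0]
      congr 1
      · exact Finset.sum_congr rfl fun x _ => by ring
      · rw [Finset.sum_comm]
        refine Finset.sum_congr rfl fun a _ => Finset.sum_congr rfl fun x _ => ?_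
        ring
    rw [e2]
    have e3 : ∀ a, ∑ x, f x * (E a f x - f x) = -(1 / 4) * ∑ x, (f (tau a x) - f x) ^ 2 := by
      intro a
      have h8 : ∑ x, (f (tau a x)) ^ 2 = ∑ x, (f x) ^ 2 := sum_tau a (fun x => (f x) ^ 2)
      have h9 : ∑ x, (f (tau a x) - f x) ^ 2
          = ∑ x, (f (tau a x)) ^ 2 + ∑ x, (f x) ^ 2 - 2 * ∑ x, f x * f (tau a x) := by
        rw [Finset.mul_sum, ← Finset.sum_add_distrib, ← Finset.sum_sub_distrib]
        exact Finset.sum_congr rfl fun x _ => by ring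
      have h10 : ∑ x, f x * (E a f x - f x)
          = (1 / 2) * (∑ x, f x * f (tau a x) - ∑ x, (f x) ^ 2) := by
        rw [← Finset.sum_sub_distrib, Finset.mul_sum]
        refine Finset.sum_congr rfl fun x _ => ?_
        unfold E; ring
      rw [h10, h9, h8]
      ring
    simp only [e3]
    rw [Finset.mul_sum, sub_add_eq_sub_sub, sub_self, zero_sub, ← Finset.sum_neg_distrib]
    exact Finset.sum_congr rfl fun a _ => by ring
  rw [hfin]
  have hN0 : N 0 = ∑ x, f x ^ 2 := rfl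
  rw [← hN0]
  linarith

end Pool.Agent.K6.H24.OP
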