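import Pool.Agent.K6.H24.OP.A3

/-!
# The gap from a supersolution on the bonds
-/

namespace Pool.Agent.K6.H24.OP

open Finset

set_option linter.unusedSectionVars false

variable {ι : Type*} [Fintype ι] [DecidableEq ι] {m : ℕ} {R : ι → ι → Prop}

/-- Increment of `ψ` over a bond. -/
def inc (ψ : Fin (m+1) → ℝ) (a : Fin m) : ℝ := ψ a.succ - ψ a.castSucc

lemma sum_inc (ψ : Fin (m+1) → ℝ) : ∑ a, inc ψ a = ψ (Fin.last m) - ψ 0 := by
  unfold inc
  rw [Finset.sum_sub_distrib]
  have h1 := Fin.sum_univ_succ ψ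
  have h2 := Fin.sum_univ_castSucc ψ
  linarith

lemma ea_sub_left (a : Fin m) (ψ : Fin (m+1) → ℝ) :
    ea a ψ a.castSucc - ψ a.castSucc = inc ψ a / 2 := by
  rw [ea_left]; unfold inc; ring

lemma ea_sub_right (a : Fin m) (ψ : Fin (m+1) → ℝ) :
    ea a ψ a.succ - ψ a.succ = - inc ψ a / 2 := by
  rw [ea_right]; unfold inc; ring

lemma ea_sub_other (a : Fin m) (ψ : Fin (m+1) → ℝ) {t : Fin (m+1)} (h1 : t ≠ a.castSucc)
    (h2 : t ≠ a.succ) : ea a ψ t - ψ t = 0 := by
  rw [ea_other a ψ h1 h2]; ring

lemma inc_pp (w : Fin m → ℝ) (ψ : Fin (m+1) → ℝ) (a : Fin m) :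
    inc (pp w ψ) a = (1 - w a) * inc ψ a
      + (∑ b : Fin m, if b.val = a.val + 1 then w b * inc ψ b else 0) / 2
      + (∑ b : Fin m, if b.val + 1 = a.val then w b * inc ψ b else 0) / 2 := by
  have h : inc (pp w ψ) a = inc ψ a
      + ∑ b, w b * ((ea b ψ a.succ - ψ a.succ) - (ea b ψ a.castSucc - ψ a.castSucc)) := by
    unfold inc pp
    simp only [mul_sub, Finset.sum_sub_distrib]
    ring
  have hb : ∀ b : Fin m, w b * ((ea b ψ a.succ - ψ a.succ) - (ea b ψ a.castSucc - ψ a.castSucc))
      = (if b = a then - (w a * inc ψ a) else 0)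
        + (if b.val = a.val + 1 then w b * inc ψ b else 0) / 2
        + (if b.val + 1 = a.val then w b * inc ψ b else 0) / 2 := by
    intro b
    by_cases h1 : b = a
    · subst h1
      rw [ea_sub_left, ea_sub_right]
      simp
      ring
    · have h1' : b.val ≠ a.val := fun h => h1 (Fin.ext h)
      by_cases h2 : b.val = a.val + 1
      · have e1 : a.succ = b.castSucc := by
          apply Fin.ext; simp [h2]
        have e2 : a.castSucc ≠ b.castSucc := by
          intro h; apply h1; apply Fin.ext; have := congrArg Fin.val h; simp at this; omega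
        have e3 : a.castSucc ≠ b.succ := by
          intro h; have := congrArg Fin.val h; simp at this; omega
        rw [ea_sub_other b ψ e2 e3, e1, ea_sub_left]
        have h3 : ¬ (b.val + 1 = a.val) := by omega
        rw [if_neg h1, if_pos h2, if_neg h3]
        ring
      · by_cases h3 : b.val + 1 = a.val
        · have e1 : a.castSucc = b.succ := by
            apply Fin.ext; simp [h3]
          have e2 : a.succ ≠ b.castSucc := by
            intro h; have := congrArg Fin.val h; simp at this; omega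
          have e3 : a.succ ≠ b.succ := by
            intro h; have := congrArg Fin.val h; simp at this; omega
          rw [ea_sub_other b ψ e2 e3, e1, ea_sub_right]
          rw [if_neg h1, if_neg h2, if_pos h3]
          ring
        · have e1 : a.castSucc ≠ b.castSucc := by
            intro h; have := congrArg Fin.val h; simp at this; omega
          have e2 : a.castSucc ≠ b.succ := by
            intro h; have := congrArg Fin.val h; simp at this; omega
          have e3 : a.succ ≠ b.castSucc := by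
            intro h; have := congrArg Fin.val h; simp at this; omega
          have e4 : a.succ ≠ b.succ := by
            intro h; have := congrArg Fin.val h; simp at this; omega
          rw [ea_sub_other b ψ e1 e2, ea_sub_other b ψ e3 e4]
          rw [if_neg h1, if_neg h2, if_neg h3]
          ring
  rw [h]
  simp only [hb, Finset.sum_add_distrib, ← Finset.sum_div]
  rw [Finset.sum_ite_eq' Finset.univ a]
  simp only [Finset.mem_univ, if_true]
  ring

/-- One step of the decay of the increments. -/
lemma inc_step {r : Fin m → ℝ} (hr : ∀ a, 0 < r a) {V : ℕ → ℝ} (hV : ∀ k, 0 ≤ V k)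
    {lam κ : ℝ} (hκ : 0 ≤ κ) (hκr : ∀ a, κ * r a ≤ 1)
    (hsup : ∀ a : Fin m, V a.val + V (a.val + 2) - 2 * V (a.val + 1)
      ≤ - 2 * lam * (V (a.val + 1) / r a))
    {C : ℝ} (hC : 0 ≤ C) {ψ : Fin (m+1) → ℝ}
    (hψ : ∀ a, inc ψ a ≤ C * (V (a.val + 1) / r a)) (a : Fin m) :
    inc (pp (fun a => κ * r a) ψ) a ≤ C * (1 - κ * lam) * (V (a.val + 1) / r a) := by
  have hw : ∀ b, κ * r b * inc ψ b ≤ κ * C * V (b.val + 1) := by
    intro b
    calc κ * r b * inc ψ b ≤ κ * r b * (C * (V (b.val + 1) / r b)) :=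
          mul_le_mul_of_nonneg_left (hψ b) (mul_nonneg hκ (hr b).le)
      _ = κ * C * V (b.val + 1) := by
          field_simp [(hr b).ne']
  rw [inc_pp]
  have s1 : (∑ b : Fin m, if b.val = a.val + 1 then κ * r b * inc ψ b else 0)
      ≤ κ * C * V (a.val + 2) := by
    by_cases h : a.val + 1 < m
    · rw [Finset.sum_eq_single (⟨a.val + 1, h⟩ : Fin m)]
      · simp only [if_true]
        exact hw ⟨a.val + 1, h⟩
      · intro b _ hb
        rw [if_neg]
        intro hc; exact hb (Fin.ext hc)
      · intro hc; exact absurd (Finset.mem_univ _) hc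
    · rw [Finset.sum_eq_zero]
      · have := hV (a.val + 2); positivity
      · intro b _
        rw [if_neg]
        have := b.2; omega
  have s2 : (∑ b : Fin m, if b.val + 1 = a.val then κ * r b * inc ψ b else 0)
      ≤ κ * C * V a.val := by
    by_cases h : 1 ≤ a.val
    · have ha := a.2
      rw [Finset.sum_eq_single (⟨a.val - 1, by omega⟩ : Fin m)]
      · rw [if_pos (by simp only; omega)]
        have := hw ⟨a.val - 1, by omega⟩
        simp only at this
        rwa [Nat.sub_add_cancel h] at this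
      · intro b _ hb
        rw [if_neg]
        intro hc; exact hb (Fin.ext (by simp only; omega))
      · intro hc; exact absurd (Finset.mem_univ _) hc
    · rw [Finset.sum_eq_zero]
      · have := hV a.val; positivity
      · intro b _
        rw [if_neg]
        omega
  have s3 : (1 - κ * r a) * inc ψ a ≤ (1 - κ * r a) * (C * (V (a.val + 1) / r a)) :=
    mul_le_mul_of_nonneg_left (hψ a) (by linarith [hκr a])
  have s4 := mul_le_mul_of_nonneg_left (hsup a) (mul_nonneg hκ hC)
  have e : κ * r a * (C * (V (a.val + 1) / r a)) = κ * C * V (a.val + 1) := by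
    field_simp [(hr a).ne']
  nlinarith [s1, s2, s3, s4, e]

/-- **The gap from a supersolution.** -/
theorem gap_V {r : Fin m → ℝ} (hr : ∀ a, 0 < r a) {V : ℕ → ℝ} (hV : ∀ k, 0 ≤ V k)
    (hVpos : ∀ a : Fin m, 0 < V (a.val + 1)) {lam : ℝ} (hlam : 0 ≤ lam)
    (hsup : ∀ a : Fin m, V a.val + V (a.val + 2) - 2 * V (a.val + 1)
      ≤ - 2 * lam * (V (a.val + 1) / r a))
    (f : Cfg R m → ℝ) (hf : ∑ x, f x = 0) :
    lam * ∑ x, f x ^ 2 ≤ (1 / 4) * ∑ a, r a * ∑ x, (f (tau a x) - f x) ^ 2 := by
  set κ : ℝ := 1 / (1 + lam + ∑ a, r a) with hκ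
  have hS : 0 ≤ ∑ a, r a := Finset.sum_nonneg fun a _ => (hr a).le
  have hden : 0 < 1 + lam + ∑ a, r a := by linarith
  have hκ0 : 0 < κ := by rw [hκ]; positivity
  have hκ1 : κ * (1 + lam + ∑ a, r a) = 1 := by
    rw [hκ]; field_simp
  have hκS : κ * ∑ a, r a ≤ 1 := by nlinarith
  have hκl : κ * lam ≤ 1 := by nlinarith
  have hκr : ∀ a, κ * r a ≤ 1 := by
    intro a
    have : r a ≤ ∑ a, r a := Finset.single_le_sum (fun b _ => (hr b).le) (Finset.mem_univ a)
    nlinarith
  set w : Fin m → ℝ := fun a => κ * r a with hw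
  have hw0 : ∀ a, 0 ≤ w a := fun a => mul_nonneg hκ0.le (hr a).le
  have hw1 : ∑ a, w a ≤ 1 := by rw [hw, ← Finset.mul_sum]; exact hκS
  set ψ : Fin (m+1) → ℝ := fun t => ∑ a : Fin m, if a.val < t.val then V (a.val + 1) / r a else 0
    with hψ
  have hincψ : ∀ a, inc ψ a = V (a.val + 1) / r a := by
    intro a
    unfold inc
    rw [hψ]
    simp only
    rw [← Finset.sum_sub_distrib, Finset.sum_eq_single a]
    · simp
    · intro b _ hb
      have hb' : b.val ≠ a.val := fun h => hb (Fin.ext h)
      simp only [Fin.val_succ, Fin.val_castSucc]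
      by_cases h : b.val < a.val
      · rw [if_pos (by omega), if_pos h]; ring
      · rw [if_neg (by omega), if_neg h]; ring
    · intro hc; exact absurd (Finset.mem_univ _) hc
  have hmono : StrictMono ψ := by
    rw [Fin.strictMono_iff_lt_succ]
    intro a
    have := hincψ a
    unfold inc at this
    have h2 : 0 < V (a.val + 1) / r a := div_pos (hVpos a) (hr a)
    linarith
  have hθ : 0 ≤ 1 - κ * lam := by linarith
  have hdec : ∀ k : ℕ, ∀ a, inc ((pp w)^[k] ψ) a ≤ (1 - κ * lam) ^ k * (V (a.val + 1) / r a) := by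
    intro k
    induction k with
    | zero => intro a; simp [hincψ]
    | succ k ih =>
      intro a
      rw [Function.iterate_succ_apply']
      have := inc_step hr hV hκ0.le hκr hsup (pow_nonneg hθ k) ih a
      rw [pow_succ]
      exact this
  have hB : ∀ k : ℕ, (pp w)^[k] ψ (Fin.last m) - (pp w)^[k] ψ 0
      ≤ (∑ a : Fin m, V (a.val + 1) / r a) * (1 - κ * lam) ^ k := by
    intro k
    rw [← sum_inc, Finset.sum_mul]
    refine Finset.sum_le_sum fun a _ => ?_
    rw [mul_comm]
    exact hdec k a
  have key := gap_abstract (R := R) hw0 hw1 hmono hθ hB f hf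
  have e1 : (1 / 4) * ∑ a, w a * ∑ x, (f (tau a x) - f x) ^ 2
      = κ * ((1 / 4) * ∑ a, r a * ∑ x, (f (tau a x) - f x) ^ 2) := by
    rw [Finset.mul_sum, Finset.mul_sum, Finset.mul_sum]
    refine Finset.sum_congr rfl fun a _ => ?_
    rw [hw]; ring
  rw [e1] at key
  have e2 : (1 - (1 - κ * lam)) * ∑ x, f x ^ 2 = κ * (lam * ∑ x, f x ^ 2) := by ring
  rw [e2] at key
  exact le_of_mul_le_mul_left key hκ0

end Pool.Agent.K6.H24.OP
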