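import Pool.Agent.K6.H24.OP.A4

/-!
# Two instances of the gap
-/

namespace Pool.Agent.K6.H24.OP

open Finset

set_option linter.unusedSectionVars false

variable {ι : Type*} [Fintype ι] [DecidableEq ι] {m : ℕ} {R : ι → ι → Prop}

/-- The gap with constant conductances. -/
theorem gap_uniform {ρ : ℝ} (hρ : 0 < ρ) (f : Cfg R m → ℝ) (hf : ∑ x, f x = 0) :
    (ρ * (1 - Real.cos (Real.pi / (m + 1)))) * ∑ x, f x ^ 2
      ≤ (1 / 4) * ∑ a : Fin m, ρ * ∑ x, (f (tau a x) - f x) ^ 2 := by
  set h : ℝ := Real.pi / (m + 1) with hh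
  have hm : (0:ℝ) < m + 1 := by positivity
  have hpi := Real.pi_pos
  set V : ℕ → ℝ := fun k => |Real.sin (k * h)| with hV
  have hVeq : ∀ k : ℕ, k ≤ m + 1 → V k = Real.sin (k * h) := by
    intro k hk
    rw [hV]
    refine abs_of_nonneg (Real.sin_nonneg_of_nonneg_of_le_pi (by positivity) ?_)
    have hk' : (k : ℝ) ≤ m + 1 := by exact_mod_cast hk
    calc (k : ℝ) * h ≤ (m + 1) * h := mul_le_mul_of_nonneg_right hk' (by positivity)
      _ = Real.pi := by rw [hh]; field_simp
  refine gap_V (R := R) (r := fun _ => ρ) (fun _ => hρ) (V := V) (fun k => abs_nonneg _) ?_ ?_ ?_ f hf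
  · intro a
    have ha := a.2
    rw [hVeq _ (by omega)]
    refine Real.sin_pos_of_pos_of_lt_pi (by push_cast; positivity) ?_
    have : ((a.val + 1 : ℕ) : ℝ) < m + 1 := by exact_mod_cast (by omega : a.val + 1 < m + 1)
    calc ((a.val + 1 : ℕ) : ℝ) * h < (m + 1) * h := mul_lt_mul_of_pos_right this (by positivity)
      _ = Real.pi := by rw [hh]; field_simp
  · have := Real.cos_le_one h
    exact mul_nonneg hρ.le (by linarith)
  · intro a
    have ha := a.2
    rw [hVeq _ (by omega), hVeq _ (by omega), hVeq _ (by omega)]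
    have e1 : ((a.val + 2 : ℕ) : ℝ) * h = ((a.val + 1 : ℕ) : ℝ) * h + h := by push_cast; ring
    have e2 : ((a.val : ℕ) : ℝ) * h = ((a.val + 1 : ℕ) : ℝ) * h - h := by push_cast; ring
    rw [e1, e2, Real.sin_add, Real.sin_sub]
    have e3 : -2 * (ρ * (1 - Real.cos h)) * (Real.sin (((a.val + 1 : ℕ) : ℝ) * h) / ρ)
        = -2 * (1 - Real.cos h) * Real.sin (((a.val + 1 : ℕ) : ℝ) * h) := by
      field_simp
    rw [e3]
    linarith

lemma sqrt_ineq {k : ℝ} (hk : 1 ≤ k) :
    √(k - 1) + √(k + 1) - 2 * √k ≤ - (1 / 4) * (√k / k ^ 2) := by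
  set s := √k with hs
  have hs1 : 1 ≤ s := by rw [hs]; exact Real.one_le_sqrt.2 hk
  have hsk : s ^ 2 = k := by rw [hs]; exact Real.sq_sqrt (by linarith)
  have hs0 : 0 < s := by linarith
  set x := √(k - 1) with hx
  set y := √(k + 1) with hy
  have hx0 : 0 ≤ x := Real.sqrt_nonneg _
  have hy0 : 0 ≤ y := Real.sqrt_nonneg _
  have hxk : x ^ 2 = k - 1 := Real.sq_sqrt (by linarith)
  have hyk : y ^ 2 = k + 1 := Real.sq_sqrt (by linarith)
  have hxy : x * y ≤ k - 1 / (2 * k) := by
    have h1 : (x * y) ^ 2 ≤ (k - 1 / (2 * k)) ^ 2 := by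
      rw [mul_pow, hxk, hyk]
      have : (k - 1 / (2 * k)) ^ 2 = k ^ 2 - 1 + 1 / (4 * k ^ 2) := by
        field_simp; ring
      rw [this]
      have : 0 ≤ 1 / (4 * k ^ 2) := by positivity
      nlinarith
    have h2 : 0 ≤ k - 1 / (2 * k) := by
      have : 1 / (2 * k) ≤ 1 := by
        rw [div_le_one (by linarith)]; linarith
      linarith
    exact (abs_le_of_sq_le_sq' h1 h2).2
  have e : √k / k ^ 2 = 1 / s ^ 3 := by
    rw [← hs, ← hsk]; field_simp
  rw [← hs] at e
  rw [e]
  have hR : 0 ≤ 2 * s - 1 / (4 * s ^ 3) := by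
    have : 1 / (4 * s ^ 3) ≤ 1 := by
      rw [div_le_one (by positivity)]
      have : 1 ≤ s ^ 3 := one_le_pow₀ hs1
      linarith
    linarith
  have hsq : (x + y) ^ 2 ≤ (2 * s - 1 / (4 * s ^ 3)) ^ 2 := by
    have h3 : (x + y) ^ 2 = 2 * k + 2 * (x * y) := by nlinarith
    have h4 : (2 * s - 1 / (4 * s ^ 3)) ^ 2 = 4 * s ^ 2 - 1 / s ^ 2 + 1 / (16 * s ^ 6) := by
      field_simp; ring
    rw [h3, h4, hsk]
    have h5 : 0 ≤ 1 / (16 * s ^ 6) := by positivity
    have h6 : 1 / k = 2 * (1 / (2 * k)) := by field_simp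
    linarith
  have := (abs_le_of_sq_le_sq' hsq hR).2
  have e3 : 1 / (4 * s ^ 3) = (1 / 4) * (1 / s ^ 3) := by field_simp
  linarith

/-- The gap with conductances growing away from the ends. -/
theorem gap_cheeger {r : Fin m → ℝ} {c : ℝ} (hc : 0 < c)
    (hr : ∀ a : Fin m, c ^ 2 * (min ((a.val : ℝ) + 1) (m - a.val)) ^ 2 ≤ r a)
    (f : Cfg R m → ℝ) (hf : ∑ x, f x = 0) :
    (c ^ 2 / 8) * ∑ x, f x ^ 2
      ≤ (1 / 4) * ∑ a : Fin m, r a * ∑ x, (f (tau a x) - f x) ^ 2 := by
  have hKpos : ∀ a : Fin m, (1:ℝ) ≤ min ((a.val : ℝ) + 1) (m - a.val) := by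
    intro a
    have h1 : (0:ℝ) ≤ a.val := by positivity
    have h2 : ((a.val + 1 : ℕ) : ℝ) ≤ m := by exact_mod_cast a.2
    push_cast at h2
    exact le_min (by linarith) (by linarith)
  have hrpos : ∀ a, 0 < r a := by
    intro a
    refine lt_of_lt_of_le ?_ (hr a)
    have := hKpos a
    positivity
  set V : ℕ → ℝ := fun k => √(min (k : ℝ) (m + 1 - k)) with hV
  have hVa : ∀ a : Fin m, V (a.val + 1) = √(min ((a.val : ℝ) + 1) (m - a.val)) := by
    intro a
    rw [hV]
    simp only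
    congr 2
    · push_cast; ring
    · push_cast; ring
  refine gap_V (R := R) (r := r) hrpos (V := V) (fun k => Real.sqrt_nonneg _) ?_ (by positivity) ?_ f hf
  · intro a
    rw [hVa]
    exact Real.sqrt_pos.2 (by linarith [hKpos a])
  · intro a
    rw [hVa]
    set K : ℝ := min ((a.val : ℝ) + 1) (m - a.val) with hK
    have hK1 : 1 ≤ K := hKpos a
    have h1 : V a.val + V (a.val + 2) ≤ √(K - 1) + √(K + 1) := by
      rcases le_total ((a.val : ℝ) + 1) (m - a.val) with h | h
      · have hKe : K = (a.val : ℝ) + 1 := by rw [hK, min_eq_left h]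
        refine add_le_add ?_ ?_
        · rw [hV]
          refine Real.sqrt_le_sqrt ?_
          rw [hKe]
          exact (min_le_left _ _).trans (by linarith)
        · rw [hV]
          refine Real.sqrt_le_sqrt ?_
          rw [hKe]
          refine (min_le_left _ _).trans ?_
          push_cast; linarith
      · have hKe : K = m - (a.val : ℝ) := by rw [hK, min_eq_right h]
        rw [add_comm]
        refine add_le_add ?_ ?_
        · rw [hV]
          refine Real.sqrt_le_sqrt ?_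
          rw [hKe]
          refine (min_le_right _ _).trans ?_
          push_cast; linarith
        · rw [hV]
          refine Real.sqrt_le_sqrt ?_
          rw [hKe]
          refine (min_le_right _ _).trans ?_
          linarith
    have h2 := sqrt_ineq hK1
    have h3 : -(1 / 4) * (√K / K ^ 2) ≤ -2 * (c ^ 2 / 8) * (√K / r a) := by
      have h4 : √K / r a ≤ √K / (c ^ 2 * K ^ 2) :=
        div_le_div_of_nonneg_left (Real.sqrt_nonneg _) (by positivity) (hr a)
      have h5 : √K / (c ^ 2 * K ^ 2) = (1 / c ^ 2) * (√K / K ^ 2) := by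
        field_simp
      rw [h5] at h4
      have h6 : (c ^ 2 / 4) * (√K / r a) ≤ (c ^ 2 / 4) * (1 / c ^ 2 * (√K / K ^ 2)) :=
        mul_le_mul_of_nonneg_left h4 (by positivity)
      have h7 : (c ^ 2 / 4) * (1 / c ^ 2 * (√K / K ^ 2)) = (1 / 4) * (√K / K ^ 2) := by
        field_simp
      rw [h7] at h6
      linarith
    linarith

end Pool.Agent.K6.H24.OP
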