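import Pool.Agent.K6.H24.OP.A4

/-!
# The gap of the constrained system is the gap of one particle
-/

namespace Pool.Agent.K6.H24.OP

open Finset

set_option linter.unusedSectionVars false

variable {ι : Type*} [Fintype ι] [DecidableEq ι] {m : ℕ} {R : ι → ι → Prop}

/-- Cauchy-Schwarz for a symmetric positive semidefinite form given by its expansion. -/
lemma cs_of_nonneg {A B C : ℝ} (h : ∀ t : ℝ, 0 ≤ A + 2 * t * B + t ^ 2 * C) : B ^ 2 ≤ A * C := by
  have h2 : ∀ t : ℝ, 0 ≤ C * (t * t) + (2 * B) * t + A := fun t => by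
    have := h t; nlinarith
  have := discrim_le_zero h2
  unfold discrim at this
  nlinarith

lemma ea_sum_mul (a : Fin m) (g h : Fin (m+1) → ℝ) :
    ∑ t, (ea a g t - g t) * h t = - (1 / 2) * (inc g a * inc h a) := by
  have hne : a.castSucc ≠ a.succ := (castSucc_lt_succ' a).ne
  have e1 : ∀ F : Fin (m+1) → ℝ, ∑ k, F k
      = F a.castSucc + F a.succ + ∑ k ∈ (Finset.univ.erase a.castSucc).erase a.succ, F k := by
    intro F
    rw [← Finset.add_sum_erase Finset.univ F (Finset.mem_univ a.castSucc),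
      ← Finset.add_sum_erase (Finset.univ.erase a.castSucc) F
        (Finset.mem_erase.2 ⟨hne.symm, Finset.mem_univ a.succ⟩)]
    ring
  rw [e1]
  have e2 : ∑ k ∈ (Finset.univ.erase a.castSucc).erase a.succ, (ea a g k - g k) * h k = 0 := by
    refine Finset.sum_eq_zero fun k hk => ?_
    have h2 := Finset.ne_of_mem_erase hk
    have h1 := Finset.ne_of_mem_erase (Finset.mem_of_mem_erase hk)
    rw [ea_sub_other a g h1 h2, zero_mul]
  rw [e2, ea_sub_left, ea_sub_right]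
  unfold inc
  ring

lemma pp_form (w : Fin m → ℝ) (g h : Fin (m+1) → ℝ) :
    ∑ t, pp w g t * h t = ∑ t, g t * h t - (1 / 2) * ∑ a, w a * (inc g a * inc h a) := by
  have e : ∑ t, pp w g t * h t
      = ∑ t, g t * h t + ∑ a, w a * ∑ t, (ea a g t - g t) * h t := by
    unfold pp
    simp only [add_mul, Finset.sum_add_distrib, Finset.sum_mul, Finset.mul_sum]
    congr 1
    rw [Finset.sum_comm]
    refine Finset.sum_congr rfl fun a _ => Finset.sum_congr rfl fun t _ => ?_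
    ring
  rw [e]
  simp only [ea_sum_mul]
  rw [Finset.mul_sum, sub_eq_add_neg, ← Finset.sum_neg_distrib]
  congr 1
  refine Finset.sum_congr rfl fun a _ => ?_
  ring

lemma pp_sum (w : Fin m → ℝ) (g : Fin (m+1) → ℝ) : ∑ t, pp w g t = ∑ t, g t := by
  have := pp_form w g (fun _ => 1)
  simpa [inc] using this

lemma inc_sq_le (g : Fin (m+1) → ℝ) (a : Fin m) : (inc g a) ^ 2 ≤ 2 * ∑ t, g t ^ 2 := by
  have hne : a.castSucc ≠ a.succ := (castSucc_lt_succ' a).ne
  have h1 : g a.castSucc ^ 2 + g a.succ ^ 2 ≤ ∑ t, g t ^ 2 := by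
    rw [← Finset.sum_pair (f := fun t => g t ^ 2) hne]
    exact Finset.sum_le_sum_of_subset_of_nonneg (Finset.subset_univ _) fun _ _ _ => sq_nonneg _
  unfold inc
  nlinarith [sq_nonneg (g a.succ + g a.castSucc)]

lemma pp_psd {w : Fin m → ℝ} (hw : ∀ a, 0 ≤ w a) (hw1 : ∑ a, w a ≤ 1)
    (g : Fin (m+1) → ℝ) : 0 ≤ ∑ t, pp w g t * g t := by
  rw [pp_form]
  have h1 : ∑ a, w a * (inc g a * inc g a) ≤ (∑ a, w a) * (2 * ∑ t, g t ^ 2) := by
    rw [Finset.sum_mul]
    refine Finset.sum_le_sum fun a _ => mul_le_mul_of_nonneg_left ?_ (hw a)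
    have := inc_sq_le g a
    nlinarith
  have h2 : 0 ≤ ∑ t, g t ^ 2 := Finset.sum_nonneg fun _ _ => sq_nonneg _
  have h3 : (∑ a, w a) * (2 * ∑ t, g t ^ 2) ≤ 1 * (2 * ∑ t, g t ^ 2) :=
    mul_le_mul_of_nonneg_right hw1 (by positivity)
  have h4 : ∑ t, g t * g t = ∑ t, g t ^ 2 := Finset.sum_congr rfl fun t _ => by ring
  rw [h4]
  linarith

lemma pp_add_smul (w : Fin m → ℝ) (g h : Fin (m+1) → ℝ) (s : ℝ) :
    pp w (fun t => g t + s * h t) = fun t => pp w g t + s * pp w h t := by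
  funext t
  unfold pp ea
  rw [mul_add, Finset.mul_sum, add_add_add_comm, ← Finset.sum_add_distrib]
  congr 1
  refine Finset.sum_congr rfl fun a _ => ?_
  ring

lemma pp_contract {w : Fin m → ℝ} (hw : ∀ a, 0 ≤ w a) (hw1 : ∑ a, w a ≤ 1) {θ : ℝ} (hθ : 0 ≤ θ)
    (h1 : ∀ g : Fin (m+1) → ℝ, ∑ t, g t = 0 → ∑ t, pp w g t * g t ≤ θ * ∑ t, g t ^ 2)
    (g : Fin (m+1) → ℝ) (hg : ∑ t, g t = 0) :
    ∑ t, pp w g t ^ 2 ≤ θ ^ 2 * ∑ t, g t ^ 2 := by
  set x := g
  set y := pp w g with hy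
  have hysum : ∑ t, y t = 0 := by rw [hy, pp_sum, hg]
  have hsymm : ∑ t, pp w x t * y t = ∑ t, pp w y t * x t := by
    rw [pp_form, pp_form]
    congr 1
    · exact Finset.sum_congr rfl fun t _ => by ring
    · congr 1
      exact Finset.sum_congr rfl fun a _ => by ring
  have hcs : (∑ t, pp w x t * y t) ^ 2 ≤ (∑ t, pp w x t * x t) * ∑ t, pp w y t * y t := by
    apply cs_of_nonneg
    intro s
    have h := pp_psd hw hw1 (fun t => x t + s * y t)
    rw [pp_add_smul] at h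
    refine h.trans (le_of_eq ?_)
    have e : ∀ t, (pp w x t + s * pp w y t) * (x t + s * y t)
        = pp w x t * x t + s * (pp w x t * y t) + s * (pp w y t * x t)
          + s ^ 2 * (pp w y t * y t) := fun t => by ring
    simp only [e, Finset.sum_add_distrib, ← Finset.mul_sum]
    rw [← hsymm]
    ring
  have hyy : ∑ t, pp w x t * y t = ∑ t, y t ^ 2 :=
    Finset.sum_congr rfl fun t _ => by rw [hy]; ring
  rw [hyy] at hcs
  have a1 := h1 x hg
  have a2 := h1 y hysum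
  have n1 : 0 ≤ ∑ t, y t ^ 2 := Finset.sum_nonneg fun _ _ => sq_nonneg _
  have n2 : 0 ≤ ∑ t, x t ^ 2 := Finset.sum_nonneg fun _ _ => sq_nonneg _
  have n3 := pp_psd hw hw1 y
  have h5 : (∑ t, y t ^ 2) ^ 2 ≤ (θ * ∑ t, x t ^ 2) * (θ * ∑ t, y t ^ 2) :=
    hcs.trans (mul_le_mul a1 a2 n3 (by positivity))
  rcases n1.eq_or_lt with h | h
  · rw [← h]; positivity
  · have h6 : (∑ t, y t ^ 2) * (∑ t, y t ^ 2) ≤ (∑ t, y t ^ 2) * (θ ^ 2 * ∑ t, x t ^ 2) := by
      nlinarith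
    exact le_of_mul_le_mul_left h6 h

lemma pp_add_const (w : Fin m → ℝ) (g : Fin (m+1) → ℝ) (c : ℝ) :
    pp w (fun t => g t + c) = fun t => pp w g t + c := by
  funext t
  unfold pp ea
  have : ∀ a : Fin m, w a * ((g t + c + (g (sw a t) + c)) / 2 - (g t + c))
      = w a * ((g t + g (sw a t)) / 2 - g t) := fun a => by ring
  simp only [this]
  ring

lemma iter_add_const (w : Fin m → ℝ) (g : Fin (m+1) → ℝ) (c : ℝ) (k : ℕ) :
    (pp w)^[k] (fun t => g t + c) = fun t => (pp w)^[k] g t + c := by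
  induction k with
  | zero => rfl
  | succ k ih => rw [Function.iterate_succ_apply', ih, pp_add_const, Function.iterate_succ_apply']

/-- **The gap of the constrained system is the gap of one particle.** -/
theorem gap_one {r : Fin m → ℝ} (hr : ∀ a, 0 < r a) {lam : ℝ} (hlam : 0 ≤ lam)
    (hone : ∀ g : Fin (m+1) → ℝ, ∑ t, g t = 0 →
      lam * ∑ t, g t ^ 2 ≤ (1 / 2) * ∑ a, r a * (inc g a) ^ 2)
    (f : Cfg R m → ℝ) (hf : ∑ x, f x = 0) :
    lam * ∑ x, f x ^ 2 ≤ (1 / 4) * ∑ a, r a * ∑ x, (f (tau a x) - f x) ^ 2 := by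
  set κ : ℝ := 1 / (1 + lam + ∑ a, r a) with hκ
  have hS : 0 ≤ ∑ a, r a := Finset.sum_nonneg fun a _ => (hr a).le
  have hden : 0 < 1 + lam + ∑ a, r a := by linarith
  have hκ0 : 0 < κ := by rw [hκ]; positivity
  have hκ1 : κ * (1 + lam + ∑ a, r a) = 1 := by
    rw [hκ]; field_simp
  have hκS : κ * ∑ a, r a ≤ 1 := by nlinarith
  have hκl : κ * lam ≤ 1 := by nlinarith
  set w : Fin m → ℝ := fun a => κ * r a with hw
  have hw0 : ∀ a, 0 ≤ w a := fun a => mul_nonneg hκ0.le (hr a).le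
  have hw1 : ∑ a, w a ≤ 1 := by rw [hw, ← Finset.mul_sum]; exact hκS
  have hθ : 0 ≤ 1 - κ * lam := by linarith
  have hform : ∀ g : Fin (m+1) → ℝ, ∑ t, g t = 0 →
      ∑ t, pp w g t * g t ≤ (1 - κ * lam) * ∑ t, g t ^ 2 := by
    intro g hg
    rw [pp_form]
    have h1 := hone g hg
    have h2 : ∑ a, w a * (inc g a * inc g a) = κ * ∑ a, r a * (inc g a) ^ 2 := by
      rw [Finset.mul_sum]
      exact Finset.sum_congr rfl fun a _ => by rw [hw]; ring
    have h4 : ∑ t, g t * g t = ∑ t, g t ^ 2 := Finset.sum_congr rfl fun t _ => by ring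
    rw [h2, h4]
    nlinarith [mul_le_mul_of_nonneg_left h1 hκ0.le]
  have hcon := pp_contract hw0 hw1 hθ hform
  -- a strictly monotone function
  set n : ℝ := (m:ℝ) + 1 with hn
  have hn0 : 0 < n := by positivity
  set c : ℝ := (∑ t : Fin (m+1), (t.val : ℝ)) / n with hc
  set g : Fin (m+1) → ℝ := fun t => (t.val : ℝ) - c with hg
  have hgsum : ∑ t, g t = 0 := by
    rw [hg]
    simp only [Finset.sum_sub_distrib, Finset.sum_const, Finset.card_univ, Fintype.card_fin,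
      nsmul_eq_mul]
    rw [hc, hn]
    push_cast
    field_simp
    ring
  have hmono : StrictMono g := by
    intro s t hst
    rw [hg]
    have : ((s.val : ℕ) : ℝ) < t.val := by exact_mod_cast hst
    simp only
    linarith
  have hiter : ∀ k : ℕ, ∑ t, (pp w)^[k] g t = 0 ∧
      ∑ t, (pp w)^[k] g t ^ 2 ≤ ((1 - κ * lam) ^ k) ^ 2 * ∑ t, g t ^ 2 := by
    intro k
    induction k with
    | zero => simp [hgsum]
    | succ k ih =>
      rw [Function.iterate_succ_apply']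
      refine ⟨by rw [pp_sum]; exact ih.1, ?_⟩
      refine (hcon _ ih.1).trans ?_
      calc (1 - κ * lam) ^ 2 * ∑ t, (pp w)^[k] g t ^ 2
          ≤ (1 - κ * lam) ^ 2 * (((1 - κ * lam) ^ k) ^ 2 * ∑ t, g t ^ 2) :=
            mul_le_mul_of_nonneg_left ih.2 (sq_nonneg _)
        _ = _ := by ring
  set G : ℝ := √(∑ t, g t ^ 2) with hG
  have hpt : ∀ (k : ℕ) (t : Fin (m+1)), |(pp w)^[k] g t| ≤ (1 - κ * lam) ^ k * G := by
    intro k t
    have h1 : ((pp w)^[k] g t) ^ 2 ≤ ∑ t, (pp w)^[k] g t ^ 2 :=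
      Finset.single_le_sum (f := fun t => (pp w)^[k] g t ^ 2) (fun _ _ => sq_nonneg _)
        (Finset.mem_univ t)
    have h2 : ((pp w)^[k] g t) ^ 2 ≤ ((1 - κ * lam) ^ k * G) ^ 2 := by
      rw [mul_pow, hG, Real.sq_sqrt (Finset.sum_nonneg fun _ _ => sq_nonneg _)]
      exact h1.trans (hiter k).2
    exact abs_le_of_sq_le_sq h2 (mul_nonneg (pow_nonneg hθ k) (Real.sqrt_nonneg _))
  have hB : ∀ k : ℕ, (pp w)^[k] g (Fin.last m) - (pp w)^[k] g 0
      ≤ (2 * G) * (1 - κ * lam) ^ k := by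
    intro k
    have h1 := hpt k (Fin.last m)
    have h2 := hpt k 0
    rw [abs_le] at h1 h2
    linarith [h1.2, h2.1]
  have key := gap_abstract (R := R) hw0 hw1 hmono hθ hB f hf
  have e1 : (1 / 4) * ∑ a, w a * ∑ x, (f (tau a x) - f x) ^ 2
      = κ * ((1 / 4) * ∑ a, r a * ∑ x, (f (tau a x) - f x) ^ 2) := by
    rw [Finset.mul_sum, Finset.mul_sum, Finset.mul_sum]
    refine Finset.sum_congr rfl fun a _ => ?_
    rw [hw]; ring
  rw [e1] at key
  have e2 : (1 - (1 - κ * lam)) * ∑ x, f x ^ 2 = κ * (lam * ∑ x, f x ^ 2) := by ring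
  rw [e2] at key
  exact le_of_mul_le_mul_left key hκ0

end Pool.Agent.K6.H24.OP
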