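import Pool.Agent.K6.H24.OP.A5

/-!
# The Dirichlet form of a smooth function on the lattice
-/

namespace Pool.Agent.K6.H24.OP

open Finset

set_option linter.unusedSectionVars false

variable {ι : Type*} [Fintype ι] [DecidableEq ι] {m : ℕ} {R : ι → ι → Prop}

/-- The position of the site `s`. -/
noncomputable def pos (m : ℕ) (s : Fin (m+1)) : ℝ := ((s.val : ℝ) + 1) / ((m : ℝ) + 2)

/-- The point of a placement. -/
noncomputable def pt (q : ℝ → ℝ) (x : ι → Fin (m+1)) : ι → ℝ := fun i => q (pos m (x i))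

/-- The length of the bond `a`. -/
noncomputable def dl (q : ℝ → ℝ) (a : Fin m) : ℝ := q (pos m a.succ) - q (pos m a.castSucc)

/-- `t` is an end of the bond `a`. -/
def InB (a : Fin m) (t : Fin (m+1)) : Prop := t = a.castSucc ∨ t = a.succ

instance (a : Fin m) (t : Fin (m+1)) : Decidable (InB a t) := by unfold InB; infer_instance

/-- The partial derivative bound. -/
noncomputable def bb (F : (ι → ℝ) → ℝ) (ε : ℝ) (y : ι → ℝ) (i : ι) : ℝ :=
  |fderiv ℝ F y (Pi.single i 1)| + ε

lemma bb_nonneg (F : (ι → ℝ) → ℝ) {ε : ℝ} (hε : 0 ≤ ε) (y : ι → ℝ) (i : ι) : 0 ≤ bb F ε y i := by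
  unfold bb; positivity

/-- The local increment. -/
lemma incr_le {F : (ι → ℝ) → ℝ} {K : Set (ι → ℝ)} {ε δ : ℝ} (hε : 0 ≤ ε)
    (hunif : ∀ y ∈ K, ∀ z ∈ K, ‖z - y‖ ≤ δ → |F z - F y - fderiv ℝ F y (z - y)| ≤ ε * ‖z - y‖)
    {q : ℝ → ℝ} (hq : ∀ x : ι → Fin (m+1), pt q x ∈ K) (a : Fin m) (ha0 : 0 ≤ dl q a)
    (ha : dl q a ≤ δ) (x : Cfg R m) :
    |F (pt q (tau a x).1) - F (pt q x.1)|
      ≤ dl q a * ∑ i, (if InB a (x.1 i) then bb F ε (pt q x.1) i else 0) := by
  have hRHS : 0 ≤ dl q a * ∑ i, (if InB a (x.1 i) then bb F ε (pt q x.1) i else 0) := by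
    refine mul_nonneg ha0 (Finset.sum_nonneg fun i _ => ?_)
    split_ifs
    · exact bb_nonneg F hε _ _
    · exact le_rfl
  by_cases hok : Ok R (sw a ∘ x.1)
  · rw [tau_of_ok hok]
    simp only
    set y := pt q x.1 with hy
    set z := pt q (sw a ∘ x.1) with hz
    have hcoord : ∀ i, |z i - y i| ≤ (if InB a (x.1 i) then dl q a else 0) := by
      intro i
      rw [hz, hy]
      simp only [pt, Function.comp]
      by_cases h : InB a (x.1 i)
      · rw [if_pos h]
        rcases h with h | h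
        · rw [h, sw_left]
          unfold dl at ha0 ⊢
          rw [abs_of_nonneg ha0]
        · rw [h, sw_right, abs_sub_comm]
          unfold dl at ha0 ⊢
          rw [abs_of_nonneg ha0]
      · rw [if_neg h]
        unfold InB at h
        push Not at h
        rw [sw_other a h.1 h.2]; simp
    have hlin : fderiv ℝ F y (z - y) = ∑ i, (z i - y i) * fderiv ℝ F y (Pi.single i 1) := by
      have e : z - y = ∑ i, (z i - y i) • (Pi.single i (1:ℝ) : ι → ℝ) := by
        funext j
        rw [Finset.sum_apply]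
        simp [Pi.single_apply]
      conv_lhs => rw [e]
      rw [map_sum]
      refine Finset.sum_congr rfl fun i _ => ?_
      rw [map_smul, smul_eq_mul]
    by_cases hex : ∃ i, InB a (x.1 i)
    · obtain ⟨i0, hi0⟩ := hex
      have hnorm : ‖z - y‖ ≤ dl q a := by
        rw [pi_norm_le_iff_of_nonneg ha0]
        intro i
        rw [Pi.sub_apply, Real.norm_eq_abs]
        refine (hcoord i).trans ?_
        split_ifs
        · exact le_rfl
        · exact ha0
      have h1 := hunif y (hq _) z (hq _) (hnorm.trans ha)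
      have h2 : |fderiv ℝ F y (z - y)|
          ≤ ∑ i, (if InB a (x.1 i) then dl q a * |fderiv ℝ F y (Pi.single i 1)| else 0) := by
        rw [hlin]
        refine (Finset.abs_sum_le_sum_abs _ _).trans (Finset.sum_le_sum fun i _ => ?_)
        rw [abs_mul]
        refine (mul_le_mul_of_nonneg_right (hcoord i) (abs_nonneg _)).trans ?_
        split_ifs <;> simp
      have h3 : ε * ‖z - y‖ ≤ ∑ i, (if InB a (x.1 i) then dl q a * ε else 0) := by
        have h4 : ε * ‖z - y‖ ≤ dl q a * ε := by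
          rw [mul_comm]; exact mul_le_mul_of_nonneg_right hnorm hε
        refine h4.trans ?_
        have h5 : (if InB a (x.1 i0) then dl q a * ε else 0)
            ≤ ∑ i, (if InB a (x.1 i) then dl q a * ε else 0) := by
          refine Finset.single_le_sum (f := fun i => if InB a (x.1 i) then dl q a * ε else 0)
            (fun i _ => ?_) (Finset.mem_univ i0)
          split_ifs
          · positivity
          · exact le_rfl
        rwa [if_pos hi0] at h5
      have h6 : |F z - F y| ≤ |F z - F y - fderiv ℝ F y (z - y)| + |fderiv ℝ F y (z - y)| := by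
        have := abs_add_le (F z - F y - fderiv ℝ F y (z - y)) (fderiv ℝ F y (z - y))
        rwa [sub_add_cancel] at this
      refine h6.trans ((add_le_add (h1.trans h3) h2).trans (le_of_eq ?_))
      rw [← Finset.sum_add_distrib, Finset.mul_sum]
      refine Finset.sum_congr rfl fun i _ => ?_
      unfold bb
      split_ifs <;> ring
    · push Not at hex
      have : z = y := by
        funext i
        have := hcoord i
        rw [if_neg (hex i)] at this
        have := abs_nonpos_iff.1 this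
        linarith
      rw [this]
      simpa using hRHS
  · rw [tau_of_not_ok hok]
    simpa using hRHS

/-- Adjacent sites. -/
def Adj (s t : Fin (m+1)) : Prop := s.val = t.val + 1 ∨ t.val = s.val + 1

instance (s t : Fin (m+1)) : Decidable (Adj s t) := by unfold Adj; infer_instance

lemma sum_InB_le (t : Fin (m+1)) : ∑ a : Fin m, (if InB a t then (1:ℝ) else 0) ≤ 2 := by
  have h1 : ∀ a : Fin m, (if InB a t then (1:ℝ) else 0)
      ≤ (if t = a.castSucc then 1 else 0) + (if t = a.succ then 1 else 0) := by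
    intro a
    unfold InB
    by_cases h1 : t = a.castSucc
    · rw [if_pos (Or.inl h1), if_pos h1]
      split_ifs <;> norm_num
    · by_cases h2 : t = a.succ
      · rw [if_pos (Or.inr h2), if_pos h2]
        split_ifs <;> norm_num
      · rw [if_neg (not_or.2 ⟨h1, h2⟩), if_neg h1, if_neg h2]
        norm_num
  have h2 : ∑ a : Fin m, (if t = a.castSucc then (1:ℝ) else 0) ≤ 1 := by
    rw [Finset.sum_boole]
    have : (Finset.univ.filter fun a : Fin m => t = a.castSucc).card ≤ 1 := by
      rw [Finset.card_le_one]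
      intro a ha b hb
      simp only [Finset.mem_filter, Finset.mem_univ, true_and] at ha hb
      exact Fin.castSucc_injective _ (ha.symm.trans hb)
    exact_mod_cast this
  have h3 : ∑ a : Fin m, (if t = a.succ then (1:ℝ) else 0) ≤ 1 := by
    rw [Finset.sum_boole]
    have : (Finset.univ.filter fun a : Fin m => t = a.succ).card ≤ 1 := by
      rw [Finset.card_le_one]
      intro a ha b hb
      simp only [Finset.mem_filter, Finset.mem_univ, true_and] at ha hb
      exact Fin.succ_injective _ (ha.symm.trans hb)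
    exact_mod_cast this
  calc _ ≤ ∑ a : Fin m, ((if t = a.castSucc then (1:ℝ) else 0) + (if t = a.succ then 1 else 0)) :=
        Finset.sum_le_sum fun a _ => h1 a
    _ ≤ 2 := by rw [Finset.sum_add_distrib]; linarith

lemma sum_InB_pair_le {s t : Fin (m+1)} (hst : s ≠ t) :
    ∑ a : Fin m, ((if InB a s then (1:ℝ) else 0) * (if InB a t then (1:ℝ) else 0))
      ≤ if Adj s t then 2 else 0 := by
  by_cases h : Adj s t
  · rw [if_pos h]
    refine le_trans (Finset.sum_le_sum fun a _ => ?_) (sum_InB_le s)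
    split_ifs <;> norm_num
  · rw [if_neg h]
    apply le_of_eq
    refine Finset.sum_eq_zero fun a _ => ?_
    by_cases h1 : InB a s
    · by_cases h2 : InB a t
      · exfalso
        apply h
        unfold InB at h1 h2
        rcases h1 with h1 | h1 <;> rcases h2 with h2 | h2
        · exact absurd (h1.trans h2.symm) hst
        · right; rw [h1, h2]; simp
        · left; rw [h1, h2]; simp
        · exact absurd (h1.trans h2.symm) hst
      · rw [if_neg h2]; ring
    · rw [if_neg h1]; ring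

/-- The number of adjacent pairs of labels. -/
def adjCount (x : ι → Fin (m+1)) : ℝ := ∑ i, ∑ j, if i ≠ j ∧ Adj (x i) (x j) then (1:ℝ) else 0

lemma sum_sq_le {b : ι → ℝ} (hb : ∀ i, 0 ≤ b i) {M : ℝ} (hM : ∀ i, b i ≤ M)
    {x : ι → Fin (m+1)} (hx : Function.Injective x) :
    ∑ a : Fin m, (∑ i, (if InB a (x i) then b i else 0)) ^ 2
      ≤ 2 * ∑ i, b i ^ 2 + 2 * M ^ 2 * adjCount x := by
  have e1 : ∑ a : Fin m, (∑ i, (if InB a (x i) then b i else 0)) ^ 2
      = ∑ i, ∑ j, b i * b j *
        ∑ a : Fin m, ((if InB a (x i) then (1:ℝ) else 0) * (if InB a (x j) then (1:ℝ) else 0)) := by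
    have : ∀ a : Fin m, (∑ i, (if InB a (x i) then b i else 0)) ^ 2
        = ∑ i, ∑ j, b i * b j *
          ((if InB a (x i) then (1:ℝ) else 0) * (if InB a (x j) then (1:ℝ) else 0)) := by
      intro a
      rw [sq, Finset.sum_mul_sum]
      refine Finset.sum_congr rfl fun i _ => Finset.sum_congr rfl fun j _ => ?_
      split_ifs <;> ring
    simp only [this]
    rw [Finset.sum_comm]
    refine Finset.sum_congr rfl fun i _ => ?_
    rw [Finset.sum_comm]
    refine Finset.sum_congr rfl fun j _ => ?_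
    rw [Finset.mul_sum]
  rw [e1]
  have e2 : ∀ i j, b i * b j *
        ∑ a : Fin m, ((if InB a (x i) then (1:ℝ) else 0) * (if InB a (x j) then (1:ℝ) else 0))
      ≤ (if i = j then 2 * b i ^ 2 else 0)
        + 2 * M ^ 2 * (if i ≠ j ∧ Adj (x i) (x j) then (1:ℝ) else 0) := by
    intro i j
    by_cases hij : i = j
    · subst hij
      rw [if_pos rfl, if_neg (by simp), mul_zero, add_zero]
      have h1 : ∑ a : Fin m, ((if InB a (x i) then (1:ℝ) else 0) * (if InB a (x i) then (1:ℝ) else 0))
          ≤ 2 := by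
        refine le_trans (Finset.sum_le_sum fun a _ => ?_) (sum_InB_le (x i))
        split_ifs <;> norm_num
      have h2 : 0 ≤ b i * b i := mul_self_nonneg _
      nlinarith [mul_le_mul_of_nonneg_left h1 h2]
    · rw [if_neg hij, zero_add]
      have h1 := sum_InB_pair_le (m := m) (s := x i) (t := x j) (fun h => hij (hx h))
      have hbb : 0 ≤ b i * b j := mul_nonneg (hb i) (hb j)
      have hM0 : 0 ≤ M := (hb i).trans (hM i)
      have hbM : b i * b j ≤ M ^ 2 := by
        rw [sq]; exact mul_le_mul (hM i) (hM j) (hb j) hM0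
      refine (mul_le_mul_of_nonneg_left h1 hbb).trans ?_
      by_cases h2 : Adj (x i) (x j)
      · rw [if_pos h2, if_pos ⟨hij, h2⟩]
        linarith
      · rw [if_neg h2, if_neg (fun h => h2 h.2)]
        simp
  refine (Finset.sum_le_sum fun i _ => Finset.sum_le_sum fun j _ => e2 i j).trans (le_of_eq ?_)
  unfold adjCount
  simp only [Finset.sum_add_distrib, Finset.mul_sum]
  congr 1
  refine Finset.sum_congr rfl fun i _ => ?_
  rw [Finset.sum_ite_eq]
  simp

lemma card_adj_le {i j : ι} (hij : i ≠ j) :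
    ∑ x : ι → Fin (m+1), (if (x j).val = (x i).val + 1 then (1:ℝ) else 0)
      ≤ ((m:ℝ) + 1) ^ (Fintype.card ι - 1) := by
  rw [Finset.sum_boole]
  have h : (Finset.univ.filter fun x : ι → Fin (m+1) => (x j).val = (x i).val + 1).card
      ≤ Fintype.card ({k : ι // k ≠ j} → Fin (m+1)) := by
    rw [← Finset.card_univ]
    refine Finset.card_le_card_of_injOn (fun x k => x k.1) (fun x _ => Finset.mem_univ _) ?_
    intro x hx y hy hxy
    simp only [Finset.coe_filter, Finset.mem_univ, true_and, Set.mem_ofPred_eq] at hx hy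
    funext k
    by_cases hk : k = j
    · subst hk
      have h1 := congrFun hxy ⟨i, hij⟩
      simp only at h1
      apply Fin.ext
      rw [hx, hy, h1]
    · exact congrFun hxy ⟨k, hk⟩
  have h2 : Fintype.card ({k : ι // k ≠ j} → Fin (m+1)) = (m+1) ^ (Fintype.card ι - 1) := by
    rw [Fintype.card_fun, Fintype.card_fin]
    congr 1
    rw [Fintype.card_subtype_compl, Fintype.card_subtype_eq]
  rw [h2] at h
  exact_mod_cast h

lemma sum_adjCount_le :
    ∑ x : Cfg R m, adjCount x.1
      ≤ 2 * (Fintype.card ι : ℝ) ^ 2 * ((m:ℝ) + 1) ^ (Fintype.card ι - 1) := by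
  have h0 : ∀ x : ι → Fin (m+1), 0 ≤ adjCount x := by
    intro x
    unfold adjCount
    refine Finset.sum_nonneg fun i _ => Finset.sum_nonneg fun j _ => ?_
    split_ifs <;> norm_num
  have h1 : ∑ x : Cfg R m, adjCount x.1 ≤ ∑ x : ι → Fin (m+1), adjCount x := by
    classical
    have : ∑ x : Cfg R m, adjCount x.1
        = ∑ x ∈ (Finset.univ : Finset (Cfg R m)).map ⟨Subtype.val, Subtype.val_injective⟩,
          adjCount x := by
      rw [Finset.sum_map]; rfl
    rw [this]
    exact Finset.sum_le_sum_of_subset_of_nonneg (Finset.subset_univ _) fun x _ _ => h0 x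
  refine h1.trans ?_
  unfold adjCount
  have hpair : ∀ i j : ι, ∑ x : ι → Fin (m+1), (if i ≠ j ∧ Adj (x i) (x j) then (1:ℝ) else 0)
      ≤ 2 * ((m:ℝ) + 1) ^ (Fintype.card ι - 1) := by
    intro i j
    by_cases hij : i = j
    · subst hij
      simp only [ne_eq, not_true_eq_false, false_and, if_false, Finset.sum_const_zero]
      positivity
    · have hx : ∀ x : ι → Fin (m+1), (if i ≠ j ∧ Adj (x i) (x j) then (1:ℝ) else 0)
          ≤ (if (x j).val = (x i).val + 1 then (1:ℝ) else 0)
            + (if (x i).val = (x j).val + 1 then (1:ℝ) else 0) := by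
        intro x
        by_cases h1 : (x j).val = (x i).val + 1
        · rw [if_pos h1]
          split_ifs <;> norm_num
        · by_cases h2 : (x i).val = (x j).val + 1
          · rw [if_pos h2]
            split_ifs <;> norm_num
          · rw [if_neg, if_neg h1, if_neg h2]
            · norm_num
            · rintro ⟨-, h3 | h3⟩
              · exact h2 h3
              · exact h1 h3
      refine (Finset.sum_le_sum fun x _ => hx x).trans ?_
      rw [Finset.sum_add_distrib]
      have a1 := card_adj_le (m := m) hij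
      have a2 := card_adj_le (m := m) (Ne.symm hij)
      linarith
  calc ∑ x : ι → Fin (m+1), ∑ i, ∑ j, (if i ≠ j ∧ Adj (x i) (x j) then (1:ℝ) else 0)
      = ∑ i : ι, ∑ j : ι, ∑ x : ι → Fin (m+1), (if i ≠ j ∧ Adj (x i) (x j) then (1:ℝ) else 0) := by
        rw [Finset.sum_comm]
        refine Finset.sum_congr rfl fun i _ => ?_
        rw [Finset.sum_comm]
    _ ≤ ∑ _i : ι, ∑ _j : ι, 2 * ((m:ℝ) + 1) ^ (Fintype.card ι - 1) :=
        Finset.sum_le_sum fun i _ => Finset.sum_le_sum fun j _ => hpair i j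
    _ = 2 * (Fintype.card ι : ℝ) ^ 2 * ((m:ℝ) + 1) ^ (Fintype.card ι - 1) := by
        simp only [Finset.sum_const, Finset.card_univ, nsmul_eq_mul]
        ring

/-- **The discrete inequality for a smooth function.** -/
theorem discrete_ineq {F : (ι → ℝ) → ℝ} {K : Set (ι → ℝ)} {ε δ M lam : ℝ} (hε : 0 ≤ ε)
    (hunif : ∀ y ∈ K, ∀ z ∈ K, ‖z - y‖ ≤ δ → |F z - F y - fderiv ℝ F y (z - y)| ≤ ε * ‖z - y‖)
    {q : ℝ → ℝ} (hq : ∀ x : ι → Fin (m+1), pt q x ∈ K)
    (hM : ∀ y ∈ K, ∀ i, bb F ε y i ≤ M)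
    (ha0 : ∀ a : Fin m, 0 < dl q a) (ha : ∀ a : Fin m, dl q a ≤ δ)
    (hgap : ∀ f : Cfg R m → ℝ, ∑ x, f x = 0 →
      lam * ∑ x, f x ^ 2 ≤ (1 / 4) * ∑ a : Fin m, (1 / dl q a ^ 2) * ∑ x, (f (tau a x) - f x) ^ 2) :
    lam * ((Fintype.card (Cfg R m) : ℝ) * ∑ x : Cfg R m, F (pt q x.1) ^ 2
        - (∑ x : Cfg R m, F (pt q x.1)) ^ 2)
      ≤ (Fintype.card (Cfg R m) : ℝ) *
        ((1 / 2) * ∑ x : Cfg R m, ∑ i, bb F ε (pt q x.1) i ^ 2
          + M ^ 2 * (Fintype.card ι : ℝ) ^ 2 * ((m:ℝ) + 1) ^ (Fintype.card ι - 1)) := by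
  rcases isEmpty_or_nonempty (Cfg R m) with hemp | hne
  · simp
  have hcard : 0 < (Fintype.card (Cfg R m) : ℝ) := by
    exact_mod_cast Fintype.card_pos
  set c : ℝ := (Fintype.card (Cfg R m) : ℝ) with hc
  set G : Cfg R m → ℝ := fun x => F (pt q x.1) with hG
  set S : ℝ := ∑ x, G x with hS
  set f : Cfg R m → ℝ := fun x => G x - S / c with hf
  have hf0 : ∑ x, f x = 0 := by
    rw [hf]
    simp only [Finset.sum_sub_distrib, Finset.sum_const, Finset.card_univ, nsmul_eq_mul]
    rw [← hc, ← hS]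
    field_simp
    ring
  have h1 := hgap f hf0
  have e1 : c * ∑ x, f x ^ 2 = c * ∑ x, G x ^ 2 - S ^ 2 := by
    have : ∀ x, f x ^ 2 = G x ^ 2 - 2 * (S / c) * G x + (S / c) ^ 2 := by
      intro x; rw [hf]; ring
    simp only [this, Finset.sum_add_distrib, Finset.sum_sub_distrib, ← Finset.mul_sum,
      Finset.sum_const, Finset.card_univ, nsmul_eq_mul]
    rw [← hc, ← hS]
    field_simp
    ring
  have e2 : ∀ a x, (f (tau a x) - f x) = G (tau a x) - G x := by
    intro a x; rw [hf]; ring
  have h2 : ∑ a : Fin m, (1 / dl q a ^ 2) * ∑ x, (f (tau a x) - f x) ^ 2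
      ≤ ∑ x : Cfg R m, (2 * ∑ i, bb F ε (pt q x.1) i ^ 2 + 2 * M ^ 2 * adjCount x.1) := by
    have h3 : ∀ (a : Fin m) (x : Cfg R m), (1 / dl q a ^ 2) * (f (tau a x) - f x) ^ 2
        ≤ (∑ i, (if InB a (x.1 i) then bb F ε (pt q x.1) i else 0)) ^ 2 := by
      intro a x
      rw [e2]
      have h4 := incr_le (R := R) hε hunif hq a (ha0 a).le (ha a) x
      have h5 : (G (tau a x) - G x) ^ 2
          ≤ (dl q a * ∑ i, (if InB a (x.1 i) then bb F ε (pt q x.1) i else 0)) ^ 2 := by
        rw [← sq_abs]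
        exact pow_le_pow_left₀ (abs_nonneg _) h4 2
      have hd := ha0 a
      calc (1 / dl q a ^ 2) * (G (tau a x) - G x) ^ 2
          ≤ (1 / dl q a ^ 2) *
            (dl q a * ∑ i, (if InB a (x.1 i) then bb F ε (pt q x.1) i else 0)) ^ 2 :=
            mul_le_mul_of_nonneg_left h5 (by positivity)
        _ = (∑ i, (if InB a (x.1 i) then bb F ε (pt q x.1) i else 0)) ^ 2 := by
            field_simp
    calc ∑ a : Fin m, (1 / dl q a ^ 2) * ∑ x, (f (tau a x) - f x) ^ 2
        = ∑ x, ∑ a : Fin m, (1 / dl q a ^ 2) * (f (tau a x) - f x) ^ 2 := by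
          rw [Finset.sum_comm]
          refine Finset.sum_congr rfl fun a _ => ?_
          rw [Finset.mul_sum]
      _ ≤ ∑ x : Cfg R m, ∑ a : Fin m,
            (∑ i, (if InB a (x.1 i) then bb F ε (pt q x.1) i else 0)) ^ 2 :=
          Finset.sum_le_sum fun x _ => Finset.sum_le_sum fun a _ => h3 a x
      _ ≤ _ := Finset.sum_le_sum fun x _ =>
          sum_sq_le (fun i => bb_nonneg F hε _ i) (fun i => hM _ (hq x.1) i) x.2.1
  have h6 := sum_adjCount_le (R := R) (m := m)
  rw [Finset.sum_add_distrib, ← Finset.mul_sum, ← Finset.mul_sum] at h2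
  have hM2 : 0 ≤ M ^ 2 := sq_nonneg M
  have h7 := mul_le_mul_of_nonneg_left h6 hM2
  have h8 : lam * ∑ x, f x ^ 2 ≤ (1 / 2) * ∑ x : Cfg R m, ∑ i, bb F ε (pt q x.1) i ^ 2
          + M ^ 2 * (Fintype.card ι : ℝ) ^ 2 * ((m:ℝ) + 1) ^ (Fintype.card ι - 1) := by
    nlinarith [h1, h2, h7]
  calc lam * (c * ∑ x, G x ^ 2 - S ^ 2) = c * (lam * ∑ x, f x ^ 2) := by rw [← e1]; ring
    _ ≤ _ := mul_le_mul_of_nonneg_left h8 hcard.le

end Pool.Agent.K6.H24.OP
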