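import Pool.Agent.K6.H24.OP.B1

/-!
# Riemann sums over the configurations
-/

namespace Pool.Agent.K6.H24.OP

open Finset MeasureTheory Filter Topology Bornology
open scoped Pointwise

set_option linter.unusedSectionVars false

variable {ι : Type*} [Fintype ι] [DecidableEq ι] {m : ℕ} {R : ι → ι → Prop}

/-- The open order polytope, without its diagonals. -/
def SS (R : ι → ι → Prop) : Set (ι → ℝ) :=
  {u | (∀ i, u i ∈ Set.Ioo (0:ℝ) 1) ∧ (∀ i j, i ≠ j → u i ≠ u j) ∧ ∀ i j, R i j → u i < u j}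

lemma isOpen_SS (R : ι → ι → Prop) : IsOpen (SS R) := by
  have e : SS R = (⋂ i, {u : ι → ℝ | u i ∈ Set.Ioo (0:ℝ) 1}) ∩
      ((⋂ i, ⋂ j, {u : ι → ℝ | i ≠ j → u i ≠ u j}) ∩ (⋂ i, ⋂ j, {u : ι → ℝ | R i j → u i < u j})) := by
    ext u
    simp only [SS, Set.mem_inter_iff, Set.mem_iInter, Set.mem_ofPred_eq]
  rw [e]
  refine IsOpen.inter ?_ (IsOpen.inter ?_ ?_)
  · exact isOpen_iInter_of_finite fun i => isOpen_Ioo.preimage (continuous_apply i)
  · refine isOpen_iInter_of_finite fun i => isOpen_iInter_of_finite fun j => ?_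
    by_cases h : i = j
    · have : {u : ι → ℝ | i ≠ j → u i ≠ u j} = Set.univ := by
        ext u; simp [h]
      rw [this]; exact isOpen_univ
    · have : {u : ι → ℝ | i ≠ j → u i ≠ u j} = {u : ι → ℝ | u i ≠ u j} := by
        ext u; simp [h]
      rw [this]; exact isOpen_ne_fun (continuous_apply i) (continuous_apply j)
  · refine isOpen_iInter_of_finite fun i => isOpen_iInter_of_finite fun j => ?_
    by_cases h : R i j
    · have : {u : ι → ℝ | R i j → u i < u j} = {u : ι → ℝ | u i < u j} := by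
        ext u; simp [h]
      rw [this]; exact isOpen_lt (continuous_apply i) (continuous_apply j)
    · have : {u : ι → ℝ | R i j → u i < u j} = Set.univ := by
        ext u; simp [h]
      rw [this]; exact isOpen_univ

lemma SS_subset (R : ι → ι → Prop) : SS R ⊆ Set.Icc (0 : ι → ℝ) 1 := by
  intro u hu
  exact ⟨fun i => (hu.1 i).1.le, fun i => (hu.1 i).2.le⟩

lemma volume_eq_zero_of_eq {i j : ι} (hij : i ≠ j) :
    volume {u : ι → ℝ | u i = u j} = 0 := by
  let s : Submodule ℝ (ι → ℝ) := LinearMap.ker ((LinearMap.proj i : (ι → ℝ) →ₗ[ℝ] ℝ) - LinearMap.proj j)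
  have hs : (s : Set (ι → ℝ)) = {u : ι → ℝ | u i = u j} := by
    ext u
    simp [s, sub_eq_zero]
  rw [← hs]
  refine Measure.addHaar_submodule volume s ?_
  intro htop
  have : (Pi.single i (1:ℝ) : ι → ℝ) ∈ s := by rw [htop]; trivial
  have h2 : (Pi.single i (1:ℝ) : ι → ℝ) ∈ {u : ι → ℝ | u i = u j} := by rw [← hs]; exact this
  simp [hij.symm] at h2

lemma volume_frontier_SS (R : ι → ι → Prop) : volume (frontier (SS R)) = 0 := by
  have hsub : frontier (SS R) ⊆ ((⋃ i, {u : ι → ℝ | u i = 0}) ∪ (⋃ i, {u : ι → ℝ | u i = 1}))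
      ∪ ⋃ i, ⋃ j, {u : ι → ℝ | i ≠ j ∧ u i = u j} := by
    intro u hu
    rw [(isOpen_SS R).frontier_eq] at hu
    obtain ⟨hcl, hn⟩ := hu
    have hne : (SS R).Nonempty := closure_nonempty_iff.1 ⟨u, hcl⟩
    obtain ⟨v, hv⟩ := hne
    have hclosed : IsClosed {u : ι → ℝ | (∀ i, 0 ≤ u i ∧ u i ≤ 1) ∧ ∀ i j, R i j → u i ≤ u j} := by
      have e : {u : ι → ℝ | (∀ i, 0 ≤ u i ∧ u i ≤ 1) ∧ ∀ i j, R i j → u i ≤ u j}
        = (⋂ i, {u : ι → ℝ | 0 ≤ u i ∧ u i ≤ 1}) ∩ (⋂ i, ⋂ j, {u : ι → ℝ | R i j → u i ≤ u j}) := by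
        ext u
        simp only [Set.mem_inter_iff, Set.mem_iInter, Set.mem_ofPred_eq]
      rw [e]
      refine IsClosed.inter (isClosed_iInter fun i => ?_) (isClosed_iInter fun i =>
        isClosed_iInter fun j => ?_)
      · exact isClosed_Icc.preimage (continuous_apply i)
      · by_cases h : R i j
        · have : {u : ι → ℝ | R i j → u i ≤ u j} = {u : ι → ℝ | u i ≤ u j} := by
            ext u; simp [h]
          rw [this]; exact isClosed_le (continuous_apply i) (continuous_apply j)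
        · have : {u : ι → ℝ | R i j → u i ≤ u j} = Set.univ := by
            ext u; simp [h]
          rw [this]; exact isClosed_univ
    have hucl : u ∈ {u : ι → ℝ | (∀ i, 0 ≤ u i ∧ u i ≤ 1) ∧ ∀ i j, R i j → u i ≤ u j} := by
      refine closure_minimal ?_ hclosed hcl
      intro w hw
      exact ⟨fun i => ⟨(hw.1 i).1.le, (hw.1 i).2.le⟩, fun i j h => (hw.2.2 i j h).le⟩
    by_contra hcon
    simp only [Set.mem_union, Set.mem_iUnion, Set.mem_ofPred_eq, not_or, not_exists, not_and] at hcon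
    apply hn
    refine ⟨fun i => ⟨lt_of_le_of_ne (hucl.1 i).1 (Ne.symm (hcon.1.1 i)),
      lt_of_le_of_ne (hucl.1 i).2 (hcon.1.2 i)⟩, fun i j h => hcon.2 i j h, fun i j h => ?_⟩
    refine lt_of_le_of_ne (hucl.2 i j h) ?_
    by_cases hij : i = j
    · subst hij
      exact absurd (hv.2.2 i i h) (lt_irrefl _)
    · exact hcon.2 i j hij
  refine measure_mono_null hsub ?_
  refine measure_union_null (measure_union_null ?_ ?_) ?_
  · refine measure_iUnion_null fun i => ?_
    exact Measure.pi_hyperplane (fun _ : ι => (volume : Measure ℝ)) i 0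
  · refine measure_iUnion_null fun i => ?_
    exact Measure.pi_hyperplane (fun _ : ι => (volume : Measure ℝ)) i 1
  · refine measure_iUnion_null fun i => measure_iUnion_null fun j => ?_
    by_cases hij : i = j
    · simp [hij]
    · refine measure_mono_null ?_ (volume_eq_zero_of_eq hij)
      rintro u ⟨-, h⟩
      exact h

lemma pos_mem (s : Fin (m+1)) : pos m s ∈ Set.Ioo (0:ℝ) 1 := by
  unfold pos
  have hs : ((s.val + 1 : ℕ) : ℝ) ≤ m + 1 := by
    exact_mod_cast s.2
  push_cast at hs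
  have hm : (0:ℝ) ≤ m := by positivity
  have hsv : (0:ℝ) ≤ s.val := by positivity
  constructor
  · positivity
  · rw [div_lt_one (by positivity)]; linarith

lemma pos_strictMono : StrictMono (pos m) := by
  intro s t hst
  unfold pos
  have : ((s.val : ℕ) : ℝ) < t.val := by exact_mod_cast hst
  exact div_lt_div_of_pos_right (by linarith) (by positivity)

/-- The lattice point of a placement. -/
noncomputable def lp (x : ι → Fin (m+1)) : ι → ℝ := fun i => pos m (x i)

lemma lp_mem_SS (x : Cfg R m) : lp x.1 ∈ SS R := by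
  refine ⟨fun i => pos_mem _, fun i j hij h => hij (x.2.1 (pos_strictMono.injective h)),
    fun i j h => pos_strictMono (x.2.2 i j h)⟩

lemma mem_lat {m : ℕ} {v : ι → ℝ} :
    v ∈ (((m + 2 : ℕ) : ℝ))⁻¹ • (Submodule.span ℤ (Set.range (Pi.basisFun ℝ ι)) : Set (ι → ℝ)) ↔
      ∀ i, ((m + 2 : ℕ) : ℝ) * v i ∈ Set.range (algebraMap ℤ ℝ) := by
  have : NeZero (m+2) := ⟨by omega⟩
  rw [← BoxIntegral.unitPartition.mem_smul_span_iff (ι := ι) (n := m + 2) (v := v),
    ← Submodule.coe_pointwise_smul]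
  rfl

/-- The configurations are the lattice points of the open order polytope. -/
noncomputable def latEquiv (R : ι → ι → Prop) (m : ℕ) :
    Cfg R m ≃ ↑(SS R ∩ (((m + 2 : ℕ) : ℝ))⁻¹ •
      (Submodule.span ℤ (Set.range (Pi.basisFun ℝ ι)) : Set (ι → ℝ))) := by
  refine Equiv.ofBijective (fun x => ⟨lp x.1, lp_mem_SS x, ?_⟩) ⟨?_, ?_⟩
  · rw [mem_lat]
    intro i
    refine ⟨((x.1 i).val + 1 : ℤ), ?_⟩
    unfold lp pos
    have : (m:ℝ) + 2 ≠ 0 := by positivity
    rw [algebraMap_int_eq, eq_intCast]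
    push_cast
    field_simp
  · intro x y hxy
    apply Subtype.ext
    funext i
    have := congrArg (fun z => z.1 i) hxy
    exact pos_strictMono.injective this
  · rintro ⟨u, huS, huL⟩
    have huL' := mem_lat.1 huL
    choose k hk using huL'
    have hm : (0:ℝ) < ((m + 2 : ℕ) : ℝ) := by positivity
    have hk' : ∀ i, (k i : ℝ) = ((m + 2 : ℕ) : ℝ) * u i := by
      intro i
      have := hk i
      simpa using this
    have hk1 : ∀ i, 1 ≤ k i := by
      intro i
      have h1 : (0:ℝ) < k i := by rw [hk' i]; exact mul_pos hm (huS.1 i).1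
      have : 0 < k i := by exact_mod_cast h1
      omega
    have hk2 : ∀ i, k i ≤ m + 1 := by
      intro i
      have h1 : (k i : ℝ) < ((m + 2 : ℕ) : ℝ) := by
        rw [hk' i]
        calc ((m + 2 : ℕ) : ℝ) * u i < ((m + 2 : ℕ) : ℝ) * 1 := mul_lt_mul_of_pos_left (huS.1 i).2 hm
          _ = _ := mul_one _
      have : k i < ((m + 2 : ℕ) : ℤ) := by exact_mod_cast h1
      push_cast at this
      omega
    let x : ι → Fin (m+1) := fun i => ⟨(k i - 1).toNat, by have := hk1 i; have := hk2 i; omega⟩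
    have hx : lp x = u := by
      funext i
      simp only [lp, pos, x]
      have h1 : (((k i - 1).toNat : ℤ) : ℝ) = k i - 1 := by
        rw [Int.toNat_of_nonneg (by have := hk1 i; omega)]
        push_cast; ring
      have h2 : (((k i - 1).toNat : ℕ) : ℝ) = k i - 1 := by
        rw [← h1]; push_cast; rfl
      rw [h2, hk' i]
      push_cast
      have : (m:ℝ) + 2 ≠ 0 := by positivity
      field_simp
      ring
    have hlt : ∀ i j, u i < u j → x i < x j := by
      intro i j h
      rw [← hx] at h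
      exact (pos_strictMono.lt_iff_lt).1 h
    refine ⟨⟨x, ?_, ?_⟩, ?_⟩
    · intro i j hij
      by_contra hne
      apply huS.2.1 i j hne
      rw [← hx]
      simp only [lp, hij]
    · intro i j h
      exact hlt i j (huS.2.2 i j h)
    · apply Subtype.ext
      exact hx

/-- **Riemann sums.** -/
theorem riemann (R : ι → ι → Prop) {Φ : (ι → ℝ) → ℝ} (hΦ : Continuous Φ) :
    Tendsto (fun m : ℕ => (∑ x : Cfg R m, Φ (lp x.1)) / ((m:ℝ) + 2) ^ Fintype.card ι) atTop
      (𝓝 (∫ u in SS R, Φ u)) := by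
  have h := tendsto_tsum_div_pow_atTop_integral (SS R) Φ hΦ
    ((Metric.isBounded_Icc (0 : ι → ℝ) 1).subset (SS_subset R)) (isOpen_SS R).measurableSet
    (volume_frontier_SS R)
  have h2 := h.comp (tendsto_add_atTop_nat 2)
  refine h2.congr fun m => ?_
  simp only [Function.comp]
  congr 1
  · rw [← (latEquiv R m).tsum_eq, tsum_fintype]
    rfl
  · push_cast; rfl

end Pool.Agent.K6.H24.OP
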