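import Pool.Agent.K6.H24.OP.B2

/-!
# The continuum limit
-/

namespace Pool.Agent.K6.H24.OP

open Finset MeasureTheory Filter Topology Bornology

set_option linter.unusedSectionVars false

variable {ι : Type*} [Fintype ι] [DecidableEq ι] {m : ℕ} {R : ι → ι → Prop}

/-- Uniform differentiability of a `C¹` function on a compact convex set. -/
lemma unif_diff {F : (ι → ℝ) → ℝ} (hF : ContDiff ℝ 1 F) {K : Set (ι → ℝ)} (hK : IsCompact K)
    (hKc : Convex ℝ K) {ε : ℝ} (hε : 0 < ε) :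
    ∃ δ : ℝ, 0 < δ ∧ ∀ y ∈ K, ∀ z ∈ K, ‖z - y‖ ≤ δ →
      |F z - F y - fderiv ℝ F y (z - y)| ≤ ε * ‖z - y‖ := by
  have hc : Continuous (fderiv ℝ F) := hF.continuous_fderiv (by norm_num)
  have huc := hK.uniformContinuousOn_of_continuous hc.continuousOn
  rw [Metric.uniformContinuousOn_iff] at huc
  obtain ⟨δ, hδ, h⟩ := huc ε hε
  refine ⟨δ / 2, by positivity, ?_⟩
  intro y hy z hz hzy
  have hconv : Convex ℝ (K ∩ Metric.closedBall y (δ / 2)) := hKc.inter (convex_closedBall _ _)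
  have key := Convex.norm_image_sub_le_of_norm_fderiv_le' (𝕜 := ℝ) (f := F) (s := K ∩ Metric.closedBall y (δ / 2))
    (φ := fderiv ℝ F y) (C := ε) (x := y) (y := z)
    (fun x _ => (hF.differentiable (by norm_num)) x) ?_ hconv
    ⟨hy, Metric.mem_closedBall_self (by positivity)⟩ ⟨hz, ?_⟩
  · simpa [Real.norm_eq_abs] using key
  · intro x hx
    have hxd : dist x y < δ := lt_of_le_of_lt hx.2 (by linarith)
    have := h x hx.1 y hy hxd
    rw [dist_eq_norm] at this
    exact this.le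
  · rw [Metric.mem_closedBall, dist_eq_norm]; exact hzy

lemma pt_eq (q : ℝ → ℝ) (x : ι → Fin (m+1)) : pt q x = fun i => q (lp x i) := rfl

/-- **The continuum limit of the gap.** -/
theorem limit_gap {q : ℝ → ℝ} (hqc : Continuous q) (hqm : Monotone q)
    (hqs : StrictMonoOn q (Set.Icc 0 1)) {lam : ℕ → ℝ} {Λ : ℝ}
    (hlam : Tendsto lam atTop (𝓝 Λ))
    (hgap : ∀ᶠ m : ℕ in atTop, ∀ f : Cfg R m → ℝ, ∑ x, f x = 0 →
      lam m * ∑ x, f x ^ 2
        ≤ (1 / 4) * ∑ a : Fin m, (1 / dl q a ^ 2) * ∑ x, (f (tau a x) - f x) ^ 2)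
    {F : (ι → ℝ) → ℝ} (hF : ContDiff ℝ 1 F) :
    Λ * ((∫ _u in SS R, (1:ℝ)) * (∫ u in SS R, F (fun i => q (u i)) ^ 2)
        - (∫ u in SS R, F (fun i => q (u i))) ^ 2)
      ≤ (∫ _u in SS R, (1:ℝ)) * ((1 / 2) *
        ∫ u in SS R, ∑ i, (fderiv ℝ F (fun i => q (u i)) (Pi.single i 1)) ^ 2) := by
  set K : Set (ι → ℝ) := Set.Icc (fun _ => q 0) (fun _ => q 1) with hKdef
  have hK : IsCompact K := isCompact_Icc
  have hKc : Convex ℝ K := convex_Icc _ _
  have hptK : ∀ (m : ℕ) (x : ι → Fin (m+1)), pt q x ∈ K := by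
    intro m x
    refine ⟨fun i => hqm (pos_mem (x i)).1.le, fun i => hqm (pos_mem (x i)).2.le⟩
  have hfd : Continuous (fderiv ℝ F) := hF.continuous_fderiv (by norm_num)
  have hpart : ∀ i : ι, Continuous fun y => fderiv ℝ F y (Pi.single i 1) := fun i =>
    hfd.clm_apply continuous_const
  have hqq : Continuous fun u : ι → ℝ => (fun i => q (u i)) :=
    continuous_pi fun i => hqc.comp (continuous_apply i)
  -- a bound for the partial derivatives on `K`
  obtain ⟨M0, hM0⟩ : ∃ M0 : ℝ, ∀ y ∈ K, ∀ i, |fderiv ℝ F y (Pi.single i 1)| ≤ M0 := by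
    have hcont : Continuous fun y => ∑ i, |fderiv ℝ F y (Pi.single i 1)| :=
      continuous_finsetSum _ fun i _ => (hpart i).abs
    obtain ⟨C, hC⟩ := hK.exists_bound_of_continuousOn hcont.continuousOn
    refine ⟨C, fun y hy i => ?_⟩
    have h1 := hC y hy
    rw [Real.norm_eq_abs] at h1
    refine le_trans ?_ ((le_abs_self _).trans h1)
    exact Finset.single_le_sum (f := fun i => |fderiv ℝ F y (Pi.single i 1)|)
      (fun i _ => abs_nonneg _) (Finset.mem_univ i)
  set vol : ℝ := ∫ _u in SS R, (1:ℝ) with hvol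
  set I2 : ℝ := ∫ u in SS R, F (fun i => q (u i)) ^ 2 with hI2
  set I1 : ℝ := ∫ u in SS R, F (fun i => q (u i)) with hI1
  set J : ℝ := ∫ u in SS R, ∑ i, (fderiv ℝ F (fun i => q (u i)) (Pi.single i 1)) ^ 2 with hJ
  have hvol0 : 0 ≤ vol := by
    rw [hvol]; exact integral_nonneg fun _ => zero_le_one
  have hSfin : volume (SS R) ≠ ⊤ := by
    have : volume (SS R) ≤ volume (Set.Icc (0 : ι → ℝ) 1) := measure_mono (SS_subset R)
    exact ne_top_of_le_ne_top isCompact_Icc.measure_ne_top this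
  have hint : ∀ {Φ : (ι → ℝ) → ℝ}, Continuous Φ → IntegrableOn Φ (SS R) volume := by
    intro Φ hΦ
    exact (hΦ.continuousOn.integrableOn_compact isCompact_Icc).mono_set (SS_subset R)
  -- the inequality for each `ε`
  have main : ∀ ε : ℝ, 0 < ε → Λ * (vol * I2 - I1 ^ 2)
      ≤ vol * ((1 / 2) * ∫ u in SS R, ∑ i, bb F ε (fun i => q (u i)) i ^ 2) := by
    intro ε hε
    obtain ⟨δ, hδ, hunif⟩ := unif_diff hF hK hKc hε
    set n : ℕ := Fintype.card ι with hn
    -- the mesh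
    have hmesh : ∀ᶠ m : ℕ in atTop, ∀ a : Fin m, dl q a ≤ δ := by
      have huc := isCompact_Icc.uniformContinuousOn_of_continuous
        (s := Set.Icc (0:ℝ) 1) hqc.continuousOn
      rw [Metric.uniformContinuousOn_iff] at huc
      obtain ⟨η, hη, h⟩ := huc δ hδ
      have : Tendsto (fun m : ℕ => 1 / ((m:ℝ) + 1)) atTop (𝓝 0) :=
        tendsto_one_div_add_atTop_nhds_zero_nat
      filter_upwards [this.eventually (gt_mem_nhds hη)] with m hm a
      have h1 := pos_mem (m := m) a.succ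
      have h2 := pos_mem (m := m) a.castSucc
      have hd : dist (pos m a.succ) (pos m a.castSucc) < η := by
        have e : pos m a.succ - pos m a.castSucc = 1 / ((m:ℝ) + 2) := by
          unfold pos
          simp only [Fin.val_succ, Fin.val_castSucc]
          push_cast; ring
        rw [Real.dist_eq, e, abs_of_pos (by positivity)]
        refine lt_of_le_of_lt ?_ hm
        exact one_div_le_one_div_of_le (by positivity) (by linarith)
      have := h _ ⟨h1.1.le, h1.2.le⟩ _ ⟨h2.1.le, h2.2.le⟩ hd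
      rw [Real.dist_eq] at this
      unfold dl
      exact (le_abs_self _).trans this.le
    have hdl : ∀ (m : ℕ) (a : Fin m), 0 < dl q a := by
      intro m a
      unfold dl
      have h1 := pos_mem (m := m) a.succ
      have h2 := pos_mem (m := m) a.castSucc
      have := hqs ⟨h2.1.le, h2.2.le⟩ ⟨h1.1.le, h1.2.le⟩ (pos_strictMono (castSucc_lt_succ' a))
      linarith
    have hbbc : Continuous fun u : ι → ℝ => ∑ i, bb F ε (fun i => q (u i)) i ^ 2 := by
      refine continuous_finsetSum _ fun i _ => ?_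
      unfold bb
      exact ((((hpart i).comp hqq).abs).add continuous_const).pow 2
    have t1 := riemann R (Φ := fun _ => (1:ℝ)) continuous_const
    have t2 := riemann R (Φ := fun u => F (fun i => q (u i)) ^ 2) ((hF.continuous.comp hqq).pow 2)
    have t3 := riemann R (Φ := fun u => F (fun i => q (u i))) (hF.continuous.comp hqq)
    have t4 := riemann R (Φ := fun u => ∑ i, bb F ε (fun i => q (u i)) i ^ 2) hbbc
    have t5 : Tendsto (fun m : ℕ => (M0 + ε) ^ 2 * (n : ℝ) ^ 2 * ((m:ℝ) + 1) ^ (n - 1)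
        / ((m:ℝ) + 2) ^ n) atTop (𝓝 0) := by
      have h0 : Tendsto (fun m : ℕ => (M0 + ε) ^ 2 * (n : ℝ) ^ 2 * (1 / ((m:ℝ) + 1))) atTop
          (𝓝 ((M0 + ε) ^ 2 * (n : ℝ) ^ 2 * 0)) :=
        tendsto_one_div_add_atTop_nhds_zero_nat.const_mul _
      rw [mul_zero] at h0
      refine squeeze_zero (fun m => by positivity) (fun m => ?_) h0
      rcases Nat.eq_zero_or_pos n with h | h
      · rw [h]; simp
      · obtain ⟨k, hk⟩ : ∃ k, n = k + 1 := ⟨n - 1, by omega⟩
        rw [hk, Nat.add_sub_cancel, mul_div_assoc]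
        refine mul_le_mul_of_nonneg_left ?_ (by positivity)
        have hm : (0:ℝ) ≤ m := by positivity
        rw [div_le_div_iff₀ (by positivity) (by positivity), one_mul, pow_succ]
        have h1 : ((m:ℝ) + 1) ^ k ≤ ((m:ℝ) + 2) ^ k :=
          pow_le_pow_left₀ (by positivity) (by linarith) k
        exact mul_le_mul h1 (by linarith) (by positivity) (by positivity)
    have lim1 : Tendsto (fun m : ℕ => lam m *
        ((∑ _x : Cfg R m, (1:ℝ)) / ((m:ℝ) + 2) ^ n *
          ((∑ x : Cfg R m, F (fun i => q (lp x.1 i)) ^ 2) / ((m:ℝ) + 2) ^ n)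
          - ((∑ x : Cfg R m, F (fun i => q (lp x.1 i))) / ((m:ℝ) + 2) ^ n) ^ 2)) atTop
        (𝓝 (Λ * (vol * I2 - I1 ^ 2))) :=
      hlam.mul ((t1.mul t2).sub (t3.pow 2))
    have lim2 : Tendsto (fun m : ℕ => (∑ _x : Cfg R m, (1:ℝ)) / ((m:ℝ) + 2) ^ n *
        ((1 / 2) * ((∑ x : Cfg R m, ∑ i, bb F ε (fun i => q (lp x.1 i)) i ^ 2) / ((m:ℝ) + 2) ^ n)
          + (M0 + ε) ^ 2 * (n : ℝ) ^ 2 * ((m:ℝ) + 1) ^ (n - 1) / ((m:ℝ) + 2) ^ n)) atTop
        (𝓝 (vol * ((1 / 2) * (∫ u in SS R, ∑ i, bb F ε (fun i => q (u i)) i ^ 2) + 0))) :=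
      t1.mul ((t4.const_mul (1/2)).add t5)
    rw [add_zero] at lim2
    refine le_of_tendsto_of_tendsto lim1 lim2 ?_
    filter_upwards [hmesh, hgap] with m hm hgapm
    have hM : ∀ y ∈ K, ∀ i, bb F ε y i ≤ M0 + ε := by
      intro y hy i
      unfold bb
      linarith [hM0 y hy i]
    have key := discrete_ineq (R := R) (m := m) hε.le hunif (hptK m) hM (hdl m) hm hgapm
    have hP : (0:ℝ) < ((m:ℝ) + 2) ^ n := by positivity
    have hcardeq : ∑ _x : Cfg R m, (1:ℝ) = (Fintype.card (Cfg R m) : ℝ) := by simp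
    rw [hcardeq]
    have e1 : lam m * ((Fintype.card (Cfg R m) : ℝ) / ((m:ℝ) + 2) ^ n *
          ((∑ x : Cfg R m, F (fun i => q (lp x.1 i)) ^ 2) / ((m:ℝ) + 2) ^ n)
          - ((∑ x : Cfg R m, F (fun i => q (lp x.1 i))) / ((m:ℝ) + 2) ^ n) ^ 2)
        = (lam m * ((Fintype.card (Cfg R m) : ℝ) * ∑ x : Cfg R m, F (pt q x.1) ^ 2
        - (∑ x : Cfg R m, F (pt q x.1)) ^ 2)) / (((m:ℝ) + 2) ^ n) ^ 2 := by
      simp only [pt_eq]
      field_simp
    have e2 : (Fintype.card (Cfg R m) : ℝ) / ((m:ℝ) + 2) ^ n *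
        ((1 / 2) * ((∑ x : Cfg R m, ∑ i, bb F ε (fun i => q (lp x.1 i)) i ^ 2) / ((m:ℝ) + 2) ^ n)
          + (M0 + ε) ^ 2 * (n : ℝ) ^ 2 * ((m:ℝ) + 1) ^ (n - 1) / ((m:ℝ) + 2) ^ n)
        = ((Fintype.card (Cfg R m) : ℝ) *
        ((1 / 2) * ∑ x : Cfg R m, ∑ i, bb F ε (pt q x.1) i ^ 2
          + (M0 + ε) ^ 2 * (n : ℝ) ^ 2 * ((m:ℝ) + 1) ^ (n - 1))) / (((m:ℝ) + 2) ^ n) ^ 2 := by
      simp only [pt_eq]
      field_simp
    rw [e1, e2]
    exact div_le_div_of_nonneg_right key (by positivity)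
  -- let `ε → 0`
  set L : ℝ := ∫ u in SS R, ∑ i, |fderiv ℝ F (fun i => q (u i)) (Pi.single i 1)| with hL
  set n : ℝ := (Fintype.card ι : ℝ) with hn
  have hexp : ∀ ε : ℝ, ∫ u in SS R, ∑ i, bb F ε (fun i => q (u i)) i ^ 2
      = J + 2 * ε * L + ε ^ 2 * n * vol := by
    intro ε
    have e : ∀ u : ι → ℝ, ∑ i, bb F ε (fun i => q (u i)) i ^ 2
        = ((∑ i, (fderiv ℝ F (fun i => q (u i)) (Pi.single i 1)) ^ 2)
          + 2 * ε * ∑ i, |fderiv ℝ F (fun i => q (u i)) (Pi.single i 1)|) + ε ^ 2 * n * 1 := by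
      intro u
      unfold bb
      have : ∀ i, (|fderiv ℝ F (fun i => q (u i)) (Pi.single i 1)| + ε) ^ 2
          = (fderiv ℝ F (fun i => q (u i)) (Pi.single i 1)) ^ 2
            + 2 * ε * |fderiv ℝ F (fun i => q (u i)) (Pi.single i 1)| + ε ^ 2 := by
        intro i
        rw [← sq_abs (fderiv ℝ F (fun i => q (u i)) (Pi.single i 1))]
        ring
      simp only [this, Finset.sum_add_distrib, Finset.sum_const, Finset.card_univ, nsmul_eq_mul,
        ← Finset.mul_sum]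
      rw [hn]; ring
    simp only [e]
    have i1 : IntegrableOn (fun u : ι → ℝ =>
        ∑ i, (fderiv ℝ F (fun i => q (u i)) (Pi.single i 1)) ^ 2) (SS R) volume :=
      hint (continuous_finsetSum _ fun i _ => ((hpart i).comp hqq).pow 2)
    have i2 : IntegrableOn (fun u : ι → ℝ =>
        2 * ε * ∑ i, |fderiv ℝ F (fun i => q (u i)) (Pi.single i 1)|) (SS R) volume :=
      hint (continuous_const.mul (continuous_finsetSum _ fun i _ => ((hpart i).comp hqq).abs))
    have i3 : IntegrableOn (fun _u : ι → ℝ => ε ^ 2 * n * 1) (SS R) volume := hint continuous_const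
    have i12 : IntegrableOn (fun u : ι → ℝ =>
        ∑ i, (fderiv ℝ F (fun i => q (u i)) (Pi.single i 1)) ^ 2
        + 2 * ε * ∑ i, |fderiv ℝ F (fun i => q (u i)) (Pi.single i 1)|) (SS R) volume := i1.add i2
    rw [integral_add i12 i3, integral_add i1 i2, integral_const_mul, integral_const_mul]
  refine le_of_forall_pos_le_add fun η hη => ?_
  have hcont : Tendsto (fun ε : ℝ => vol * ((1 / 2) * (J + 2 * ε * L + ε ^ 2 * n * vol))) (𝓝[>] 0)
      (𝓝 (vol * ((1 / 2) * (J + 2 * 0 * L + 0 ^ 2 * n * vol)))) := by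
    refine Tendsto.mono_left ?_ nhdsWithin_le_nhds
    refine Continuous.tendsto ?_ 0
    fun_prop
  have hle : Λ * (vol * I2 - I1 ^ 2) ≤ vol * ((1 / 2) * (J + 2 * 0 * L + 0 ^ 2 * n * vol)) := by
    refine ge_of_tendsto hcont ?_
    filter_upwards [self_mem_nhdsWithin] with ε hε
    rw [← hexp]
    exact main ε hε
  have e : vol * ((1 / 2) * (J + 2 * 0 * L + 0 ^ 2 * n * vol)) = vol * ((1 / 2) * J) := by ring
  rw [e] at hle
  linarith

end Pool.Agent.K6.H24.OP
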