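import Pool.Agent.K6.H24.OP.A6
import Pool.Agent.K6.H24.OP.B3

/-!
# From the Poincare inequality of a measure on the line to the one-particle gap
-/

namespace Pool.Agent.K6.H24.OP

open Finset MeasureTheory Filter Topology

set_option linter.unusedSectionVars false

/-- trapezoid -/
noncomputable def tz (ε y : ℝ) : ℝ := max 0 (min 1 (min (y / ε) ((1 - y) / ε)))

lemma tz_cont (ε : ℝ) : Continuous (tz ε) := by
  unfold tz; fun_prop

lemma tz_nonneg (ε y : ℝ) : 0 ≤ tz ε y := le_max_left _ _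

lemma tz_le_one (ε y : ℝ) : tz ε y ≤ 1 := max_le zero_le_one (min_le_left _ _)

lemma tz_eq_zero {ε y : ℝ} (hε : 0 < ε) (hy : y ≤ 0 ∨ 1 ≤ y) : tz ε y = 0 := by
  unfold tz
  refine max_eq_left ((min_le_right _ _).trans ?_)
  rcases hy with h | h
  · exact (min_le_left _ _).trans (div_nonpos_of_nonpos_of_nonneg h hε.le)
  · exact (min_le_right _ _).trans (div_nonpos_of_nonpos_of_nonneg (by linarith) hε.le)

lemma tz_eq_one {ε y : ℝ} (hε : 0 < ε) (h1 : ε ≤ y) (h2 : y ≤ 1 - ε) : tz ε y = 1 := by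
  unfold tz
  have a1 : 1 ≤ y / ε := by rw [le_div_iff₀ hε]; linarith
  have a2 : 1 ≤ (1 - y) / ε := by rw [le_div_iff₀ hε]; linarith
  rw [min_eq_left (le_min a1 a2), max_eq_right zero_le_one]

/-- smooth ramp -/
noncomputable def th (ε y : ℝ) : ℝ := ∫ t in (0:ℝ)..y, tz ε t

lemma th_hasDeriv (ε y : ℝ) : HasDerivAt (th ε) (tz ε y) y :=
  intervalIntegral.integral_hasDerivAt_right ((tz_cont ε).intervalIntegrable _ _)
    (tz_cont ε).aestronglyMeasurable.stronglyMeasurableAtFilter (tz_cont ε).continuousAt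

lemma th_mono (ε : ℝ) : Monotone (th ε) :=
  monotone_of_hasDerivAt_nonneg (fun y => th_hasDeriv ε y) fun y => tz_nonneg ε y

lemma th_of_nonpos {ε y : ℝ} (hε : 0 < ε) (hy : y ≤ 0) : th ε y = 0 := by
  unfold th
  rw [intervalIntegral.integral_symm, intervalIntegral.integral_zero_ae]
  · simp
  · refine Filter.Eventually.of_forall fun t ht => ?_
    rw [Set.uIoc_of_le hy] at ht
    exact tz_eq_zero hε (Or.inl ht.2)

lemma th_of_one_le {ε y : ℝ} (hε : 0 < ε) (hy : 1 ≤ y) : th ε y = th ε 1 := by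
  unfold th
  rw [← intervalIntegral.integral_add_adjacent_intervals (b := (1:ℝ))
    ((tz_cont ε).intervalIntegrable _ _) ((tz_cont ε).intervalIntegrable _ _),
    intervalIntegral.integral_zero_ae (a := (1:ℝ)), add_zero]
  refine Filter.Eventually.of_forall fun t ht => ?_
  rw [Set.uIoc_of_le hy] at ht
  exact tz_eq_zero hε (Or.inr ht.1.le)

lemma th_one_le (ε : ℝ) : th ε 1 ≤ 1 := by
  unfold th
  have : ∫ t in (0:ℝ)..1, tz ε t ≤ ∫ _t in (0:ℝ)..1, (1:ℝ) :=
    intervalIntegral.integral_mono_on zero_le_one ((tz_cont ε).intervalIntegrable _ _)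
      (by simp) fun t _ => tz_le_one ε t
  simpa using this

lemma le_th_one {ε : ℝ} (hε : 0 < ε) (h2 : 2 * ε ≤ 1) : 1 - 2 * ε ≤ th ε 1 := by
  unfold th
  have hi : ∀ a b : ℝ, IntervalIntegrable (tz ε) volume a b := fun a b =>
    (tz_cont ε).intervalIntegrable _ _
  rw [← intervalIntegral.integral_add_adjacent_intervals (hi 0 ε) (hi ε 1),
    ← intervalIntegral.integral_add_adjacent_intervals (hi ε (1 - ε)) (hi (1 - ε) 1)]
  have a1 : 0 ≤ ∫ t in (0:ℝ)..ε, tz ε t :=
    intervalIntegral.integral_nonneg hε.le fun t _ => tz_nonneg ε t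
  have a2 : 0 ≤ ∫ t in (1 - ε)..1, tz ε t :=
    intervalIntegral.integral_nonneg (by linarith) fun t _ => tz_nonneg ε t
  have a3 : ∫ t in ε..(1 - ε), tz ε t = ∫ _t in ε..(1 - ε), (1:ℝ) := by
    refine intervalIntegral.integral_congr fun t ht => ?_
    rw [Set.uIcc_of_le (by linarith)] at ht
    exact tz_eq_one hε ht.1 ht.2
  rw [a3]
  simp only [intervalIntegral.integral_const, smul_eq_mul, mul_one]
  linarith

lemma th_contDiff (ε : ℝ) : ContDiff ℝ 1 (th ε) := by
  rw [contDiff_one_iff_deriv]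
  refine ⟨fun y => (th_hasDeriv ε y).differentiableAt, ?_⟩
  have : deriv (th ε) = tz ε := funext fun y => (th_hasDeriv ε y).deriv
  rw [this]
  exact tz_cont ε

/-- A probability measure on the line satisfies the Poincare inequality with constant `C`, for
test functions with a compactly supported continuous derivative. -/
def Poinc (ν : Measure ℝ) (C : ℝ) : Prop :=
  ∀ g : ℝ → ℝ, ContDiff ℝ 1 g → HasCompactSupport (deriv g) →
    ProbabilityTheory.variance g ν ≤ C * ∫ x, (deriv g x) ^ 2 ∂ν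

variable {m : ℕ}

/-- the interpolation -/
noncomputable def Ge (ε : ℝ) (Q : Fin (m+1) → ℝ) (g : Fin (m+1) → ℝ) (x : ℝ) : ℝ :=
  g 0 + ∑ a : Fin m, inc g a * th ε ((x - Q a.castSucc) / inc Q a)

lemma Ge_hasDeriv {ε : ℝ} {Q g : Fin (m+1) → ℝ} (x : ℝ) :
    HasDerivAt (Ge ε Q g)
      (∑ a : Fin m, inc g a / inc Q a * tz ε ((x - Q a.castSucc) / inc Q a)) x := by
  unfold Ge
  have h : ∀ a ∈ (Finset.univ : Finset (Fin m)), HasDerivAt
      (fun x => inc g a * th ε ((x - Q a.castSucc) / inc Q a))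
      (inc g a / inc Q a * tz ε ((x - Q a.castSucc) / inc Q a)) x := by
    intro a _
    have h1 : HasDerivAt (fun x : ℝ => (x - Q a.castSucc) / inc Q a) (1 / inc Q a) x :=
      ((hasDerivAt_id x).sub_const _).div_const _
    have h2 := ((th_hasDeriv ε ((x - Q a.castSucc) / inc Q a)).comp x h1).const_mul (inc g a)
    refine h2.congr_deriv ?_
    ring
  have := HasDerivAt.fun_sum h
  exact this.const_add (g 0)

lemma Ge_contDiff (ε : ℝ) (Q g : Fin (m+1) → ℝ) : ContDiff ℝ 1 (Ge ε Q g) := by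
  unfold Ge
  refine contDiff_const.add (ContDiff.sum fun a _ => contDiff_const.mul ?_)
  exact (th_contDiff ε).comp ((contDiff_id.sub contDiff_const).div_const _)

/-- position of `x` in the cell `a` -/
lemma cell_other {Q : Fin (m+1) → ℝ} (hQ : StrictMono Q) {a b : Fin m} (hab : a ≠ b) {x : ℝ}
    (hx : x ∈ Set.Ioo (Q a.castSucc) (Q a.succ)) :
    (b < a ∧ 1 ≤ (x - Q b.castSucc) / inc Q b) ∨ (a < b ∧ (x - Q b.castSucc) / inc Q b ≤ 0) := by
  have hb : 0 < inc Q b := by
    unfold inc; linarith [hQ (castSucc_lt_succ' b)]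
  rcases lt_or_gt_of_ne hab with h | h
  · right
    refine ⟨h, div_nonpos_of_nonpos_of_nonneg ?_ hb.le⟩
    have : Q a.succ ≤ Q b.castSucc := hQ.monotone (by
      rw [Fin.le_def]; simp only [Fin.val_succ, Fin.val_castSucc]; exact h)
    linarith [hx.2]
  · left
    refine ⟨h, ?_⟩
    rw [le_div_iff₀ hb, one_mul]
    have : Q b.succ ≤ Q a.castSucc := hQ.monotone (by
      rw [Fin.le_def]; simp only [Fin.val_succ, Fin.val_castSucc]; exact h)
    unfold inc
    linarith [hx.1]

lemma partial_sum (g : Fin (m+1) → ℝ) (a : Fin m) :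
    g a.succ = g 0 + ∑ b : Fin m, (if b ≤ a then inc g b else 0) := by
  have key : ∀ k : ℕ, ∀ hk : k < m + 1,
      g ⟨k, hk⟩ = g 0 + ∑ b : Fin m, (if b.val < k then inc g b else 0) := by
    intro k
    induction k with
    | zero => intro hk; simp
    | succ k ih =>
      intro hk
      have hk' : k < m := by omega
      have h1 := ih (by omega)
      have h2 : ∑ b : Fin m, (if b.val < k + 1 then inc g b else 0)
          = ∑ b : Fin m, (if b.val < k then inc g b else 0) + inc g ⟨k, hk'⟩ := by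
        have : ∀ b : Fin m, (if b.val < k + 1 then inc g b else 0)
            = (if b.val < k then inc g b else 0) + (if b = ⟨k, hk'⟩ then inc g b else 0) := by
          intro b
          by_cases hb1 : b.val < k
          · have : b ≠ ⟨k, hk'⟩ := by
              intro h; rw [h] at hb1; simp at hb1
            rw [if_pos (by omega), if_pos hb1, if_neg this, add_zero]
          · by_cases hb2 : b = ⟨k, hk'⟩
            · rw [hb2]; simp
            · have hb3 : b.val ≠ k := fun h => hb2 (Fin.ext h)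
              rw [if_neg (by omega), if_neg hb1, if_neg hb2, add_zero]
        simp only [this, Finset.sum_add_distrib]
        rw [Finset.sum_ite_eq' Finset.univ (⟨k, hk'⟩ : Fin m)]
        simp
      rw [h2, ← add_assoc, ← h1]
      unfold inc
      have e1 : (⟨k, hk'⟩ : Fin m).succ = ⟨k + 1, hk⟩ := rfl
      have e2 : (⟨k, hk'⟩ : Fin m).castSucc = ⟨k, by omega⟩ := rfl
      rw [e1, e2]
      ring
  have := key (a.val + 1) (by have := a.2; omega)
  have e : (⟨a.val + 1, by have := a.2; omega⟩ : Fin (m+1)) = a.succ := rfl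
  rw [e] at this
  rw [this]
  congr 1
  refine Finset.sum_congr rfl fun b _ => ?_
  congr 1
  rw [Fin.le_def, Nat.lt_succ_iff]

lemma Ge_left {ε : ℝ} (hε : 0 < ε) {Q g : Fin (m+1) → ℝ} (hQ : StrictMono Q) {x : ℝ}
    (hx : x ≤ Q 0) : Ge ε Q g x = g 0 := by
  unfold Ge
  rw [Finset.sum_eq_zero, add_zero]
  intro a _
  have ha : 0 < inc Q a := by unfold inc; linarith [hQ (castSucc_lt_succ' a)]
  have : Q 0 ≤ Q a.castSucc := hQ.monotone (Fin.zero_le _)
  rw [th_of_nonpos hε (div_nonpos_of_nonpos_of_nonneg (by linarith) ha.le), mul_zero]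

lemma Ge_cell {ε : ℝ} (hε : 0 < ε) (hε2 : 2 * ε ≤ 1) {Q g : Fin (m+1) → ℝ} (hQ : StrictMono Q)
    {x : ℝ} {a : Fin m} (hx : x ∈ Set.Ioo (Q a.castSucc) (Q a.succ)) :
    |Ge ε Q g x - g a.succ| ≤ |inc g a| + 2 * ε * ∑ b, |inc g b| := by
  rw [partial_sum g a]
  unfold Ge
  have ha : 0 < inc Q a := by unfold inc; linarith [hQ (castSucc_lt_succ' a)]
  have e : g 0 + ∑ b : Fin m, inc g b * th ε ((x - Q b.castSucc) / inc Q b)
      - (g 0 + ∑ b : Fin m, (if b ≤ a then inc g b else 0))
      = ∑ b : Fin m, (inc g b * th ε ((x - Q b.castSucc) / inc Q b)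
        - (if b ≤ a then inc g b else 0)) := by
    rw [Finset.sum_sub_distrib]; ring
  rw [e]
  have hterm : ∀ b : Fin m, |inc g b * th ε ((x - Q b.castSucc) / inc Q b)
        - (if b ≤ a then inc g b else 0)| ≤ (if b = a then |inc g a| else 0)
          + 2 * ε * |inc g b| := by
    intro b
    by_cases hb : b = a
    · subst hb
      rw [if_pos le_rfl, if_pos rfl]
      have h1 : 0 ≤ th ε ((x - Q b.castSucc) / inc Q b) := by
        have : th ε 0 ≤ th ε ((x - Q b.castSucc) / inc Q b) :=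
          th_mono ε (div_nonneg (by linarith [hx.1]) ha.le)
        rwa [th_of_nonpos hε le_rfl] at this
      have h2 : th ε ((x - Q b.castSucc) / inc Q b) ≤ 1 := by
        refine (th_mono ε ?_).trans (th_one_le ε)
        rw [div_le_one ha]; unfold inc; linarith [hx.2]
      have h3 : |inc g b * th ε ((x - Q b.castSucc) / inc Q b) - inc g b|
          = |inc g b| * (1 - th ε ((x - Q b.castSucc) / inc Q b)) := by
        rw [← abs_of_nonneg (by linarith : 0 ≤ 1 - th ε ((x - Q b.castSucc) / inc Q b)),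
          ← abs_mul, ← abs_neg]
        congr 1; ring
      rw [h3]
      have h4 : |inc g b| * (1 - th ε ((x - Q b.castSucc) / inc Q b)) ≤ |inc g b| * 1 :=
        mul_le_mul_of_nonneg_left (by linarith) (abs_nonneg _)
      have h5 : 0 ≤ 2 * ε * |inc g b| := by positivity
      linarith
    · rw [if_neg hb]
      rcases cell_other hQ (Ne.symm hb) hx with ⟨h1, h2⟩ | ⟨h1, h2⟩
      · rw [if_pos h1.le, th_of_one_le hε h2]
        have h3 := th_one_le ε
        have h4 := le_th_one hε hε2
        have h5 : |inc g b * th ε 1 - inc g b| = |inc g b| * (1 - th ε 1) := by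
          rw [← abs_of_nonneg (by linarith : 0 ≤ 1 - th ε 1), ← abs_mul, ← abs_neg]
          congr 1; ring
        rw [h5, zero_add, mul_comm (2 * ε)]
        exact mul_le_mul_of_nonneg_left (by linarith) (abs_nonneg _)
      · rw [if_neg (not_le.2 h1), th_of_nonpos hε h2]
        simp only [mul_zero, sub_zero, abs_zero, zero_add]
        positivity
  refine (Finset.abs_sum_le_sum_abs _ _).trans ((Finset.sum_le_sum fun b _ => hterm b).trans ?_)
  rw [Finset.sum_add_distrib, Finset.sum_ite_eq', ← Finset.mul_sum]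
  simp

lemma Ge_deriv_sq {ε : ℝ} (hε : 0 < ε) {Q g : Fin (m+1) → ℝ} (hQ : StrictMono Q) (x : ℝ) :
    (deriv (Ge ε Q g) x) ^ 2 ≤
      ∑ a : Fin m, (Set.Ioo (Q a.castSucc) (Q a.succ)).indicator
        (fun _ => (1 / inc Q a ^ 2) * (inc g a) ^ 2) x := by
  rw [(Ge_hasDeriv x).deriv]
  have hpos : ∀ a : Fin m, 0 < inc Q a := fun a => by
    unfold inc; linarith [hQ (castSucc_lt_succ' a)]
  have hnn : 0 ≤ ∑ a : Fin m, (Set.Ioo (Q a.castSucc) (Q a.succ)).indicator
        (fun _ => (1 / inc Q a ^ 2) * (inc g a) ^ 2) x := by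
    refine Finset.sum_nonneg fun a _ => Set.indicator_nonneg (fun _ _ => ?_) _
    have := hpos a
    positivity
  by_cases hx : ∃ a : Fin m, x ∈ Set.Ioo (Q a.castSucc) (Q a.succ)
  · obtain ⟨a, ha⟩ := hx
    rw [Finset.sum_eq_single a]
    · have h1 : (inc g a / inc Q a * tz ε ((x - Q a.castSucc) / inc Q a)) ^ 2
          ≤ (1 / inc Q a ^ 2) * (inc g a) ^ 2 := by
        have h2 : tz ε ((x - Q a.castSucc) / inc Q a) ^ 2 ≤ 1 := by
          have := tz_le_one ε ((x - Q a.castSucc) / inc Q a)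
          have h0 := tz_nonneg ε ((x - Q a.castSucc) / inc Q a)
          nlinarith
        have hp := hpos a
        calc _ = ((1 / inc Q a ^ 2) * (inc g a) ^ 2) * tz ε ((x - Q a.castSucc) / inc Q a) ^ 2 := by
              field_simp
          _ ≤ ((1 / inc Q a ^ 2) * (inc g a) ^ 2) * 1 :=
              mul_le_mul_of_nonneg_left h2 (by positivity)
          _ = _ := mul_one _
      refine h1.trans ?_
      have h3 : (1 / inc Q a ^ 2) * (inc g a) ^ 2
          = (Set.Ioo (Q a.castSucc) (Q a.succ)).indicator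
            (fun _ => (1 / inc Q a ^ 2) * (inc g a) ^ 2) x := by
        rw [Set.indicator_of_mem ha]
      rw [h3]
      refine Finset.single_le_sum (f := fun a : Fin m =>
        (Set.Ioo (Q a.castSucc) (Q a.succ)).indicator
          (fun _ => (1 / inc Q a ^ 2) * (inc g a) ^ 2) x) (fun b _ => ?_) (Finset.mem_univ a)
      refine Set.indicator_nonneg (fun _ _ => ?_) _
      have := hpos b
      positivity
    · intro b _ hb
      rcases cell_other hQ (Ne.symm hb) ha with ⟨_, h2⟩ | ⟨_, h2⟩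
      · rw [tz_eq_zero hε (Or.inr h2), mul_zero]
      · rw [tz_eq_zero hε (Or.inl h2), mul_zero]
    · intro h; exact absurd (Finset.mem_univ _) h
  · rw [Finset.sum_eq_zero]
    · simpa using hnn
    · intro a _
      push Not at hx
      have h1 := hx a
      rw [Set.mem_Ioo, not_and_or, not_lt, not_lt] at h1
      have hp := hpos a
      rcases h1 with h | h
      · rw [tz_eq_zero hε (Or.inl (div_nonpos_of_nonpos_of_nonneg (by linarith) hp.le)), mul_zero]
      · rw [tz_eq_zero hε (Or.inr ?_), mul_zero]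
        rw [le_div_iff₀ hp, one_mul]; unfold inc; linarith

lemma Ge_compact {ε : ℝ} (hε : 0 < ε) {Q g : Fin (m+1) → ℝ} (hQ : StrictMono Q) :
    HasCompactSupport (deriv (Ge ε Q g)) := by
  refine HasCompactSupport.intro (K := Set.Icc (Q 0) (Q (Fin.last m))) isCompact_Icc ?_
  intro x hx
  have h1 := Ge_deriv_sq (g := g) hε hQ x
  have h2 : ∑ a : Fin m, (Set.Ioo (Q a.castSucc) (Q a.succ)).indicator
        (fun _ => (1 / inc Q a ^ 2) * (inc g a) ^ 2) x = 0 := by
    refine Finset.sum_eq_zero fun a _ => Set.indicator_of_notMem ?_ _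
    intro h
    apply hx
    exact ⟨(hQ.monotone (Fin.zero_le _)).trans h.1.le, h.2.le.trans (hQ.monotone (Fin.le_last _))⟩
  rw [h2] at h1
  have h3 : (deriv (Ge ε Q g) x) ^ 2 = 0 := le_antisymm h1 (sq_nonneg _)
  exact pow_eq_zero_iff (two_ne_zero) |>.1 h3

end Pool.Agent.K6.H24.OP
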