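import Pool.Agent.K6.H24.OP.C1

/-!
# The one-particle inequality from the Poincare inequality of a measure on the line
-/

namespace Pool.Agent.K6.H24.OP

open Finset MeasureTheory Filter Topology

set_option linter.unusedSectionVars false

variable {m : ℕ}

lemma Ge_bound {ε : ℝ} (hε : 0 < ε) {Q g : Fin (m+1) → ℝ} (x : ℝ) :
    |Ge ε Q g x| ≤ |g 0| + ∑ a, |inc g a| := by
  unfold Ge
  refine (abs_add_le _ _).trans (add_le_add le_rfl ?_)
  refine (Finset.abs_sum_le_sum_abs _ _).trans (Finset.sum_le_sum fun a _ => ?_)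
  rw [abs_mul]
  have h1 : |th ε ((x - Q a.castSucc) / inc Q a)| ≤ 1 := by
    set y := (x - Q a.castSucc) / inc Q a
    have h0 : 0 ≤ th ε y := by
      rcases le_total y 0 with h | h
      · rw [th_of_nonpos hε h]
      · have := th_mono ε h
        rwa [th_of_nonpos hε le_rfl] at this
    have h2 : th ε y ≤ 1 := by
      rcases le_total y 1 with h | h
      · exact (th_mono ε h).trans (th_one_le ε)
      · rw [th_of_one_le hε h]; exact th_one_le ε
    rw [abs_of_nonneg h0]; exact h2
  calc |inc g a| * |th ε ((x - Q a.castSucc) / inc Q a)| ≤ |inc g a| * 1 :=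
        mul_le_mul_of_nonneg_left h1 (abs_nonneg _)
    _ = _ := mul_one _

lemma young {t u v : ℝ} (ht : 0 < t) : (u + v) ^ 2 ≤ (1 + t) * u ^ 2 + (1 + 1 / t) * v ^ 2 := by
  have h : 0 ≤ (t * u - v) ^ 2 / t := by positivity
  have e : (1 + t) * u ^ 2 + (1 + 1 / t) * v ^ 2 - (u + v) ^ 2 = (t * u - v) ^ 2 / t := by
    field_simp; ring
  linarith

/-- **The one-particle inequality.** -/
theorem one_of_poinc {ν : Measure ℝ} [IsProbabilityMeasure ν] {C : ℝ} (hC : 0 ≤ C)
    (hP : Poinc ν C) {Q : Fin (m+1) → ℝ} (hQ : StrictMono Q) {π : ℝ} (hπ : 0 < π)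
    (hcell : ∀ a : Fin m, ν.real (Set.Ioo (Q a.castSucc) (Q a.succ)) = π)
    (h0 : π ≤ ν.real (Set.Iic (Q 0))) {t δ : ℝ} (ht : 0 < t) (hδ : ∀ a, inc Q a ≤ δ)
    (g : Fin (m+1) → ℝ) (hg : ∑ s, g s = 0) :
    ∑ s, g s ^ 2 ≤ ((1 + t) * C + (1 + 1 / t) * δ ^ 2) *
      ∑ a, (1 / inc Q a ^ 2) * (inc g a) ^ 2 := by
  have hpos : ∀ a : Fin m, 0 < inc Q a := fun a => by
    unfold inc; linarith [hQ (castSucc_lt_succ' a)]
  set T : ℝ := ∑ b, |inc g b| with hT
  set D : ℝ := ∑ a, (1 / inc Q a ^ 2) * (inc g a) ^ 2 with hD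
  have main : ∀ ε : ℝ, 0 < ε → 2 * ε ≤ 1 →
      ∑ s, g s ^ 2 ≤ (1 + t) * (C * D) + (1 + 1 / t) * ∑ a : Fin m, (|inc g a| + 2 * ε * T) ^ 2 := by
    intro ε hε hε2
    set G := Ge ε Q g with hG
    have hGc : ContDiff ℝ 1 G := Ge_contDiff ε Q g
    have hGb : ∀ x, |G x| ≤ |g 0| + T := fun x => Ge_bound hε x
    have hGi : Integrable G ν := by
      refine Integrable.of_bound hGc.continuous.aestronglyMeasurable (|g 0| + T)
        (Filter.Eventually.of_forall fun x => ?_)
      rw [Real.norm_eq_abs]; exact hGb x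
    set c : ℝ := ∫ x, G x ∂ν with hc
    have hvar := hP G hGc (Ge_compact hε hQ)
    rw [ProbabilityTheory.variance_eq_integral hGc.continuous.aemeasurable] at hvar
    have hi2 : Integrable (fun x => (G x - c) ^ 2) ν := by
      refine Integrable.of_bound ((hGc.continuous.sub continuous_const).pow 2).aestronglyMeasurable
        ((|g 0| + T + |c|) ^ 2) (Filter.Eventually.of_forall fun x => ?_)
      rw [Real.norm_eq_abs, abs_pow]
      refine pow_le_pow_left₀ (abs_nonneg _) ?_ 2
      refine (abs_sub _ _).trans ?_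
      linarith [hGb x]
    have hind : ∀ (a : Fin m) (v : ℝ), Integrable
        ((Set.Ioo (Q a.castSucc) (Q a.succ)).indicator fun _ => v) ν := fun a v =>
      (integrable_const v).indicator measurableSet_Ioo
    have hintind : ∀ (a : Fin m) (v : ℝ),
        ∫ x, (Set.Ioo (Q a.castSucc) (Q a.succ)).indicator (fun _ => v) x ∂ν = π * v := by
      intro a v
      rw [integral_indicator measurableSet_Ioo, setIntegral_const, smul_eq_mul]
      rw [← hcell a]
    -- the Dirichlet form
    have hdir : ∫ x, (deriv G x) ^ 2 ∂ν ≤ π * D := by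
      have h1 : ∫ x, (deriv G x) ^ 2 ∂ν ≤ ∫ x, ∑ a : Fin m,
          (Set.Ioo (Q a.castSucc) (Q a.succ)).indicator
            (fun _ => (1 / inc Q a ^ 2) * (inc g a) ^ 2) x ∂ν := by
        refine integral_mono_of_nonneg (Filter.Eventually.of_forall fun x => sq_nonneg _)
          (integrable_finsetSum _ fun a _ => hind a _)
          (Filter.Eventually.of_forall fun x => Ge_deriv_sq hε hQ x)
      refine h1.trans (le_of_eq ?_)
      rw [integral_finsetSum _ fun a _ => hind a _, hD, Finset.mul_sum]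
      exact Finset.sum_congr rfl fun a _ => hintind a _
    -- the pointwise bound
    have hpt : ∀ x, (Set.Iic (Q 0)).indicator (fun _ => (g 0 - c) ^ 2) x
        + ∑ a : Fin m, (Set.Ioo (Q a.castSucc) (Q a.succ)).indicator
            (fun _ => (g a.succ - c) ^ 2) x
        ≤ (1 + t) * (G x - c) ^ 2 + (1 + 1 / t) * ∑ a : Fin m,
          (Set.Ioo (Q a.castSucc) (Q a.succ)).indicator
            (fun _ => (|inc g a| + 2 * ε * T) ^ 2) x := by
      intro x
      have hr0 : 0 ≤ ∑ a : Fin m, (Set.Ioo (Q a.castSucc) (Q a.succ)).indicator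
            (fun _ => (|inc g a| + 2 * ε * T) ^ 2) x :=
        Finset.sum_nonneg fun a _ => Set.indicator_nonneg (fun _ _ => sq_nonneg _) _
      have ht1 : 0 ≤ 1 + 1 / t := by positivity
      by_cases hx : ∃ a : Fin m, x ∈ Set.Ioo (Q a.castSucc) (Q a.succ)
      · obtain ⟨a, ha⟩ := hx
        have hxQ : x ∉ Set.Iic (Q 0) := by
          intro h
          have : Q 0 ≤ Q a.castSucc := hQ.monotone (Fin.zero_le _)
          exact absurd (lt_of_le_of_lt (h.trans this) ha.1) (lt_irrefl _)
        have huniq : ∀ b : Fin m, b ≠ a → x ∉ Set.Ioo (Q b.castSucc) (Q b.succ) := by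
          intro b hb hxb
          rcases lt_or_gt_of_ne hb with h | h
          · have : Q b.succ ≤ Q a.castSucc := hQ.monotone (by
              rw [Fin.le_def]; simp only [Fin.val_succ, Fin.val_castSucc]; exact h)
            linarith [hxb.2, ha.1]
          · have : Q a.succ ≤ Q b.castSucc := hQ.monotone (by
              rw [Fin.le_def]; simp only [Fin.val_succ, Fin.val_castSucc]; exact h)
            linarith [hxb.1, ha.2]
        rw [Set.indicator_of_notMem hxQ, zero_add, Finset.sum_eq_single a, Finset.sum_eq_single a,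
          Set.indicator_of_mem ha, Set.indicator_of_mem ha]
        · have h1 := young (u := G x - c) (v := g a.succ - G x) ht
          have h2 : (g a.succ - G x) ^ 2 ≤ (|inc g a| + 2 * ε * T) ^ 2 := by
            rw [← sq_abs, abs_sub_comm]
            exact pow_le_pow_left₀ (abs_nonneg _) (Ge_cell hε hε2 hQ ha) 2
          have e : g a.succ - c = (G x - c) + (g a.succ - G x) := by ring
          rw [e]
          have := mul_le_mul_of_nonneg_left h2 ht1
          linarith
        · intro b _ hb; exact Set.indicator_of_notMem (huniq b hb) _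
        · intro h; exact absurd (Finset.mem_univ _) h
        · intro b _ hb; exact Set.indicator_of_notMem (huniq b hb) _
        · intro h; exact absurd (Finset.mem_univ _) h
      · push Not at hx
        rw [Finset.sum_eq_zero (fun a _ => Set.indicator_of_notMem (hx a) _), add_zero]
        by_cases hxQ : x ∈ Set.Iic (Q 0)
        · rw [Set.indicator_of_mem hxQ]
          have : G x = g 0 := Ge_left hε hQ hxQ
          rw [this]
          have h3 := mul_nonneg ht1 hr0
          nlinarith [sq_nonneg (g 0 - c)]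
        · rw [Set.indicator_of_notMem hxQ]
          have h3 := mul_nonneg ht1 hr0
          have : 0 ≤ (1 + t) * (G x - c) ^ 2 := by positivity
          linarith
    have hint := integral_mono (μ := ν)
      (((integrable_const ((g 0 - c) ^ 2)).indicator measurableSet_Iic).add
        (integrable_finsetSum _ fun a _ => hind a _))
      ((hi2.const_mul (1 + t)).add ((integrable_finsetSum _ fun a _ => hind a _).const_mul (1 + 1/t)))
      hpt
    simp only [Pi.add_apply] at hint
    rw [integral_add ((integrable_const ((g 0 - c) ^ 2)).indicator measurableSet_Iic)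
        (integrable_finsetSum _ fun a _ => hind a _),
      integral_add (hi2.const_mul (1 + t))
        ((integrable_finsetSum _ fun a _ => hind a _).const_mul (1 + 1/t)),
      integral_const_mul, integral_const_mul,
      integral_finsetSum _ fun a _ => hind a _, integral_finsetSum _ fun a _ => hind a _,
      integral_indicator measurableSet_Iic, setIntegral_const, smul_eq_mul] at hint
    simp only [hintind, ← Finset.mul_sum] at hint
    -- assemble
    have hL : π * ∑ s, (g s - c) ^ 2 ≤ ν.real (Set.Iic (Q 0)) * (g 0 - c) ^ 2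
        + π * ∑ a : Fin m, (g a.succ - c) ^ 2 := by
      rw [Fin.sum_univ_succ, mul_add]
      have := mul_le_mul_of_nonneg_right h0 (sq_nonneg (g 0 - c))
      linarith
    have hL2 : ∑ s, g s ^ 2 ≤ ∑ s, (g s - c) ^ 2 := by
      have e : ∑ s, (g s - c) ^ 2 = ∑ s, g s ^ 2 - 2 * c * ∑ s, g s + ∑ _s : Fin (m+1), c ^ 2 := by
        rw [Finset.mul_sum, ← Finset.sum_sub_distrib, ← Finset.sum_add_distrib]
        exact Finset.sum_congr rfl fun s _ => by ring
      rw [e, hg]
      have : 0 ≤ ∑ _s : Fin (m+1), c ^ 2 := Finset.sum_nonneg fun _ _ => sq_nonneg _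
      linarith
    have hV : ∫ x, (G x - c) ^ 2 ∂ν ≤ π * (C * D) := by
      refine hvar.trans ?_
      calc C * ∫ x, (deriv G x) ^ 2 ∂ν ≤ C * (π * D) := mul_le_mul_of_nonneg_left hdir hC
        _ = _ := by ring
    have hV2 := mul_le_mul_of_nonneg_left hV (by positivity : 0 ≤ 1 + t)
    have hfin : π * ∑ s, g s ^ 2 ≤ π * ((1 + t) * (C * D)
        + (1 + 1 / t) * ∑ a : Fin m, (|inc g a| + 2 * ε * T) ^ 2) := by
      have h5 := mul_le_mul_of_nonneg_left hL2 hπ.le
      linarith
    exact le_of_mul_le_mul_left hfin hπ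
  -- the limit
  have hlim : Tendsto (fun ε : ℝ => (1 + t) * (C * D)
      + (1 + 1 / t) * ∑ a : Fin m, (|inc g a| + 2 * ε * T) ^ 2) (𝓝[>] 0)
      (𝓝 ((1 + t) * (C * D) + (1 + 1 / t) * ∑ a : Fin m, (|inc g a| + 2 * 0 * T) ^ 2)) := by
    refine Tendsto.mono_left ?_ nhdsWithin_le_nhds
    refine Continuous.tendsto ?_ 0
    fun_prop
  have h1 : ∑ s, g s ^ 2 ≤ (1 + t) * (C * D)
      + (1 + 1 / t) * ∑ a : Fin m, (|inc g a| + 2 * 0 * T) ^ 2 := by
    have hmem : Set.Ioc (0:ℝ) (1/2) ∈ 𝓝[>] (0:ℝ) := Ioc_mem_nhdsGT (by norm_num)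
    refine ge_of_tendsto hlim ?_
    filter_upwards [hmem] with ε hε
    have h2ε : 2 * ε ≤ 1 := by have := hε.2; linarith
    exact main ε hε.1 h2ε
  have h2 : ∑ a : Fin m, (|inc g a| + 2 * 0 * T) ^ 2 ≤ δ ^ 2 * D := by
    have eD : δ ^ 2 * D = ∑ a : Fin m, δ ^ 2 * ((1 / inc Q a ^ 2) * (inc g a) ^ 2) := by
      rw [hD, Finset.mul_sum]
    rw [eD]
    refine Finset.sum_le_sum fun a _ => ?_
    have hp := hpos a
    have h3 : inc Q a ^ 2 ≤ δ ^ 2 := pow_le_pow_left₀ hp.le (hδ a) 2
    have h4 : (|inc g a| + 2 * 0 * T) ^ 2 = inc Q a ^ 2 * ((1 / inc Q a ^ 2) * (inc g a) ^ 2) := by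
      rw [mul_zero, zero_mul, add_zero, sq_abs]
      field_simp
    rw [h4]
    exact mul_le_mul_of_nonneg_right h3 (by positivity)
  have h3 := mul_le_mul_of_nonneg_left h2 (by positivity : 0 ≤ 1 + 1 / t)
  calc ∑ s, g s ^ 2 ≤ _ := h1
    _ ≤ (1 + t) * (C * D) + (1 + 1 / t) * (δ ^ 2 * D) := by linarith
    _ = _ := by ring

end Pool.Agent.K6.H24.OP
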