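import Pool.Agent.K6.H24.OP.C2

/-!
# The quantile function of a measure with a Poincare inequality
-/

namespace Pool.Agent.K6.H24.OP

open MeasureTheory Filter Topology ProbabilityTheory

set_option linter.unusedSectionVars false

variable {ν : Measure ℝ} [IsProbabilityMeasure ν]

lemma cdf_cont [NullSingletonClass ν] : Continuous (cdf ν) := by
  rw [continuous_iff_continuousAt]
  intro x
  rw [(monotone_cdf ν).continuousAt_iff_leftLim_eq_rightLim]
  have h1 := (cdf ν).measure_singleton x
  rw [measure_cdf, measure_singleton] at h1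
  have h2 : (cdf ν) x - Function.leftLim (cdf ν) x ≤ 0 := ENNReal.ofReal_eq_zero.1 h1.symm
  have h3 : Function.leftLim (cdf ν) x ≤ (cdf ν) x := (monotone_cdf ν).leftLim_le le_rfl
  have h4 : Function.rightLim (cdf ν) x = (cdf ν) x := (cdf ν).rightLim_eq x
  rw [h4]
  linarith

/-- The distribution function increases strictly where it is in `(0,1)`. -/
lemma cdf_strict [NullSingletonClass ν] {C : ℝ} (hP : Poinc ν C) {x y : ℝ} (hxy : x < y)
    (h0 : 0 < cdf ν x) (h1 : cdf ν y < 1) : cdf ν x < cdf ν y := by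
  by_contra hcon
  have heq : cdf ν x = cdf ν y := le_antisymm (monotone_cdf ν hxy.le) (not_lt.1 hcon)
  have hd : 0 < y - x := by linarith
  set g : ℝ → ℝ := fun z => th (1/2) ((z - x) / (y - x)) with hg
  have hgd : ∀ z, HasDerivAt g (tz (1/2) ((z - x) / (y - x)) * (1 / (y - x))) z := by
    intro z
    have h1 : HasDerivAt (fun z : ℝ => (z - x) / (y - x)) (1 / (y - x)) z :=
      ((hasDerivAt_id z).sub_const _).div_const _
    exact (th_hasDeriv (1/2) ((z - x) / (y - x))).comp z h1
  have hgc : ContDiff ℝ 1 g :=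
    (th_contDiff (1/2)).comp ((contDiff_id.sub contDiff_const).div_const _)
  have hout : ∀ z, z ∉ Set.Ioo x y → deriv g z = 0 := by
    intro z hz
    rw [(hgd z).deriv]
    rw [Set.mem_Ioo, not_and_or, not_lt, not_lt] at hz
    rcases hz with h | h
    · rw [tz_eq_zero (by norm_num) (Or.inl (div_nonpos_of_nonpos_of_nonneg (by linarith) hd.le)),
        zero_mul]
    · rw [tz_eq_zero (by norm_num) (Or.inr ?_), zero_mul]
      rw [le_div_iff₀ hd]; linarith
  have hcs : HasCompactSupport (deriv g) :=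
    HasCompactSupport.intro (K := Set.Icc x y) isCompact_Icc fun z hz =>
      hout z fun h => hz ⟨h.1.le, h.2.le⟩
  have hIoc : ν (Set.Ioc x y) = 0 := by
    have := (cdf ν).measure_Ioc x y
    rw [measure_cdf] at this
    rw [this, heq, sub_self, ENNReal.ofReal_zero]
  have hint : ∫ z, (deriv g z) ^ 2 ∂ν = 0 := by
    apply integral_eq_zero_of_ae
    have : ∀ᵐ z ∂ν, z ∉ Set.Ioc x y := measure_eq_zero_iff_ae_notMem.1 hIoc
    filter_upwards [this] with z hz
    rw [hout z fun h => hz ⟨h.1, h.2.le⟩]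
    simp
  have hv := hP g hgc hcs
  rw [hint, mul_zero] at hv
  have hgb : ∀ z, |g z| ≤ 1 := by
    intro z
    have e0 : 0 ≤ g z := by
      rcases le_total ((z - x) / (y - x)) 0 with h | h
      · rw [hg]; simp only; rw [th_of_nonpos (by norm_num) h]
      · have := th_mono (1/2) h
        rwa [th_of_nonpos (by norm_num) le_rfl] at this
    have e1 : g z ≤ 1 := by
      rcases le_total ((z - x) / (y - x)) 1 with h | h
      · exact (th_mono (1/2) h).trans (th_one_le (1/2))
      · rw [hg]; simp only; rw [th_of_one_le (by norm_num) h]; exact th_one_le (1/2)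
    rw [abs_of_nonneg e0]; exact e1
  have hmem : MemLp g 2 ν := MemLp.of_bound hgc.continuous.aestronglyMeasurable 1
    (Filter.Eventually.of_forall fun z => by rw [Real.norm_eq_abs]; exact hgb z)
  have hev : evariance g ν = 0 := by
    have h5 := hmem.ofReal_variance_eq
    rw [← h5, ENNReal.ofReal_eq_zero]
    exact hv
  rw [evariance_eq_zero_iff hgc.continuous.aemeasurable] at hev
  set c := ∫ z, g z ∂ν with hc
  -- the value at the left
  have hA : ν (Set.Iic x) ≠ 0 := by
    rw [← ofReal_cdf ν x]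
    exact (ENNReal.ofReal_pos.2 h0).ne'
  have hB : ν (Set.Ioi y) ≠ 0 := by
    have h6 : ν (Set.Ioi y) = 1 - ν (Set.Iic y) := by
      rw [← Set.compl_Iic, prob_compl_eq_one_sub measurableSet_Iic]
    rw [h6, ← ofReal_cdf ν y]
    intro h7
    rw [tsub_eq_zero_iff_le] at h7
    have : (1:ℝ) ≤ cdf ν y := by
      have := (ENNReal.ofReal_le_ofReal_iff (p := 1) (cdf_nonneg ν y)).1 (by simpa using h7)
      exact this
    linarith
  have hx0 : ∃ z ∈ Set.Iic x, g z = c := by
    by_contra hno
    push Not at hno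
    apply hA
    refine measure_mono_null ?_ (ae_iff.1 hev)
    intro z hz
    exact hno z hz
  have hy0 : ∃ z ∈ Set.Ioi y, g z = c := by
    by_contra hno
    push Not at hno
    apply hB
    refine measure_mono_null ?_ (ae_iff.1 hev)
    intro z hz
    exact hno z hz
  obtain ⟨z1, hz1, hz1'⟩ := hx0
  obtain ⟨z2, hz2, hz2'⟩ := hy0
  have e1 : g z1 = 0 := by
    rw [hg]; simp only
    exact th_of_nonpos (by norm_num) (div_nonpos_of_nonpos_of_nonneg (by
      have : z1 ≤ x := hz1
      linarith) hd.le)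
  have e2 : g z2 = th (1/2) 1 := by
    rw [hg]; simp only
    refine th_of_one_le (by norm_num) ?_
    have : y < z2 := hz2
    rw [le_div_iff₀ hd]; linarith
  have e3 : 0 < th (1/2) 1 := by
    have hq : 0 < ∫ t in (0:ℝ)..1, tz (1/2) t := by
      refine intervalIntegral.intervalIntegral_pos_of_pos_on ((tz_cont (1/2)).intervalIntegrable _ _)
        ?_ zero_lt_one
      intro t ht
      unfold tz
      refine lt_max_of_lt_right (lt_min zero_lt_one (lt_min ?_ ?_))
      · exact div_pos ht.1 (by norm_num)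
      · exact div_pos (by linarith [ht.2]) (by norm_num)
    exact hq
  linarith

lemma cdf_level [NullSingletonClass ν] {p : ℝ} (h0 : 0 < p) (h1 : p < 1) : ∃ x, cdf ν x = p := by
  have hc := cdf_cont (ν := ν)
  have ht0 := tendsto_cdf_atBot ν
  have ht1 := tendsto_cdf_atTop ν
  obtain ⟨x, hx⟩ := (ht0.eventually (gt_mem_nhds h0)).exists
  obtain ⟨y, hy⟩ := (ht1.eventually (lt_mem_nhds h1)).exists
  have hxy : x ≤ y := by
    by_contra h
    have := monotone_cdf ν (not_le.1 h).le
    linarith
  obtain ⟨z, -, hz⟩ := intermediate_value_Icc hxy hc.continuousOn ⟨hx.le, hy.le⟩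
  exact ⟨z, hz⟩

/-- **The truncated quantile function.** -/
theorem exists_quantile [NullSingletonClass ν] {C : ℝ} (hP : Poinc ν C) {η : ℝ} (hη : 0 < η) (hη2 : 2 * η < 1)
    {a b : ℝ} (ha : cdf ν a = η) (hb : cdf ν b = 1 - η) :
    ∃ q : ℝ → ℝ, Continuous q ∧ Monotone q ∧ StrictMonoOn q (Set.Icc 0 1) ∧
      (∀ u, q u ∈ Set.Icc a b) ∧ (∀ u ∈ Set.Icc (0:ℝ) 1, cdf ν (q u) = η + (1 - 2 * η) * u) := by
  have hab : a ≤ b := by
    by_contra h
    have := monotone_cdf ν (not_le.1 h).le
    linarith
  have hηle : η ≤ 1 - η := by linarith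
  have hcd := cdf_cont (ν := ν)
  have hmaps : ∀ x : Set.Icc a b, cdf ν x.1 ∈ Set.Icc η (1 - η) := by
    intro x
    have h1 := monotone_cdf ν x.2.1
    have h2 := monotone_cdf ν x.2.2
    rw [ha] at h1; rw [hb] at h2
    exact ⟨h1, h2⟩
  let f : Set.Icc a b → Set.Icc η (1 - η) := fun x => ⟨cdf ν x.1, hmaps x⟩
  have hmono : StrictMono f := by
    intro x y hxy
    have h1 := (hmaps x).1
    have h2 := (hmaps y).2
    exact cdf_strict hP hxy (by linarith) (by linarith)
  have hsurj : Function.Surjective f := by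
    rintro ⟨p, hp⟩
    have hp' : p ∈ Set.Icc (cdf ν a) (cdf ν b) := by rw [ha, hb]; exact hp
    obtain ⟨x, hx, hxp⟩ := intermediate_value_Icc hab hcd.continuousOn hp'
    exact ⟨⟨x, hx⟩, Subtype.ext hxp⟩
  let e := StrictMono.orderIsoOfSurjective f hmono hsurj
  have he : ∀ p : Set.Icc η (1 - η), cdf ν (e.symm p).1 = p.1 := by
    intro p
    have : f (e.symm p) = p := e.apply_symm_apply p
    exact congrArg Subtype.val this
  refine ⟨fun u => (e.symm (Set.projIcc η (1 - η) hηle (η + (1 - 2 * η) * u))).1, ?_, ?_, ?_, ?_, ?_⟩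
  · refine continuous_subtype_val.comp (e.symm.continuous.comp (continuous_projIcc.comp ?_))
    fun_prop
  · intro u v huv
    have h1 : η + (1 - 2 * η) * u ≤ η + (1 - 2 * η) * v := by
      have := mul_le_mul_of_nonneg_left huv (by linarith : 0 ≤ 1 - 2 * η)
      linarith
    exact e.symm.monotone (Set.monotone_projIcc hηle h1)
  · intro u hu v hv huv
    have h1 : η + (1 - 2 * η) * u < η + (1 - 2 * η) * v := by
      have := mul_lt_mul_of_pos_left huv (by linarith : 0 < 1 - 2 * η)
      linarith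
    have hu' : η + (1 - 2 * η) * u ∈ Set.Icc η (1 - η) := ⟨by nlinarith [hu.1], by nlinarith [hu.2]⟩
    have hv' : η + (1 - 2 * η) * v ∈ Set.Icc η (1 - η) := ⟨by nlinarith [hv.1], by nlinarith [hv.2]⟩
    have h2 : Set.projIcc η (1 - η) hηle (η + (1 - 2 * η) * u)
        < Set.projIcc η (1 - η) hηle (η + (1 - 2 * η) * v) := by
      rw [Set.projIcc_of_mem hηle hu', Set.projIcc_of_mem hηle hv']
      exact h1
    exact e.symm.strictMono h2
  · intro u
    exact (e.symm _).2
  · intro u hu
    have hu' : η + (1 - 2 * η) * u ∈ Set.Icc η (1 - η) := ⟨by nlinarith [hu.1], by nlinarith [hu.2]⟩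
    simp only
    rw [he, Set.projIcc_of_mem hηle hu']

end Pool.Agent.K6.H24.OP
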