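import Pool.Agent.K6.H24.OP.D1

/-!
# Push-forwards by the quantile function
-/

namespace Pool.Agent.K6.H24.OP

open MeasureTheory Filter Topology ProbabilityTheory

set_option linter.unusedSectionVars false

variable {ν : Measure ℝ} [IsProbabilityMeasure ν]

lemma nu_Ioc (x y : ℝ) : ν (Set.Ioc x y) = ENNReal.ofReal (cdf ν y - cdf ν x) := by
  have := (cdf ν).measure_Ioc x y
  rwa [measure_cdf] at this

lemma nu_Icc [NullSingletonClass ν] (x y : ℝ) :
    ν (Set.Icc x y) = ENNReal.ofReal (cdf ν y - cdf ν x) := by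
  rw [← nu_Ioc, measure_congr Ioc_ae_eq_Icc]

lemma nu_Ioo [NullSingletonClass ν] (x y : ℝ) :
    ν (Set.Ioo x y) = ENNReal.ofReal (cdf ν y - cdf ν x) := by
  rw [← nu_Ioc, measure_congr Ioo_ae_eq_Ioc]

/-- The law of `q u`, `u` uniform, is `ν` conditioned on `[a, b]`. -/
theorem map_q [NullSingletonClass ν] {C : ℝ} (hP : Poinc ν C) {η : ℝ} (hη : 0 < η)
    (hη2 : 2 * η < 1) {a b : ℝ} (ha : cdf ν a = η) (hb : cdf ν b = 1 - η) {q : ℝ → ℝ}
    (hqc : Continuous q) (hqab : ∀ u, q u ∈ Set.Icc a b)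
    (hqF : ∀ u ∈ Set.Icc (0:ℝ) 1, cdf ν (q u) = η + (1 - 2 * η) * u) :
    Measure.map q (volume.restrict (Set.Icc (0:ℝ) 1))
      = (ENNReal.ofReal (1 - 2 * η))⁻¹ • ν.restrict (Set.Icc a b) := by
  have hκ : 0 < 1 - 2 * η := by linarith
  have hab : a ≤ b := by
    by_contra h
    have := monotone_cdf ν (not_le.1 h).le
    linarith
  have hfin : IsFiniteMeasure (Measure.map q (volume.restrict (Set.Icc (0:ℝ) 1))) := by
    infer_instance
  apply Measure.ext_of_Iic
  intro x
  rw [Measure.map_apply hqc.measurable measurableSet_Iic,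
    Measure.restrict_apply (hqc.measurable measurableSet_Iic), Measure.smul_apply,
    Measure.restrict_apply measurableSet_Iic, smul_eq_mul]
  rcases lt_or_ge x a with hxa | hxa
  · have e1 : q ⁻¹' Set.Iic x ∩ Set.Icc 0 1 = ∅ := by
      rw [Set.eq_empty_iff_forall_notMem]
      rintro u ⟨h1, -⟩
      have h1' : q u ≤ x := h1
      linarith [(hqab u).1]
    have e2 : Set.Iic x ∩ Set.Icc a b = ∅ := by
      rw [Set.eq_empty_iff_forall_notMem]
      rintro u ⟨h1, h2⟩
      have h1' : u ≤ x := h1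
      linarith [h2.1]
    rw [e1, e2]; simp
  · set y := min x b with hy
    have hya : a ≤ y := le_min hxa hab
    have hyb : y ≤ b := min_le_right _ _
    have hFy1 : η ≤ cdf ν y := by rw [← ha]; exact monotone_cdf ν hya
    have hFy2 : cdf ν y ≤ 1 - η := by rw [← hb]; exact monotone_cdf ν hyb
    have e2 : Set.Iic x ∩ Set.Icc a b = Set.Icc a y := by
      ext u
      simp only [Set.mem_inter_iff, Set.mem_Iic, Set.mem_Icc, hy, le_min_iff]
      tauto
    have e1 : q ⁻¹' Set.Iic x ∩ Set.Icc 0 1 = Set.Icc 0 ((cdf ν y - η) / (1 - 2 * η)) := by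
      ext u
      simp only [Set.mem_inter_iff, Set.mem_preimage, Set.mem_Iic, Set.mem_Icc]
      have key : ∀ (h0 : 0 ≤ u) (h1 : u ≤ 1), q u ≤ x ↔ u ≤ (cdf ν y - η) / (1 - 2 * η) := by
        intro h0 h1
        have hF := hqF u ⟨h0, h1⟩
        rw [le_div_iff₀ hκ]
        constructor
        · intro h
          have h2 : q u ≤ y := le_min h (hqab u).2
          have := monotone_cdf ν h2
          rw [hF] at this
          linarith
        · intro h
          by_contra hcon
          push Not at hcon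
          have h2 : y < q u := lt_of_le_of_lt (min_le_left _ _) hcon
          have h3 : cdf ν (q u) < 1 := by
            rw [hF]; nlinarith
          have := cdf_strict hP h2 (by linarith) h3
          rw [hF] at this
          linarith
      constructor
      · rintro ⟨h, h0, h1⟩
        exact ⟨h0, (key h0 h1).1 h⟩
      · rintro ⟨h0, h⟩
        have h1 : u ≤ 1 := by
          refine h.trans ?_
          rw [div_le_one hκ]; linarith
        exact ⟨(key h0 h1).2 h, h0, h1⟩
    rw [e1, e2, Real.volume_Icc, nu_Icc, ha, sub_zero,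
      ENNReal.ofReal_div_of_pos hκ, ENNReal.div_eq_inv_mul]

variable {ι : Type*} [Fintype ι] [DecidableEq ι] {R : ι → ι → Prop}

/-- The open order cone without the diagonals. -/
def KK (R : ι → ι → Prop) : Set (ι → ℝ) :=
  {x | (∀ i j, i ≠ j → x i ≠ x j) ∧ ∀ i j, R i j → x i < x j}

lemma measurableSet_KK (R : ι → ι → Prop) : MeasurableSet (KK R) := by
  have e : KK R = (⋂ i, ⋂ j, {u : ι → ℝ | i ≠ j → u i ≠ u j})
      ∩ (⋂ i, ⋂ j, {u : ι → ℝ | R i j → u i < u j}) := by
    ext u
    simp only [KK, Set.mem_inter_iff, Set.mem_iInter, Set.mem_ofPred_eq]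
  rw [e]
  refine MeasurableSet.inter ?_ ?_
  · refine MeasurableSet.iInter fun i => MeasurableSet.iInter fun j => ?_
    by_cases h : i = j
    · have : {u : ι → ℝ | i ≠ j → u i ≠ u j} = Set.univ := by
        ext u; simp [h]
      rw [this]; exact MeasurableSet.univ
    · have : {u : ι → ℝ | i ≠ j → u i ≠ u j} = {u : ι → ℝ | u i ≠ u j} := by
        ext u; simp [h]
      rw [this]
      exact (isOpen_ne_fun (continuous_apply i) (continuous_apply j)).measurableSet
  · refine MeasurableSet.iInter fun i => MeasurableSet.iInter fun j => ?_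
    by_cases h : R i j
    · have : {u : ι → ℝ | R i j → u i < u j} = {u : ι → ℝ | u i < u j} := by
        ext u; simp [h]
      rw [this]; exact (isOpen_lt (continuous_apply i) (continuous_apply j)).measurableSet
    · have : {u : ι → ℝ | R i j → u i < u j} = Set.univ := by
        ext u; simp [h]
      rw [this]; exact MeasurableSet.univ

/-- The cube `[a, b]^ι`. -/
def Bx (ι : Type*) (a b : ℝ) : Set (ι → ℝ) := Set.univ.pi fun _ => Set.Icc a b

lemma measurableSet_Bx (a b : ℝ) : MeasurableSet (Bx ι a b) :=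
  MeasurableSet.univ_pi fun _ => measurableSet_Icc

/-- The change of variables. -/
theorem int_change [NullSingletonClass ν] {C : ℝ} (hP : Poinc ν C) {η : ℝ} (hη : 0 < η)
    (hη2 : 2 * η < 1) {a b : ℝ} (ha : cdf ν a = η) (hb : cdf ν b = 1 - η) {q : ℝ → ℝ}
    (hqc : Continuous q) (hqs : StrictMonoOn q (Set.Icc 0 1)) (hqab : ∀ u, q u ∈ Set.Icc a b)
    (hqF : ∀ u ∈ Set.Icc (0:ℝ) 1, cdf ν (q u) = η + (1 - 2 * η) * u)
    {Ψ : (ι → ℝ) → ℝ} (hΨ : Continuous Ψ) :
    ∫ u in SS R, Ψ (fun i => q (u i))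
      = ((1 - 2 * η) ^ Fintype.card ι)⁻¹ *
        ∫ x in KK R ∩ Bx ι a b, Ψ x ∂(Measure.pi fun _ : ι => ν) := by
  have hκ : 0 < 1 - 2 * η := by linarith
  set μ01 : Measure ℝ := volume.restrict (Set.Icc (0:ℝ) 1) with hμ01
  set T : (ι → ℝ) → (ι → ℝ) := fun u i => q (u i) with hT
  have hTc : Continuous T := continuous_pi fun i => hqc.comp (continuous_apply i)
  set c : ENNReal := (ENNReal.ofReal (1 - 2 * η))⁻¹ with hc
  have hcfin : c ≠ ⊤ := by
    rw [hc]; exact ENNReal.inv_ne_top.2 (ENNReal.ofReal_pos.2 hκ).ne'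
  -- the cube
  have hcube : Measure.pi (fun _ : ι => μ01) = (volume : Measure (ι → ℝ)).restrict (Bx ι 0 1) := by
    rw [hμ01, volume_pi, Bx, Measure.restrict_pi_pi]
  have hSB : SS R ⊆ Bx ι 0 1 := fun u hu i _ => ⟨(hu.1 i).1.le, (hu.1 i).2.le⟩
  have s1 : ∫ u in SS R, Ψ (T u) = ∫ u in SS R, Ψ (T u) ∂(Measure.pi fun _ : ι => μ01) := by
    rw [hcube, Measure.restrict_restrict (isOpen_SS R).measurableSet,
      Set.inter_eq_self_of_subset_left hSB]
  -- the set
  have hae : (SS R : Set (ι → ℝ)) =ᵐ[Measure.pi fun _ : ι => μ01] (T ⁻¹' KK R : Set (ι → ℝ)) := by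
    have hin : ∀ᵐ u ∂(Measure.pi fun _ : ι => μ01), ∀ i, u i ∈ Set.Ioo (0:ℝ) 1 := by
      rw [ae_all_iff]
      intro i
      have h1 : ∀ᵐ t ∂μ01, t ∈ Set.Ioo (0:ℝ) 1 := by
        rw [hμ01, ae_restrict_iff' measurableSet_Icc]
        have h2 : ∀ᵐ t : ℝ, t ≠ 0 := Measure.ae_ne volume 0
        have h3 : ∀ᵐ t : ℝ, t ≠ 1 := Measure.ae_ne volume 1
        filter_upwards [h2, h3] with t ht0 ht1 ht
        exact ⟨lt_of_le_of_ne ht.1 (Ne.symm ht0), lt_of_le_of_ne ht.2 ht1⟩
      exact (Measure.quasiMeasurePreserving_eval (μ := fun _ : ι => μ01) i).ae h1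
    filter_upwards [hin] with u hu
    apply propext
    have hI : ∀ i, u i ∈ Set.Icc (0:ℝ) 1 := fun i => ⟨(hu i).1.le, (hu i).2.le⟩
    constructor
    · intro h
      refine ⟨fun i j hij he => h.2.1 i j hij (hqs.injOn (hI i) (hI j) he),
        fun i j hR => hqs (hI i) (hI j) (h.2.2 i j hR)⟩
    · intro h
      refine ⟨hu, fun i j hij he => h.1 i j hij (by simp only [hT]; rw [he]), fun i j hR => ?_⟩
      exact (hqs.lt_iff_lt (hI i) (hI j)).1 (h.2 i j hR)
  have s2 : ∫ u in SS R, Ψ (T u) ∂(Measure.pi fun _ : ι => μ01)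
      = ∫ u in T ⁻¹' KK R, Ψ (T u) ∂(Measure.pi fun _ : ι => μ01) :=
    setIntegral_congr_set hae
  have s3 : ∫ u in T ⁻¹' KK R, Ψ (T u) ∂(Measure.pi fun _ : ι => μ01)
      = ∫ x in KK R, Ψ x ∂(Measure.map T (Measure.pi fun _ : ι => μ01)) :=
    (setIntegral_map (measurableSet_KK R) hΨ.aestronglyMeasurable hTc.aemeasurable).symm
  have hmapq := map_q hP hη hη2 ha hb hqc hqab hqF
  have s4 : Measure.map T (Measure.pi fun _ : ι => μ01)
      = c ^ Fintype.card ι • (Measure.pi fun _ : ι => ν).restrict (Bx ι a b) := by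
    have hfm : IsFiniteMeasure (c • ν.restrict (Set.Icc a b)) := by
      rw [← hmapq]; infer_instance
    have h1 : Measure.map T (Measure.pi fun _ : ι => μ01)
        = Measure.pi fun _ : ι => c • ν.restrict (Set.Icc a b) := by
      rw [← hmapq]
      have : ∀ i : ι, SigmaFinite (Measure.map q μ01) := fun i => by
        infer_instance
      exact Measure.pi_map_pi (fun i => hqc.measurable.aemeasurable)
    rw [h1]
    symm
    refine (Measure.pi_eq fun s hs => ?_).symm
    rw [Measure.smul_apply, Measure.restrict_apply (MeasurableSet.univ_pi hs), Bx,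
      ← Set.pi_inter_distrib, Measure.pi_pi, smul_eq_mul]
    simp only [Measure.smul_apply, smul_eq_mul]
    rw [Finset.prod_mul_distrib, Finset.prod_const, Finset.card_univ]
    congr 1
    refine Finset.prod_congr rfl fun i _ => ?_
    rw [Measure.restrict_apply (hs i)]
  have hcR : (c ^ Fintype.card ι).toReal = ((1 - 2 * η) ^ Fintype.card ι)⁻¹ := by
    rw [ENNReal.toReal_pow, hc, ENNReal.toReal_inv, ENNReal.toReal_ofReal hκ.le, inv_pow]
  calc ∫ u in SS R, Ψ (fun i => q (u i)) = ∫ u in SS R, Ψ (T u) := rfl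
    _ = ∫ x in KK R, Ψ x ∂(Measure.map T (Measure.pi fun _ : ι => μ01)) := by rw [s1, s2, s3]
    _ = ((1 - 2 * η) ^ Fintype.card ι)⁻¹ *
        ∫ x in KK R ∩ Bx ι a b, Ψ x ∂(Measure.pi fun _ : ι => ν) := by
      rw [s4, Measure.restrict_smul, integral_smul_measure, hcR, smul_eq_mul,
        Measure.restrict_restrict (measurableSet_KK R)]

end Pool.Agent.K6.H24.OP
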