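import Pool.Agent.K6.H24.OP.D2

/-!
# The Poincare inequality for the conditioned product measure
-/

namespace Pool.Agent.K6.H24.OP

open MeasureTheory Filter Topology ProbabilityTheory

set_option linter.unusedSectionVars false

variable {ν : Measure ℝ} [IsProbabilityMeasure ν]
variable {ι : Type*} [Fintype ι] [DecidableEq ι] {R : ι → ι → Prop}

lemma mesh {q : ℝ → ℝ} (hqc : Continuous q) {δ : ℝ} (hδ : 0 < δ) :
    ∀ᶠ m : ℕ in atTop, ∀ a : Fin m, dl q a ≤ δ := by
  have huc := isCompact_Icc.uniformContinuousOn_of_continuous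
    (s := Set.Icc (0:ℝ) 1) hqc.continuousOn
  rw [Metric.uniformContinuousOn_iff] at huc
  obtain ⟨η, hη, h⟩ := huc δ hδ
  have : Tendsto (fun m : ℕ => 1 / ((m:ℝ) + 1)) atTop (𝓝 0) :=
    tendsto_one_div_add_atTop_nhds_zero_nat
  filter_upwards [this.eventually (gt_mem_nhds hη)] with m hm a
  have h1 := pos_mem (m := m) a.succ
  have h2 := pos_mem (m := m) a.castSucc
  have hd : dist (pos m a.succ) (pos m a.castSucc) < η := by
    have e : pos m a.succ - pos m a.castSucc = 1 / ((m:ℝ) + 2) := by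
      unfold pos
      simp only [Fin.val_succ, Fin.val_castSucc]
      push_cast; ring
    rw [Real.dist_eq, e, abs_of_pos (by positivity)]
    refine lt_of_le_of_lt ?_ hm
    exact one_div_le_one_div_of_le (by positivity) (by linarith)
  have := h _ ⟨h1.1.le, h1.2.le⟩ _ ⟨h2.1.le, h2.2.le⟩ hd
  rw [Real.dist_eq] at this
  unfold dl
  exact (le_abs_self _).trans this.le

/-- The inequality on the truncated cone. -/
theorem main_trunc [NullSingletonClass ν] {C : ℝ} (hC : 0 < C) (hP : Poinc ν C) {η : ℝ}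
    (hη : 0 < η) (hη2 : 2 * η < 1) {a b : ℝ} (ha : cdf ν a = η) (hb : cdf ν b = 1 - η)
    {F : (ι → ℝ) → ℝ} (hF : ContDiff ℝ 1 F) :
    (∫ _x in KK R ∩ Bx ι a b, (1:ℝ) ∂(Measure.pi fun _ : ι => ν)) *
        (∫ x in KK R ∩ Bx ι a b, F x ^ 2 ∂(Measure.pi fun _ : ι => ν))
      - (∫ x in KK R ∩ Bx ι a b, F x ∂(Measure.pi fun _ : ι => ν)) ^ 2
      ≤ C * ((∫ _x in KK R ∩ Bx ι a b, (1:ℝ) ∂(Measure.pi fun _ : ι => ν)) *
        ∫ x in KK R ∩ Bx ι a b, ∑ i, (fderiv ℝ F x (Pi.single i 1)) ^ 2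
          ∂(Measure.pi fun _ : ι => ν)) := by
  obtain ⟨q, hqc, hqm, hqs, hqab, hqF⟩ := exists_quantile hP hη hη2 ha hb
  have hκ : 0 < 1 - 2 * η := by linarith
  have hfd : Continuous (fderiv ℝ F) := hF.continuous_fderiv (by norm_num)
  have hpart : ∀ i : ι, Continuous fun y => fderiv ℝ F y (Pi.single i 1) := fun i =>
    hfd.clm_apply continuous_const
  -- the inequality with parameters
  have par : ∀ s : ℝ, 0 < s →
      (1 / (2 * ((1 + s) * C + (1 + 1 / s) * s ^ 2))) *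
      ((∫ _u in SS R, (1:ℝ)) * (∫ u in SS R, F (fun i => q (u i)) ^ 2)
        - (∫ u in SS R, F (fun i => q (u i))) ^ 2)
      ≤ (∫ _u in SS R, (1:ℝ)) * ((1 / 2) *
        ∫ u in SS R, ∑ i, (fderiv ℝ F (fun i => q (u i)) (Pi.single i 1)) ^ 2) := by
    intro s hs
    set L : ℝ := (1 + s) * C + (1 + 1 / s) * s ^ 2 with hL
    have hL0 : 0 < L := by rw [hL]; positivity
    refine limit_gap (R := R) (lam := fun _ => 1 / (2 * L)) hqc hqm hqs tendsto_const_nhds ?_ hF
    filter_upwards [mesh hqc hs] with m hm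
    have hdl : ∀ a : Fin m, 0 < dl q a := by
      intro a
      unfold dl
      have h1 := pos_mem (m := m) a.succ
      have h2 := pos_mem (m := m) a.castSucc
      have := hqs ⟨h2.1.le, h2.2.le⟩ ⟨h1.1.le, h1.2.le⟩ (pos_strictMono (castSucc_lt_succ' a))
      linarith
    set Q : Fin (m+1) → ℝ := fun s => q (pos m s) with hQ
    have hQm : StrictMono Q := by
      intro x y hxy
      have h1 := pos_mem x
      have h2 := pos_mem y
      exact hqs ⟨h1.1.le, h1.2.le⟩ ⟨h2.1.le, h2.2.le⟩ (pos_strictMono hxy)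
    have hinc : ∀ a : Fin m, inc Q a = dl q a := fun a => rfl
    have hm2 : (0:ℝ) < (m:ℝ) + 2 := by positivity
    have hFQ : ∀ x : Fin (m+1), cdf ν (Q x) = η + (1 - 2 * η) * pos m x := by
      intro x
      have h1 := pos_mem x
      exact hqF _ ⟨h1.1.le, h1.2.le⟩
    have hcell : ∀ a : Fin m, ν.real (Set.Ioo (Q a.castSucc) (Q a.succ))
        = (1 - 2 * η) / ((m:ℝ) + 2) := by
      intro a
      rw [Measure.real, nu_Ioo, hFQ, hFQ]
      have e : η + (1 - 2 * η) * pos m a.succ - (η + (1 - 2 * η) * pos m a.castSucc)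
          = (1 - 2 * η) / ((m:ℝ) + 2) := by
        unfold pos
        simp only [Fin.val_succ, Fin.val_castSucc]
        push_cast
        field_simp
        ring
      rw [e, ENNReal.toReal_ofReal (by positivity)]
    have h0 : (1 - 2 * η) / ((m:ℝ) + 2) ≤ ν.real (Set.Iic (Q 0)) := by
      rw [← cdf_eq_real, hFQ]
      unfold pos
      simp only [Fin.val_zero]
      push_cast
      have : (1 - 2 * η) * ((0 + 1) / ((m:ℝ) + 2)) = (1 - 2 * η) / ((m:ℝ) + 2) := by
        ring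
      rw [this]
      linarith
    have hone := one_of_poinc (m := m) hC.le hP hQm (π := (1 - 2 * η) / ((m:ℝ) + 2)) (by positivity)
      hcell h0 (t := s) (δ := s) hs (fun a => by rw [hinc]; exact hm a)
    refine gap_one (R := R) (r := fun a => 1 / dl q a ^ 2)
      (fun a => by have := hdl a; positivity) (by positivity) ?_
    intro g hg
    have h1 := hone g hg
    have h2 : ∑ a, (1 / inc Q a ^ 2) * (inc g a) ^ 2 = ∑ a, 1 / dl q a ^ 2 * inc g a ^ 2 :=
      Finset.sum_congr rfl fun a _ => by rw [hinc]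
    rw [h2, ← hL] at h1
    have h3 : 1 / (2 * L) * ∑ t, g t ^ 2 ≤ 1 / (2 * L) *
        (L * ∑ a, 1 / dl q a ^ 2 * inc g a ^ 2) := mul_le_mul_of_nonneg_left h1 (by positivity)
    refine h3.trans (le_of_eq ?_)
    field_simp
  set vol : ℝ := ∫ _u in SS R, (1:ℝ) with hvol
  set I2 : ℝ := ∫ u in SS R, F (fun i => q (u i)) ^ 2 with hI2
  set I1 : ℝ := ∫ u in SS R, F (fun i => q (u i)) with hI1
  set J : ℝ := ∫ u in SS R, ∑ i, (fderiv ℝ F (fun i => q (u i)) (Pi.single i 1)) ^ 2 with hJ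
  have lim : Tendsto (fun s : ℝ => (2 * ((1 + s) * C + (s ^ 2 + s))) * (vol * ((1 / 2) * J)))
      (𝓝[>] 0) (𝓝 ((2 * ((1 + 0) * C + (0 ^ 2 + 0))) * (vol * ((1 / 2) * J)))) := by
    refine Tendsto.mono_left ?_ nhdsWithin_le_nhds
    refine Continuous.tendsto ?_ 0
    fun_prop
  have key : vol * I2 - I1 ^ 2 ≤ C * (vol * J) := by
    have h1 : vol * I2 - I1 ^ 2 ≤ (2 * ((1 + 0) * C + (0 ^ 2 + 0))) * (vol * ((1 / 2) * J)) := by
      refine ge_of_tendsto lim ?_
      filter_upwards [self_mem_nhdsWithin] with s hs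
      have hs' : (0:ℝ) < s := hs
      have h2 := par s hs'
      have e : (1 + 1 / s) * s ^ 2 = s ^ 2 + s := by field_simp
      rw [e] at h2
      have hpos : 0 < 2 * ((1 + s) * C + (s ^ 2 + s)) := by positivity
      rw [div_mul_eq_mul_div, one_mul, div_le_iff₀ hpos] at h2
      linarith
    refine h1.trans (le_of_eq ?_)
    ring
  -- change of variables
  have c0 := int_change (R := R) hP hη hη2 ha hb hqc hqs hqab hqF (Ψ := fun _ => (1:ℝ))
    continuous_const
  have c1 := int_change (R := R) hP hη hη2 ha hb hqc hqs hqab hqF (Ψ := F) hF.continuous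
  have c2 := int_change (R := R) hP hη hη2 ha hb hqc hqs hqab hqF (Ψ := fun x => F x ^ 2)
    (hF.continuous.pow 2)
  have c3 := int_change (R := R) hP hη hη2 ha hb hqc hqs hqab hqF
    (Ψ := fun x => ∑ i, (fderiv ℝ F x (Pi.single i 1)) ^ 2)
    (continuous_finsetSum _ fun i _ => (hpart i).pow 2)
  rw [hvol, hI2, hI1, hJ, c0, c1, c2, c3] at key
  set κn : ℝ := ((1 - 2 * η) ^ Fintype.card ι)⁻¹ with hκn
  have hκn0 : 0 < κn := by rw [hκn]; positivity
  have hfin : κn ^ 2 * ((∫ _x in KK R ∩ Bx ι a b, (1:ℝ) ∂(Measure.pi fun _ : ι => ν)) *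
        (∫ x in KK R ∩ Bx ι a b, F x ^ 2 ∂(Measure.pi fun _ : ι => ν))
      - (∫ x in KK R ∩ Bx ι a b, F x ∂(Measure.pi fun _ : ι => ν)) ^ 2)
      ≤ κn ^ 2 * (C * ((∫ _x in KK R ∩ Bx ι a b, (1:ℝ) ∂(Measure.pi fun _ : ι => ν)) *
        ∫ x in KK R ∩ Bx ι a b, ∑ i, (fderiv ℝ F x (Pi.single i 1)) ^ 2
          ∂(Measure.pi fun _ : ι => ν))) := by
    nlinarith [key]
  exact le_of_mul_le_mul_left hfin (by positivity)

end Pool.Agent.K6.H24.OP
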