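import Pool.Agent.K6.H24.OP.D3

/-!
# Removing the truncation
-/

namespace Pool.Agent.K6.H24.OP

open MeasureTheory Filter Topology ProbabilityTheory

set_option linter.unusedSectionVars false

variable {ν : Measure ℝ} [IsProbabilityMeasure ν]
variable {ι : Type*} [Fintype ι] [DecidableEq ι] {R : ι → ι → Prop}

lemma cdf_pos_ae [NullSingletonClass ν] : ∀ᵐ t ∂ν, 0 < cdf ν t := by
  rw [ae_iff]
  have hle : ∀ ε : ℝ, 0 < ε → ε < 1 → ν {t | ¬ 0 < cdf ν t} ≤ ENNReal.ofReal ε := by
    intro ε h0 h1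
    obtain ⟨x, hx⟩ := cdf_level (ν := ν) h0 h1
    have hsub : {t | ¬ 0 < cdf ν t} ⊆ Set.Iic x := by
      intro t ht
      rw [Set.mem_ofPred_eq, not_lt] at ht
      by_contra hc
      have := monotone_cdf ν (le_of_lt (not_le.1 hc))
      linarith
    calc ν {t | ¬ 0 < cdf ν t} ≤ ν (Set.Iic x) := measure_mono hsub
      _ = ENNReal.ofReal ε := by rw [← ofReal_cdf ν x, hx]
  refine le_antisymm ?_ (zero_le)
  refine ENNReal.le_of_forall_pos_le_add fun ε hε _ => ?_
  rw [zero_add]
  have hm : 0 < min (ε:ℝ) (1/2) := lt_min (by exact_mod_cast hε) (by norm_num)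
  refine (hle _ hm (lt_of_le_of_lt (min_le_right _ _) (by norm_num))).trans ?_
  rw [← ENNReal.ofReal_coe_nnreal]
  exact ENNReal.ofReal_le_ofReal (min_le_left _ _)

lemma cdf_lt_one_ae [NullSingletonClass ν] : ∀ᵐ t ∂ν, cdf ν t < 1 := by
  rw [ae_iff]
  have hle : ∀ ε : ℝ, 0 < ε → ε < 1 → ν {t | ¬ cdf ν t < 1} ≤ ENNReal.ofReal ε := by
    intro ε h0 h1
    obtain ⟨x, hx⟩ := cdf_level (ν := ν) (p := 1 - ε) (by linarith) (by linarith)
    have hsub : {t | ¬ cdf ν t < 1} ⊆ Set.Ioi x := by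
      intro t ht
      rw [Set.mem_ofPred_eq, not_lt] at ht
      by_contra hc
      have := monotone_cdf ν (not_lt.1 hc)
      linarith
    calc ν {t | ¬ cdf ν t < 1} ≤ ν (Set.Ioi x) := measure_mono hsub
      _ = 1 - ν (Set.Iic x) := by rw [← Set.compl_Iic, prob_compl_eq_one_sub measurableSet_Iic]
      _ = ENNReal.ofReal ε := by
          rw [← ofReal_cdf ν x, hx, ← ENNReal.ofReal_one, ← ENNReal.ofReal_sub _ (by linarith)]
          congr 1; ring
  refine le_antisymm ?_ (zero_le)
  refine ENNReal.le_of_forall_pos_le_add fun ε hε _ => ?_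
  rw [zero_add]
  have hm : 0 < min (ε:ℝ) (1/2) := lt_min (by exact_mod_cast hε) (by norm_num)
  refine (hle _ hm (lt_of_le_of_lt (min_le_right _ _) (by norm_num))).trans ?_
  rw [← ENNReal.ofReal_coe_nnreal]
  exact ENNReal.ofReal_le_ofReal (min_le_left _ _)

/-- An exhausting sequence of boxes with the truncated inequality. -/
theorem exists_boxes (ι : Type*) [Fintype ι] [DecidableEq ι] [NullSingletonClass ν] {C : ℝ}
    (hC : 0 < C) (hP : Poinc ν C) :
    ∃ B : ℕ → Set (ι → ℝ), AECover (Measure.pi fun _ : ι => ν) atTop B ∧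
      (∀ k, IsCompact (B k)) ∧
      ∀ (R : ι → ι → Prop) (k : ℕ) (F : (ι → ℝ) → ℝ), ContDiff ℝ 1 F →
    (∫ _x in KK R ∩ B k, (1:ℝ) ∂(Measure.pi fun _ : ι => ν)) *
        (∫ x in KK R ∩ B k, F x ^ 2 ∂(Measure.pi fun _ : ι => ν))
      - (∫ x in KK R ∩ B k, F x ∂(Measure.pi fun _ : ι => ν)) ^ 2
      ≤ C * ((∫ _x in KK R ∩ B k, (1:ℝ) ∂(Measure.pi fun _ : ι => ν)) *
        ∫ x in KK R ∩ B k, ∑ i, (fderiv ℝ F x (Pi.single i 1)) ^ 2
          ∂(Measure.pi fun _ : ι => ν)) := by
  have hη : ∀ k : ℕ, 0 < 1 / ((k:ℝ) + 3) ∧ 2 * (1 / ((k:ℝ) + 3)) < 1 := by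
    intro k
    refine ⟨by positivity, ?_⟩
    rw [mul_one_div, div_lt_one (by positivity)]
    have : (0:ℝ) ≤ k := by positivity
    linarith
  have hex : ∀ k : ℕ, ∃ ab : ℝ × ℝ, cdf ν ab.1 = 1 / ((k:ℝ) + 3) ∧
      cdf ν ab.2 = 1 - 1 / ((k:ℝ) + 3) := by
    intro k
    have h := hη k
    obtain ⟨x, hx⟩ := cdf_level (ν := ν) h.1 (by linarith [h.2])
    obtain ⟨y, hy⟩ := cdf_level (ν := ν) (p := 1 - 1 / ((k:ℝ) + 3)) (by linarith [h.2])
      (by linarith [h.1])
    exact ⟨(x, y), hx, hy⟩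
  choose ab hab1 hab2 using hex
  refine ⟨fun k => Bx ι (ab k).1 (ab k).2, ⟨?_, fun k => measurableSet_Bx _ _⟩, ?_, ?_⟩
  · have h1 : ∀ᵐ x ∂(Measure.pi fun _ : ι => ν), ∀ i, 0 < cdf ν (x i) ∧ cdf ν (x i) < 1 := by
      rw [ae_all_iff]
      intro i
      exact (Measure.quasiMeasurePreserving_eval (μ := fun _ : ι => ν) i).ae
        (cdf_pos_ae.and cdf_lt_one_ae)
    filter_upwards [h1] with x hx
    have hlim : Tendsto (fun k : ℕ => 1 / ((k:ℝ) + 3)) atTop (𝓝 0) := by
      have := (tendsto_add_atTop_iff_nat (f := fun k : ℕ => 1 / ((k:ℝ) + 1)) 2).2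
        tendsto_one_div_add_atTop_nhds_zero_nat
      refine this.congr fun k => ?_
      push_cast; ring
    have hev : ∀ i, ∀ᶠ k : ℕ in atTop, x i ∈ Set.Icc (ab k).1 (ab k).2 := by
      intro i
      have e1 := hlim.eventually (gt_mem_nhds (hx i).1)
      have e2 := hlim.eventually (gt_mem_nhds (by linarith [(hx i).2] : 0 < 1 - cdf ν (x i)))
      filter_upwards [e1, e2] with k h1 h2
      constructor
      · by_contra hc
        have := monotone_cdf ν (le_of_lt (not_le.1 hc))
        rw [hab1] at this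
        linarith
      · by_contra hc
        have := monotone_cdf ν (le_of_lt (not_le.1 hc))
        rw [hab2] at this
        linarith
    have := eventually_all.2 hev
    filter_upwards [this] with k hk
    exact fun i _ => hk i
  · intro k
    exact isCompact_univ_pi fun _ => isCompact_Icc
  · intro R k F hF
    exact main_trunc (R := R) hC hP (hη k).1 (hη k).2 (hab1 k) (hab2 k) hF

/-- **The Poincare inequality of the conditioned product measure.** -/
theorem main_full [NullSingletonClass ν] {C : ℝ} (hC : 0 < C) (hP : Poinc ν C)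
    {F : (ι → ℝ) → ℝ} (hF : ContDiff ℝ 1 F)
    (hD : IntegrableOn (fun x => ∑ i, (fderiv ℝ F x (Pi.single i 1)) ^ 2) (KK R)
      (Measure.pi fun _ : ι => ν)) :
    IntegrableOn (fun x => F x ^ 2) (KK R) (Measure.pi fun _ : ι => ν) ∧
    (∫ _x in KK R, (1:ℝ) ∂(Measure.pi fun _ : ι => ν)) *
        (∫ x in KK R, F x ^ 2 ∂(Measure.pi fun _ : ι => ν))
      - (∫ x in KK R, F x ∂(Measure.pi fun _ : ι => ν)) ^ 2
      ≤ C * ((∫ _x in KK R, (1:ℝ) ∂(Measure.pi fun _ : ι => ν)) *
        ∫ x in KK R, ∑ i, (fderiv ℝ F x (Pi.single i 1)) ^ 2 ∂(Measure.pi fun _ : ι => ν)) := by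
  obtain ⟨B, hB, hBc, hineq⟩ := exists_boxes (ν := ν) ι hC hP
  set P : Measure (ι → ℝ) := Measure.pi fun _ : ι => ν with hPdef
  set μ : Measure (ι → ℝ) := P.restrict (KK R) with hμ
  have hcov : AECover μ atTop B := ⟨ae_restrict_of_ae hB.ae_eventually_mem, hB.measurableSet⟩
  set D : (ι → ℝ) → ℝ := fun x => ∑ i, (fderiv ℝ F x (Pi.single i 1)) ^ 2 with hDdef
  have hDi : Integrable D μ := hD
  have hDnn : ∀ x, 0 ≤ D x := fun x => Finset.sum_nonneg fun i _ => sq_nonneg _
  have hres : ∀ (Ψ : (ι → ℝ) → ℝ) (k : ℕ), ∫ x in B k, Ψ x ∂μ = ∫ x in KK R ∩ B k, Ψ x ∂P := by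
    intro Ψ k
    rw [hμ, Measure.restrict_restrict (hB.measurableSet k), Set.inter_comm]
  have hineq' : ∀ k, (∫ _x in B k, (1:ℝ) ∂μ) * (∫ x in B k, F x ^ 2 ∂μ)
      - (∫ x in B k, F x ∂μ) ^ 2 ≤ C * ((∫ _x in B k, (1:ℝ) ∂μ) * ∫ x in B k, D x ∂μ) := by
    intro k
    rw [hres, hres, hres, hres]
    exact hineq R k F hF
  have hfi : ∀ {Ψ : (ι → ℝ) → ℝ}, Continuous Ψ → ∀ k, IntegrableOn Ψ (B k) μ := by
    intro Ψ hΨ k
    exact hΨ.continuousOn.integrableOn_compact (hBc k)
  have hone : Tendsto (fun k => ∫ _x in B k, (1:ℝ) ∂μ) atTop (𝓝 (∫ _x, (1:ℝ) ∂μ)) :=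
    hcov.integral_tendsto_of_countably_generated (integrable_const 1)
  set V : ℝ := ∫ _x, (1:ℝ) ∂μ with hV
  have hV0 : 0 ≤ V := by rw [hV]; exact integral_nonneg fun _ => zero_le_one
  have hF2 : Integrable (fun x => F x ^ 2) μ := by
    rcases hV0.eq_or_lt with hV0 | hV0
    · have hμ0 : μ = 0 := by
        have h1 : μ.real Set.univ = 0 := by
          rw [hV, integral_const, smul_eq_mul, mul_one] at hV0
          exact hV0.symm
        rw [Measure.real, ENNReal.toReal_eq_zero_iff] at h1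
        rcases h1 with h1 | h1
        · exact Measure.measure_univ_eq_zero.1 h1
        · exact absurd h1 (measure_ne_top _ _)
      rw [hμ0]; exact integrable_zero_measure
    · -- a good index
      obtain ⟨k0, hk0⟩ := (hone.eventually (lt_mem_nhds hV0)).exists_forall_of_atTop
      set v0 : ℝ := ∫ _x in B k0, (1:ℝ) ∂μ with hv0
      have hv0pos : 0 < v0 := hk0 k0 le_rfl
      set DD : ℝ := ∫ x, D x ∂μ with hDD
      have hDD0 : 0 ≤ DD := integral_nonneg hDnn
      -- mean square deviation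
      have hdev : ∀ k, 0 < ∫ _x in B k, (1:ℝ) ∂μ → ∃ c : ℝ,
          ∀ A : Set (ι → ℝ), MeasurableSet A → A ⊆ B k → ∫ x in A, (F x - c) ^ 2 ∂μ ≤ C * DD := by
        intro k hk
        set v : ℝ := ∫ _x in B k, (1:ℝ) ∂μ with hv
        set i1 : ℝ := ∫ x in B k, F x ∂μ with hi1
        set i2 : ℝ := ∫ x in B k, F x ^ 2 ∂μ with hi2
        refine ⟨i1 / v, fun A hA hAB => ?_⟩
        have hsub : ∫ x in A, (F x - i1 / v) ^ 2 ∂μ ≤ ∫ x in B k, (F x - i1 / v) ^ 2 ∂μ :=
          setIntegral_mono_set (hfi ((hF.continuous.sub continuous_const).pow 2) k)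
            (Filter.Eventually.of_forall fun x => sq_nonneg _)
            (HasSubset.Subset.eventuallyLE hAB)
        have hexp : ∫ x in B k, (F x - i1 / v) ^ 2 ∂μ = i2 - i1 ^ 2 / v := by
          have e : ∀ x, (F x - i1 / v) ^ 2 = (F x ^ 2 - 2 * (i1 / v) * F x) + (i1 / v) ^ 2 * 1 := by
            intro x; ring
          simp only [e]
          have j1 : IntegrableOn (fun x => F x ^ 2) (B k) μ := hfi (hF.continuous.pow 2) k
          have j2 : IntegrableOn (fun x => 2 * (i1 / v) * F x) (B k) μ :=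
            hfi (continuous_const.mul hF.continuous) k
          have j3 : IntegrableOn (fun x => F x ^ 2 - 2 * (i1 / v) * F x) (B k) μ := j1.sub j2
          have j4 : IntegrableOn (fun _ => (i1 / v) ^ 2 * (1:ℝ)) (B k) μ := hfi continuous_const k
          rw [integral_add j3 j4, integral_sub j1 j2, integral_const_mul, integral_const_mul,
            ← hi2, ← hi1, ← hv]
          field_simp
          ring
        have hk' := hineq' k
        rw [← hv, ← hi1, ← hi2] at hk'
        have hDk : ∫ x in B k, D x ∂μ ≤ DD :=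
          setIntegral_le_integral hDi (Filter.Eventually.of_forall hDnn)
        have h1 : v * (i2 - i1 ^ 2 / v) ≤ v * (C * DD) := by
          have e : v * (i2 - i1 ^ 2 / v) = v * i2 - i1 ^ 2 := by
            field_simp
          rw [e]
          refine hk'.trans ?_
          have := mul_le_mul_of_nonneg_left hDk (by positivity : 0 ≤ C * v)
          nlinarith
        have h2 := le_of_mul_le_mul_left h1 hk
        linarith
      set M0 : ℝ := ∫ x in B k0, F x ^ 2 ∂μ with hM0
      refine hcov.integrable_of_integral_bounded_of_nonneg_ae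
        (2 * (C * DD) + 2 * ((2 * (C * DD) + 2 * M0) / (v0 / 2) * V))
        (fun k => hfi (hF.continuous.pow 2) k)
        (Filter.Eventually.of_forall fun x => sq_nonneg _) ?_
      -- enlarge: use the union index
      have hBk0 : Tendsto (fun k => ∫ x in B k ∩ B k0, (1:ℝ) ∂μ) atTop (𝓝 v0) := by
        have hc2 : AECover (μ.restrict (B k0)) atTop B :=
          ⟨ae_restrict_of_ae hcov.ae_eventually_mem, hcov.measurableSet⟩
        have := hc2.integral_tendsto_of_countably_generated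
          (f := fun _ => (1:ℝ)) (integrable_const 1)
        refine this.congr fun k => ?_
        rw [Measure.restrict_restrict (hB.measurableSet k)]
      have hhalf : ∀ᶠ k in atTop, v0 / 2 < ∫ x in B k ∩ B k0, (1:ℝ) ∂μ :=
        hBk0.eventually (lt_mem_nhds (by linarith))
      filter_upwards [hhalf] with k hk
      set w : ℝ := ∫ x in B k ∩ B k0, (1:ℝ) ∂μ with hw
      have hw0 : 0 < w := by linarith
      have hwv : w ≤ ∫ _x in B k, (1:ℝ) ∂μ :=
        setIntegral_mono_set (hfi continuous_const k) (Filter.Eventually.of_forall fun _ => zero_le_one)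
          (HasSubset.Subset.eventuallyLE Set.inter_subset_left)
      obtain ⟨c, hc⟩ := hdev k (lt_of_lt_of_le hw0 hwv)
      have hA := hc (B k ∩ B k0) ((hB.measurableSet k).inter (hB.measurableSet k0))
        Set.inter_subset_left
      have hBk := hc (B k) (hB.measurableSet k) subset_rfl
      have hfiA : ∀ {Ψ : (ι → ℝ) → ℝ}, Continuous Ψ → IntegrableOn Ψ (B k ∩ B k0) μ := fun hΨ =>
        (hfi hΨ k).mono_set Set.inter_subset_left
      have hc2 : c ^ 2 * w ≤ 2 * (C * DD) + 2 * M0 := by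
        have h1 : c ^ 2 * w = ∫ _x in B k ∩ B k0, c ^ 2 * (1:ℝ) ∂μ := by
          rw [integral_const_mul]
        have h2 : ∫ _x in B k ∩ B k0, c ^ 2 * (1:ℝ) ∂μ
            ≤ ∫ x in B k ∩ B k0, (2 * (F x - c) ^ 2 + 2 * F x ^ 2) ∂μ := by
          refine integral_mono (hfiA continuous_const) (hfiA ?_) fun x => ?_
          · exact (continuous_const.mul ((hF.continuous.sub continuous_const).pow 2)).add
              (continuous_const.mul (hF.continuous.pow 2))
          · simp only
            nlinarith [sq_nonneg (2 * F x - c)]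
        have h3 : ∫ x in B k ∩ B k0, (2 * (F x - c) ^ 2 + 2 * F x ^ 2) ∂μ
            = 2 * ∫ x in B k ∩ B k0, (F x - c) ^ 2 ∂μ + 2 * ∫ x in B k ∩ B k0, F x ^ 2 ∂μ := by
          have j1 : IntegrableOn (fun x => 2 * (F x - c) ^ 2) (B k ∩ B k0) μ :=
            hfiA (continuous_const.mul ((hF.continuous.sub continuous_const).pow 2))
          have j2 : IntegrableOn (fun x => 2 * F x ^ 2) (B k ∩ B k0) μ :=
            hfiA (continuous_const.mul (hF.continuous.pow 2))
          rw [integral_add j1 j2, integral_const_mul, integral_const_mul]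
        have h4 : ∫ x in B k ∩ B k0, F x ^ 2 ∂μ ≤ M0 :=
          setIntegral_mono_set (hfi (hF.continuous.pow 2) k0)
            (Filter.Eventually.of_forall fun _ => sq_nonneg _)
            (HasSubset.Subset.eventuallyLE Set.inter_subset_right)
        linarith
      have hc3 : c ^ 2 ≤ (2 * (C * DD) + 2 * M0) / (v0 / 2) := by
        rw [le_div_iff₀ (by linarith)]
        have : c ^ 2 * (v0 / 2) ≤ c ^ 2 * w := mul_le_mul_of_nonneg_left hk.le (sq_nonneg c)
        linarith
      have hvV : ∫ _x in B k, (1:ℝ) ∂μ ≤ V :=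
        setIntegral_le_integral (integrable_const 1) (Filter.Eventually.of_forall fun _ => zero_le_one)
      have hfin : ∫ x in B k, F x ^ 2 ∂μ ≤ ∫ x in B k, (2 * (F x - c) ^ 2 + 2 * c ^ 2 * 1) ∂μ := by
        refine integral_mono (hfi (hF.continuous.pow 2) k) (hfi ?_ k) fun x => ?_
        · exact (continuous_const.mul ((hF.continuous.sub continuous_const).pow 2)).add
            continuous_const
        · simp only
          nlinarith [sq_nonneg (F x - 2 * c)]
      have hfin2 : ∫ x in B k, (2 * (F x - c) ^ 2 + 2 * c ^ 2 * 1) ∂μ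
          = 2 * ∫ x in B k, (F x - c) ^ 2 ∂μ + 2 * c ^ 2 * ∫ _x in B k, (1:ℝ) ∂μ := by
        have j1 : IntegrableOn (fun x => 2 * (F x - c) ^ 2) (B k) μ :=
          hfi (continuous_const.mul ((hF.continuous.sub continuous_const).pow 2)) k
        have j2 : IntegrableOn (fun _x => 2 * c ^ 2 * (1:ℝ)) (B k) μ := hfi continuous_const k
        rw [integral_add j1 j2, integral_const_mul, integral_const_mul]
      have hlast : c ^ 2 * ∫ _x in B k, (1:ℝ) ∂μ
          ≤ (2 * (C * DD) + 2 * M0) / (v0 / 2) * V :=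
        mul_le_mul hc3 hvV (by linarith) ((sq_nonneg c).trans hc3)
      linarith
  have hF1 : Integrable F μ := by
    have h1 : Integrable (fun x => (1:ℝ) + F x ^ 2) μ := (integrable_const 1).add hF2
    refine h1.mono' hF.continuous.aestronglyMeasurable (Filter.Eventually.of_forall fun x => ?_)
    rw [Real.norm_eq_abs]
    nlinarith [sq_nonneg (|F x| - 1), sq_abs (F x), abs_nonneg (F x)]
  refine ⟨hF2, ?_⟩
  have t2 := hcov.integral_tendsto_of_countably_generated hF2
  have t1 := hcov.integral_tendsto_of_countably_generated hF1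
  have tD := hcov.integral_tendsto_of_countably_generated hDi
  exact le_of_tendsto_of_tendsto' ((hone.mul t2).sub (t1.pow 2)) ((hone.mul tD).const_mul C) hineq'

end Pool.Agent.K6.H24.OP
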