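import Pool.Agent.K6.H24.OP.D4

/-!
# Symmetric functions of the conditioned product measure
-/

namespace Pool.Agent.K6.H24.OP

open MeasureTheory Filter Topology ProbabilityTheory

set_option linter.unusedSectionVars false

variable {ν : Measure ℝ} [IsProbabilityMeasure ν]
variable {ι : Type*} [Fintype ι] [DecidableEq ι] {R : ι → ι → Prop}

lemma exists_sort {x : ι → ℝ} (hx : Function.Injective x) :
    ∃ e : Fin (Fintype.card ι) ≃ ι, StrictMono (x ∘ e) := by
  let f := Fintype.equivFin ι
  let s := Tuple.sort (x ∘ f.symm)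
  refine ⟨s.trans f.symm, ?_⟩
  have hm : Monotone (x ∘ f.symm ∘ s) := by
    have := Tuple.monotone_sort (x ∘ f.symm)
    exact this
  have hi : Function.Injective (x ∘ f.symm ∘ s) :=
    hx.comp (f.symm.injective.comp s.injective)
  exact hm.strictMono_of_injective hi

lemma exists_perm {x y : ι → ℝ} (hx : Function.Injective x) (hy : Function.Injective y) :
    ∃ σ : Equiv.Perm ι, ∀ i j, x (σ i) < x (σ j) ↔ y i < y j := by
  obtain ⟨ex, hex⟩ := exists_sort hx
  obtain ⟨ey, hey⟩ := exists_sort hy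
  refine ⟨ey.symm.trans ex, fun i j => ?_⟩
  have h1 : x ((ey.symm.trans ex) i) < x ((ey.symm.trans ex) j) ↔ ey.symm i < ey.symm j :=
    hex.lt_iff_lt
  have h2 : y i < y j ↔ ey.symm i < ey.symm j := by
    rw [← hey.lt_iff_lt]
    simp
  rw [h1, h2]

open Classical in
/-- the number of permutations which put `x` into the cone -/
noncomputable def NN (R : ι → ι → Prop) (x : ι → ℝ) : ℕ :=
  (Finset.univ.filter fun π : Equiv.Perm ι => (x ∘ π) ∈ KK R).card

lemma NN_eq {x y : ι → ℝ} (hx : Function.Injective x) (hy : Function.Injective y) :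
    NN R x = NN R y := by
  classical
  obtain ⟨σ, hσ⟩ := exists_perm hx hy
  unfold NN
  symm
  refine Finset.card_bij (fun π _ => π.trans σ) ?_ ?_ ?_
  · intro π hπ
    simp only [Finset.mem_filter, Finset.mem_univ, true_and] at hπ ⊢
    refine ⟨fun i j hij he => ?_, fun i j hR => ?_⟩
    · exact hij (by simpa using hx he)
    · exact (hσ _ _).2 (hπ.2 i j hR)
  · intro π _ π' _ h
    ext i
    have := congrArg (fun p : Equiv.Perm ι => p i) h
    exact σ.injective this
  · intro π hπ
    simp only [Finset.mem_filter, Finset.mem_univ, true_and] at hπ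
    refine ⟨π.trans σ.symm, ?_, ?_⟩
    · simp only [Finset.mem_filter, Finset.mem_univ, true_and]
      refine ⟨fun i j hij he => hij (by simpa using hy he), fun i j hR => ?_⟩
      have := hπ.2 i j hR
      refine (hσ _ _).1 ?_
      simpa using this
    · ext i; simp

lemma ae_injective [NullSingletonClass ν] :
    ∀ᵐ x ∂(Measure.pi fun _ : ι => ν), Function.Injective x := by
  have h : ∀ i j : ι, i ≠ j → ∀ᵐ x ∂(Measure.pi fun _ : ι => ν), x i ≠ x j := by
    intro i j hij
    have hmp := measurePreserving_eval (fun _ : ι => ν) i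
    have hind : IndepFun (fun x : ι → ℝ => x i) (fun x : ι → ℝ => x j)
        (Measure.pi fun _ : ι => ν) := by
      have := iIndepFun_pi (μ := fun _ : ι => ν) (X := fun _ : ι => (id : ℝ → ℝ))
        (fun _ => aemeasurable_id)
      exact this.indepFun hij
    have hmap : Measure.map (fun x : ι → ℝ => (x i, x j)) (Measure.pi fun _ : ι => ν)
        = ν.prod ν := by
      have := (indepFun_iff_map_prod_eq_prod_map_map (measurable_pi_apply i).aemeasurable
        (measurable_pi_apply j).aemeasurable).1 hind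
      rw [this]
      congr 1
      · exact (measurePreserving_eval (fun _ : ι => ν) i).map_eq
      · exact (measurePreserving_eval (fun _ : ι => ν) j).map_eq
    have hms : MeasurableSet {p : ℝ × ℝ | p.1 = p.2} := measurableSet_eq_fun measurable_fst measurable_snd
    have hdiag : (ν.prod ν) {p : ℝ × ℝ | p.1 = p.2} = 0 := by
      rw [Measure.prod_apply hms]
      simp only [lintegral_eq_zero_iff (measurable_measure_prodMk_left hms)]
      refine Filter.Eventually.of_forall fun t => ?_
      have : Prod.mk t ⁻¹' {p : ℝ × ℝ | p.1 = p.2} = {t} := by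
        ext s; simp [eq_comm]
      change ν (Prod.mk t ⁻¹' {p : ℝ × ℝ | p.1 = p.2}) = 0
      rw [this, measure_singleton]
    rw [← hmap, Measure.map_apply (by fun_prop) hms] at hdiag
    rw [ae_iff]
    refine measure_mono_null ?_ hdiag
    intro x hx
    simpa using hx
  have h2 : ∀ᵐ x ∂(Measure.pi fun _ : ι => ν), ∀ i j : ι, i ≠ j → x i ≠ x j := by
    rw [ae_all_iff]; intro i
    rw [ae_all_iff]; intro j
    by_cases hij : i = j
    · exact Filter.Eventually.of_forall fun x h => absurd hij h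
    · filter_upwards [h i j hij] with x hx _ using hx
  filter_upwards [h2] with x hx
  intro i j hij
  by_contra hne
  exact hx i j hne hij

lemma mp_perm (π : Equiv.Perm ι) : MeasurePreserving (fun x : ι → ℝ => x ∘ π)
    (Measure.pi fun _ : ι => ν) (Measure.pi fun _ : ι => ν) := by
  have := (measurePreserving_piCongrLeft (fun _ : ι => ν) π).symm
  convert! this using 1

lemma symm_key [NullSingletonClass ν] {x0 : ι → ℝ} (hx0 : Function.Injective x0)
    {Φ : (ι → ℝ) → ℝ} (hs : ∀ (π : Equiv.Perm ι) (x : ι → ℝ), Φ (x ∘ π) = Φ x)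
    (hΦ : Integrable Φ (Measure.pi fun _ : ι => ν)) :
    (Fintype.card (Equiv.Perm ι) : ℝ) * ∫ x in KK R, Φ x ∂(Measure.pi fun _ : ι => ν)
        = (NN R x0 : ℝ) * ∫ x, Φ x ∂(Measure.pi fun _ : ι => ν) := by
  classical
  set P : Measure (ι → ℝ) := Measure.pi fun _ : ι => ν with hP
  have h1 : ∀ π : Equiv.Perm ι, ∫ x, (KK R).indicator Φ (x ∘ π) ∂P = ∫ x in KK R, Φ x ∂P := by
    intro π
    rw [← integral_indicator (measurableSet_KK R)]
    have hm := mp_perm (ν := ν) π
    have := hm.integral_comp' (f := (MeasurableEquiv.piCongrLeft (fun _ : ι => ℝ) π).symm)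
      (g := (KK R).indicator Φ)
    exact this
  have h2 : ∑ π : Equiv.Perm ι, ∫ x, (KK R).indicator Φ (x ∘ π) ∂P
      = ∫ x, ∑ π : Equiv.Perm ι, (KK R).indicator Φ (x ∘ π) ∂P := by
    rw [integral_finsetSum]
    intro π _
    have hm := mp_perm (ν := ν) π
    exact (hm.integrable_comp (hΦ.indicator (measurableSet_KK R)).aestronglyMeasurable).2
      (hΦ.indicator (measurableSet_KK R))
  have h3 : ∫ x, ∑ π : Equiv.Perm ι, (KK R).indicator Φ (x ∘ π) ∂P
      = ∫ x, (NN R x0 : ℝ) * Φ x ∂P := by
    refine integral_congr_ae ?_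
    filter_upwards [ae_injective (ι := ι) (ν := ν)] with x hx
    have e : ∀ π : Equiv.Perm ι, (KK R).indicator Φ (x ∘ π)
        = if (x ∘ π) ∈ KK R then Φ x else 0 := by
      intro π
      by_cases h : (x ∘ π) ∈ KK R
      · rw [Set.indicator_of_mem h, if_pos h, hs]
      · rw [Set.indicator_of_notMem h, if_neg h]
    simp only [e]
    rw [← Finset.sum_filter, Finset.sum_const, nsmul_eq_mul, ← NN_eq (R := R) hx hx0]
    unfold NN
    congr
  have h4 : ∑ π : Equiv.Perm ι, ∫ x, (KK R).indicator Φ (x ∘ π) ∂P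
      = (Fintype.card (Equiv.Perm ι) : ℝ) * ∫ x in KK R, Φ x ∂P := by
    simp only [h1, Finset.sum_const, Finset.card_univ, nsmul_eq_mul]
  rw [← h4, h2, h3, integral_const_mul]

/-- the cone has positive measure if it contains a point with distinct coordinates -/
lemma KK_pos [NullSingletonClass ν] {x0 : ι → ℝ} (hx0 : x0 ∈ KK R) :
    (Measure.pi fun _ : ι => ν) (KK R) ≠ 0 := by
  classical
  have hinj : Function.Injective x0 := by
    intro i j hij
    by_contra hne
    exact hx0.1 i j hne hij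
  have k2 := symm_key (ν := ν) (R := R) hinj (Φ := fun _ => (1:ℝ)) (fun _ _ => rfl)
    (integrable_const 1)
  have e1 : ∫ _x in KK R, (1:ℝ) ∂(Measure.pi fun _ : ι => ν) =
    (Measure.pi fun _ : ι => ν).real (KK R) := by simp
  have e2 : ∫ _x, (1:ℝ) ∂(Measure.pi fun _ : ι => ν) = 1 := by simp
  rw [e1, e2, mul_one] at k2
  have hN : 0 < NN R x0 := by
    unfold NN
    refine Finset.card_pos.2 ⟨1, ?_⟩
    simp only [Finset.mem_filter, Finset.mem_univ, true_and]
    exact hx0
  intro h0
  rw [Measure.real, h0] at k2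
  simp only [ENNReal.toReal_zero, mul_zero] at k2
  have : (0:ℝ) < NN R x0 := by exact_mod_cast hN
  linarith

/-- **Symmetric functions have the same mean over the cone.** -/
theorem symm_int [NullSingletonClass ν] {Ψ : (ι → ℝ) → ℝ}
    (hsym : ∀ (π : Equiv.Perm ι) (x : ι → ℝ), Ψ (x ∘ π) = Ψ x)
    (hΨ : Integrable Ψ (Measure.pi fun _ : ι => ν)) :
    ∫ x in KK R, Ψ x ∂(Measure.pi fun _ : ι => ν)
      = (Measure.pi fun _ : ι => ν).real (KK R) * ∫ x, Ψ x ∂(Measure.pi fun _ : ι => ν) := by
  classical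
  set P : Measure (ι → ℝ) := Measure.pi fun _ : ι => ν with hP
  obtain ⟨x0, hx0⟩ := (ae_injective (ι := ι) (ν := ν)).exists
  have k1 := symm_key (R := R) hx0 hsym hΨ
  have k2 := symm_key (ν := ν) (R := R) hx0 (Φ := fun _ => (1:ℝ)) (fun _ _ => rfl)
    (integrable_const 1)
  have e1 : ∫ _x in KK R, (1:ℝ) ∂P = P.real (KK R) := by simp
  have e2 : ∫ _x, (1:ℝ) ∂P = 1 := by simp
  rw [e1, e2, mul_one] at k2
  have hcard : (0:ℝ) < (Fintype.card (Equiv.Perm ι) : ℝ) := by
    exact_mod_cast Fintype.card_pos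
  rw [← k2] at k1
  have : (Fintype.card (Equiv.Perm ι) : ℝ) * ∫ x in KK R, Ψ x ∂P
      = (Fintype.card (Equiv.Perm ι) : ℝ) * (P.real (KK R) * ∫ x, Ψ x ∂P) := by
    rw [k1]; ring
  exact mul_left_cancel₀ hcard.ne' this

end Pool.Agent.K6.H24.OP
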