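import Pool.Agent.K6.H24.OP.E1

/-!
# Variance of sums over the conditioned product measure
-/

namespace Pool.Agent.K6.H24.OP

open MeasureTheory Filter Topology ProbabilityTheory

set_option linter.unusedSectionVars false

variable {ν : Measure ℝ} [IsProbabilityMeasure ν]
variable {ι : Type*} [Fintype ι] [DecidableEq ι] {R : ι → ι → Prop}

/-- the product measure conditioned on the order relations -/
noncomputable def cnd (ν : Measure ℝ) (R : ι → ι → Prop) : Measure (ι → ℝ) :=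
  ((Measure.pi fun _ : ι => ν) (KK R))⁻¹ • (Measure.pi fun _ : ι => ν).restrict (KK R)

lemma cnd_int (Ψ : (ι → ℝ) → ℝ) :
    ∫ x, Ψ x ∂(cnd ν R) = ((Measure.pi fun _ : ι => ν).real (KK R))⁻¹ *
      ∫ x in KK R, Ψ x ∂(Measure.pi fun _ : ι => ν) := by
  unfold cnd
  rw [integral_smul_measure, ENNReal.toReal_inv, smul_eq_mul]
  rfl

lemma cnd_prob (h : (Measure.pi fun _ : ι => ν) (KK R) ≠ 0) :
    IsProbabilityMeasure (cnd ν R) := by
  constructor
  unfold cnd
  rw [Measure.smul_apply, Measure.restrict_apply_univ, smul_eq_mul]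
  exact ENNReal.inv_mul_cancel h (measure_ne_top _ _)

lemma real_pos (h : (Measure.pi fun _ : ι => ν) (KK R) ≠ 0) :
    0 < (Measure.pi fun _ : ι => ν).real (KK R) := by
  rw [Measure.real]
  exact ENNReal.toReal_pos h (measure_ne_top _ _)

lemma cnd_memLp {Ψ : (ι → ℝ) → ℝ} {p : ENNReal} (hΨ : MemLp Ψ p (Measure.pi fun _ : ι => ν))
    (h : (Measure.pi fun _ : ι => ν) (KK R) ≠ 0) :
    MemLp Ψ p (cnd ν R) := by
  unfold cnd
  exact (hΨ.mono_measure Measure.restrict_le_self).smul_measure (ENNReal.inv_ne_top.2 h)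

/-- the mean of a symmetric function -/
lemma cnd_symm [NullSingletonClass ν] (h : (Measure.pi fun _ : ι => ν) (KK R) ≠ 0)
    {Ψ : (ι → ℝ) → ℝ}
    (hsym : ∀ (π : Equiv.Perm ι) (x : ι → ℝ), Ψ (x ∘ π) = Ψ x)
    (hΨ : Integrable Ψ (Measure.pi fun _ : ι => ν)) :
    ∫ x, Ψ x ∂(cnd ν R) = ∫ x, Ψ x ∂(Measure.pi fun _ : ι => ν) := by
  rw [cnd_int, symm_int hsym hΨ, ← mul_assoc, inv_mul_cancel₀ (real_pos h).ne', one_mul]

/-- **the variance of a sum of functions of one variable** -/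
theorem cnd_var [NullSingletonClass ν] (h : (Measure.pi fun _ : ι => ν) (KK R) ≠ 0)
    {G : ℝ → ℝ} (hG : MemLp G 2 ν) :
    variance (fun x : ι → ℝ => ∑ i, G (x i)) (cnd ν R) = (Fintype.card ι : ℝ) * variance G ν := by
  haveI := cnd_prob h
  have hm : ∀ i : ι, MemLp (fun x : ι → ℝ => G (x i)) 2 (Measure.pi fun _ : ι => ν) := fun i =>
    hG.comp_measurePreserving (measurePreserving_eval (fun _ : ι => ν) i)
  have hS : MemLp (fun x : ι → ℝ => ∑ i, G (x i)) 2 (Measure.pi fun _ : ι => ν) :=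
    memLp_finsetSum _ fun i _ => hm i
  have hsym : ∀ (π : Equiv.Perm ι) (x : ι → ℝ), ∑ i, G ((x ∘ π) i) = ∑ i, G (x i) := by
    intro π x
    exact Equiv.sum_comp π fun i => G (x i)
  have h1 : variance (fun x : ι → ℝ => ∑ i, G (x i)) (cnd ν R) =
      variance (fun x : ι → ℝ => ∑ i, G (x i)) (Measure.pi fun _ : ι => ν) := by
    rw [variance_eq_sub (cnd_memLp hS h), variance_eq_sub hS]
    rw [cnd_symm h hsym (hS.integrable one_le_two)]
    congr 1
    refine cnd_symm h (fun π x => ?_) hS.integrable_sq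
    simp only [Pi.pow_apply]
    rw [hsym π x]
  rw [h1]
  have h2 := variance_sum_pi (μ := fun _ : ι => ν) (X := fun _ : ι => G) (fun _ => hG)
  have e : (∑ i : ι, fun ω : ι → ℝ => G (ω i)) = fun x : ι → ℝ => ∑ i, G (x i) := by
    funext x
    simp
  rw [e] at h2
  rw [h2]
  simp

/-- the Poincaré inequality for the conditioned measure -/
theorem cnd_poinc [NullSingletonClass ν] {C : ℝ} (hC : 0 < C) (hP : Poinc ν C)
    (h : (Measure.pi fun _ : ι => ν) (KK R) ≠ 0)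
    {F : (ι → ℝ) → ℝ} (hF : ContDiff ℝ 1 F)
    (hD : Integrable (fun x => ∑ i, (fderiv ℝ F x (Pi.single i 1)) ^ 2) (cnd ν R)) :
    MemLp F 2 (cnd ν R) ∧ variance F (cnd ν R) ≤
      C * ∫ x, ∑ i, (fderiv ℝ F x (Pi.single i 1)) ^ 2 ∂(cnd ν R) := by
  haveI := cnd_prob h
  have h0 := real_pos h
  have hD' : IntegrableOn (fun x => ∑ i, (fderiv ℝ F x (Pi.single i 1)) ^ 2) (KK R)
      (Measure.pi fun _ : ι => ν) := by
    unfold cnd at hD
    rwa [integrable_smul_measure (ENNReal.inv_ne_zero.2 (measure_ne_top _ _))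
      (ENNReal.inv_ne_top.2 h)] at hD
  obtain ⟨h1, h2⟩ := main_full hC hP hF hD'
  have hFm : MemLp F 2 (cnd ν R) := by
    rw [memLp_two_iff_integrable_sq hF.continuous.aestronglyMeasurable]
    unfold cnd
    exact h1.smul_measure (ENNReal.inv_ne_top.2 h)
  refine ⟨hFm, ?_⟩
  rw [variance_eq_sub hFm]
  have e1 : ∫ _x in KK R, (1:ℝ) ∂(Measure.pi fun _ : ι => ν) =
      (Measure.pi fun _ : ι => ν).real (KK R) := by simp
  rw [e1] at h2
  have e2 : ∫ x, (F ^ 2) x ∂(cnd ν R) = ((Measure.pi fun _ : ι => ν).real (KK R))⁻¹ *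
      ∫ x in KK R, F x ^ 2 ∂(Measure.pi fun _ : ι => ν) := cnd_int _
  rw [e2, cnd_int, cnd_int]
  set V := (Measure.pi fun _ : ι => ν).real (KK R) with hV
  set a := ∫ x in KK R, F x ^ 2 ∂(Measure.pi fun _ : ι => ν)
  set b := ∫ x in KK R, F x ∂(Measure.pi fun _ : ι => ν)
  set d := ∫ x in KK R, ∑ i, (fderiv ℝ F x (Pi.single i 1)) ^ 2 ∂(Measure.pi fun _ : ι => ν)
  have e3 : V⁻¹ * a - (V⁻¹ * b) ^ 2 = V⁻¹ ^ 2 * (V * a - b ^ 2) := by
    field_simp
  have e4 : C * (V⁻¹ * d) = V⁻¹ ^ 2 * (C * (V * d)) := by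
    field_simp
  rw [e3, e4]
  exact mul_le_mul_of_nonneg_left h2 (by positivity)

end Pool.Agent.K6.H24.OP
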