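import Pool.Agent.K6.H24.OP.E1

/-!
# The Poincare inequality of a log-concave measure on the line
-/

namespace Pool.Agent.K6.H24.OP

open MeasureTheory Filter Topology ProbabilityTheory

set_option linter.unusedSectionVars false

lemma bdd_of_compact_deriv {g : ℝ → ℝ} (hg : ContDiff ℝ 1 g) (hc : HasCompactSupport (deriv g)) :
    ∃ B : ℝ, ∀ x, |g x| ≤ B := by
  obtain ⟨r, hr0, hr⟩ := hc.isCompact.isBounded.subset_closedBall_lt 0 0
  have hout : ∀ x, r < |x| → deriv g x = 0 := by
    intro x hx
    by_contra hne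
    have : x ∈ tsupport (deriv g) := subset_tsupport _ (Function.mem_support.2 hne)
    have := hr this
    rw [Metric.mem_closedBall, dist_zero_right, Real.norm_eq_abs] at this
    linarith
  have hd : Differentiable ℝ g := hg.differentiable (by norm_num)
  have hright : ∀ x, r ≤ x → g x = g r := by
    intro x hx
    have hcon : ∀ y ∈ Set.Ioo r x, deriv g y = 0 := fun y hy =>
      hout y (lt_of_lt_of_le hy.1 (le_abs_self y))
    rcases hx.eq_or_lt with h | h
    · rw [h]
    · obtain ⟨c, hc, hc'⟩ := exists_deriv_eq_slope g h hd.continuous.continuousOn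
        hd.differentiableOn
      rw [hcon c hc] at hc'
      have : x - r ≠ 0 := by linarith
      field_simp at hc'
      linarith
  have hleft : ∀ x, x ≤ -r → g x = g (-r) := by
    intro x hx
    have hcon : ∀ y ∈ Set.Ioo x (-r), deriv g y = 0 := fun y hy =>
      hout y (by
        have : r < -y := by linarith [hy.2]
        exact lt_of_lt_of_le this (neg_le_abs y))
    rcases hx.eq_or_lt with h | h
    · rw [h]
    · obtain ⟨c, hc, hc'⟩ := exists_deriv_eq_slope g h hd.continuous.continuousOn
        hd.differentiableOn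
      rw [hcon c hc] at hc'
      have : -r - x ≠ 0 := by linarith
      field_simp at hc'
      linarith
  obtain ⟨B, hB⟩ := (isCompact_Icc (a := -r) (b := r)).exists_bound_of_continuousOn
    hg.continuous.continuousOn
  refine ⟨B, fun x => ?_⟩
  rcases le_total x (-r) with h | h
  · rw [hleft x h]
    exact hB (-r) ⟨le_rfl, by linarith⟩
  · rcases le_total r x with h' | h'
    · rw [hright x h']
      exact hB r ⟨by linarith, le_rfl⟩
    · exact hB x ⟨h, h'⟩

/-- Hardy's inequality on a half line. -/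
theorem half_hardy {f : ℝ → ℝ} (hf0 : ∀ x, 0 ≤ f x) (hfm : Measurable f) (hfi : Integrable f)
    {x₀ K : ℝ} (hK0 : 0 ≤ K) (hK : ∀ t, x₀ ≤ t → ∫ s in Set.Ioi t, f s ≤ K * f t)
    {g : ℝ → ℝ} (hg : ContDiff ℝ 1 g) {B B' : ℝ} (hB : ∀ x, |g x| ≤ B)
    (hB' : ∀ x, |deriv g x| ≤ B') :
    ∫ x in Set.Ioi x₀, (g x - g x₀) ^ 2 * f x
      ≤ 4 * K ^ 2 * ∫ x in Set.Ioi x₀, (deriv g x) ^ 2 * f x := by
  have hd : ∀ x, HasDerivAt g (deriv g x) x := fun x =>
    (hg.differentiable (by norm_num) x).hasDerivAt
  have hdc : Continuous (deriv g) := hg.continuous_deriv (by norm_num)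
  set G : ℝ → ℝ := fun x => g x - g x₀ with hG
  have hGc : Continuous G := hg.continuous.sub continuous_const
  have hGb : ∀ x, |G x| ≤ 2 * B := by
    intro x
    have h1 := abs_sub (g x) (g x₀)
    have h2 := hB x
    have h3 := hB x₀
    rw [hG]; simp only
    linarith
  set ψ : ℝ → ℝ := fun t => 2 * |G t * deriv g t| with hψ
  have hψc : Continuous ψ := continuous_const.mul (hGc.mul hdc).abs
  have hψ0 : ∀ t, 0 ≤ ψ t := fun t => by rw [hψ]; positivity
  have hbi : ∀ {Φ : ℝ → ℝ}, Continuous Φ → ∀ {D : ℝ}, (∀ x, |Φ x| ≤ D) →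
      Integrable (fun x => Φ x * f x) := by
    intro Φ hΦ D hD
    have := hfi.bdd_mul (c := D) hΦ.aestronglyMeasurable (Filter.Eventually.of_forall fun x => by
      rw [Real.norm_eq_abs]; exact hD x)
    exact this
  have iA : Integrable (fun x => G x ^ 2 * f x) := hbi (hGc.pow 2) (D := (2 * B) ^ 2) fun x => by
    rw [abs_pow]; exact pow_le_pow_left₀ (abs_nonneg _) (hGb x) 2
  have iB : Integrable (fun x => (deriv g x) ^ 2 * f x) := hbi (hdc.pow 2) (D := B' ^ 2) fun x => by
    rw [abs_pow]; exact pow_le_pow_left₀ (abs_nonneg _) (hB' x) 2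
  have iψ : Integrable (fun x => ψ x * f x) := hbi hψc (D := 2 * (2 * B * B')) fun x => by
    rw [abs_of_nonneg (hψ0 x), hψ]
    simp only
    rw [abs_mul]
    have := mul_le_mul (hGb x) (hB' x) (abs_nonneg _) ((abs_nonneg _).trans (hGb x))
    linarith
  -- pointwise bound
  have hpt : ∀ x, x₀ < x → G x ^ 2 ≤ ∫ t in Set.Ioc x₀ x, ψ t := by
    intro x hx
    have h1 : ∫ t in x₀..x, 2 * G t * deriv g t = G x ^ 2 - G x₀ ^ 2 := by
      have hder : ∀ t ∈ Set.uIcc x₀ x, HasDerivAt (fun t => G t ^ 2) (2 * G t * deriv g t) t := by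
        intro t _
        have h2 : HasDerivAt G (deriv g t) t := (hd t).sub_const _
        have h3 := h2.pow 2
        refine h3.congr_deriv ?_
        simp
      exact intervalIntegral.integral_eq_sub_of_hasDerivAt hder
        (((continuous_const.mul hGc).mul hdc).intervalIntegrable _ _)
    have h2 : G x₀ = 0 := by rw [hG]; simp
    have h3 : G x ^ 2 = ∫ t in x₀..x, 2 * G t * deriv g t := by rw [h1, h2]; ring
    rw [h3, intervalIntegral.integral_of_le hx.le]
    refine setIntegral_mono (((continuous_const.mul hGc).mul hdc).integrableOn_Ioc)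
      (hψc.integrableOn_Ioc) fun t => ?_
    rw [hψ]
    simp only
    have := le_abs_self (G t * deriv g t)
    linarith
  -- Tonelli
  have hton : ∫⁻ x in Set.Ioi x₀, ENNReal.ofReal (G x ^ 2 * f x)
      ≤ ∫⁻ t in Set.Ioi x₀, ENNReal.ofReal (K * (ψ t * f t)) := by
    have hm1 : Measurable fun x => ENNReal.ofReal (f x) := hfm.ennreal_ofReal
    have hm2 : Measurable fun x => ENNReal.ofReal (ψ x) := hψc.measurable.ennreal_ofReal
    have step1 : ∫⁻ x in Set.Ioi x₀, ENNReal.ofReal (G x ^ 2 * f x)
        ≤ ∫⁻ x in Set.Ioi x₀, (∫⁻ t in Set.Ioi x₀,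
          (Set.Iic x).indicator (fun _ => ENNReal.ofReal (f x) * ENNReal.ofReal (ψ t)) t) := by
      refine setLIntegral_mono' measurableSet_Ioi fun x hx => ?_
      have hx' : x₀ < x := hx
      have e1 : ∫⁻ t in Set.Ioi x₀,
          (Set.Iic x).indicator (fun _ => ENNReal.ofReal (f x) * ENNReal.ofReal (ψ t)) t
          = ENNReal.ofReal (f x) * ∫⁻ t in Set.Ioc x₀ x, ENNReal.ofReal (ψ t) := by
        have e2 : ∀ t, (Set.Iic x).indicator
            (fun _ => ENNReal.ofReal (f x) * ENNReal.ofReal (ψ t)) t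
            = (Set.Iic x).indicator (fun t => ENNReal.ofReal (f x) * ENNReal.ofReal (ψ t)) t := by
          intro t
          by_cases h : t ∈ Set.Iic x
          · rw [Set.indicator_of_mem h, Set.indicator_of_mem h]
          · rw [Set.indicator_of_notMem h, Set.indicator_of_notMem h]
        simp only [e2]
        rw [lintegral_indicator measurableSet_Iic, Measure.restrict_restrict measurableSet_Iic,
          lintegral_const_mul _ hm2]
        congr 2
        rw [Set.inter_comm, Set.Ioi_inter_Iic]
      rw [e1, mul_comm (G x ^ 2), ENNReal.ofReal_mul (hf0 x)]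
      refine mul_le_mul_right ?_ _
      rw [← ofReal_integral_eq_lintegral_ofReal (hψc.integrableOn_Ioc)
        (Filter.Eventually.of_forall hψ0)]
      exact ENNReal.ofReal_le_ofReal (hpt x hx')
    refine step1.trans ?_
    rw [lintegral_lintegral_swap]
    · refine setLIntegral_mono' measurableSet_Ioi fun t ht => ?_
      have ht' : x₀ < t := ht
      have e1 : ∫⁻ x in Set.Ioi x₀,
          (Set.Iic x).indicator (fun _ => ENNReal.ofReal (f x) * ENNReal.ofReal (ψ t)) t
          = ENNReal.ofReal (ψ t) * ∫⁻ x in Set.Ioi t, ENNReal.ofReal (f x) := by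
        have e2 : ∀ x, (Set.Iic x).indicator
            (fun _ => ENNReal.ofReal (f x) * ENNReal.ofReal (ψ t)) t
            = (Set.Ici t).indicator (fun x => ENNReal.ofReal (ψ t) * ENNReal.ofReal (f x)) x := by
          intro x
          by_cases h : t ≤ x
          · rw [Set.indicator_of_mem (Set.mem_Iic.2 h), Set.indicator_of_mem (Set.mem_Ici.2 h),
              mul_comm]
          · rw [Set.indicator_of_notMem (fun h' => h (Set.mem_Iic.1 h')),
              Set.indicator_of_notMem (fun h' => h (Set.mem_Ici.1 h'))]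
        simp only [e2]
        rw [lintegral_indicator measurableSet_Ici, Measure.restrict_restrict measurableSet_Ici,
          lintegral_const_mul _ hm1]
        congr 1
        have : Set.Ici t ∩ Set.Ioi x₀ = Set.Ici t := by
          apply Set.inter_eq_self_of_subset_left
          intro y hy
          exact lt_of_lt_of_le ht' hy
        rw [this]
        exact setLIntegral_congr Ioi_ae_eq_Ici.symm
      rw [e1, ← ofReal_integral_eq_lintegral_ofReal hfi.integrableOn
        (Filter.Eventually.of_forall hf0), ← ENNReal.ofReal_mul (hψ0 t)]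
      refine ENNReal.ofReal_le_ofReal ?_
      calc ψ t * ∫ s in Set.Ioi t, f s ≤ ψ t * (K * f t) :=
            mul_le_mul_of_nonneg_left (hK t ht'.le) (hψ0 t)
        _ = K * (ψ t * f t) := by ring
    · refine Measurable.aemeasurable ?_
      have : (Function.uncurry fun x t => (Set.Iic x).indicator
          (fun _ => ENNReal.ofReal (f x) * ENNReal.ofReal (ψ t)) t)
          = {p : ℝ × ℝ | p.2 ≤ p.1}.indicator
            (fun p => ENNReal.ofReal (f p.1) * ENNReal.ofReal (ψ p.2)) := by
        funext p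
        simp only [Function.uncurry]
        by_cases h : p.2 ≤ p.1
        · rw [Set.indicator_of_mem (Set.mem_Iic.2 h), Set.indicator_of_mem (by exact h)]
        · rw [Set.indicator_of_notMem (fun h' => h (Set.mem_Iic.1 h')),
            Set.indicator_of_notMem (by exact h)]
      rw [this]
      exact ((hm1.comp measurable_fst).mul (hm2.comp measurable_snd)).indicator
        (measurableSet_le measurable_snd measurable_fst)
  have iKψ : Integrable (fun x => K * (ψ x * f x)) := iψ.const_mul K
  rw [← ofReal_integral_eq_lintegral_ofReal iA.integrableOn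
      (Filter.Eventually.of_forall fun x => mul_nonneg (sq_nonneg _) (hf0 x)),
    ← ofReal_integral_eq_lintegral_ofReal iKψ.integrableOn
      (Filter.Eventually.of_forall fun x => mul_nonneg hK0 (mul_nonneg (hψ0 x) (hf0 x)))] at hton
  have hreal := (ENNReal.ofReal_le_ofReal_iff (setIntegral_nonneg measurableSet_Ioi fun x _ =>
    mul_nonneg hK0 (mul_nonneg (hψ0 x) (hf0 x)))).1 hton
  have hmean : ∫ x in Set.Ioi x₀, K * (ψ x * f x)
      ≤ ∫ x in Set.Ioi x₀, ((1 / 2) * (G x ^ 2 * f x) + 2 * K ^ 2 * ((deriv g x) ^ 2 * f x)) := by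
    refine setIntegral_mono iKψ.integrableOn
      ((iA.const_mul (1/2)).add (iB.const_mul (2 * K ^ 2))).integrableOn fun x => ?_
    simp only
    have h1 : K * ψ x ≤ (1 / 2) * G x ^ 2 + 2 * K ^ 2 * (deriv g x) ^ 2 := by
      rw [hψ]
      simp only
      rw [abs_mul]
      nlinarith [sq_nonneg (|G x| - 2 * K * |deriv g x|), sq_abs (G x), sq_abs (deriv g x)]
    have := mul_le_mul_of_nonneg_right h1 (hf0 x)
    calc K * (ψ x * f x) = K * ψ x * f x := by ring
      _ ≤ ((1 / 2) * G x ^ 2 + 2 * K ^ 2 * (deriv g x) ^ 2) * f x := this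
      _ = _ := by ring
  have j1 : IntegrableOn (fun x => (1 / 2) * (G x ^ 2 * f x)) (Set.Ioi x₀) :=
    (iA.const_mul (1/2)).integrableOn
  have j2 : IntegrableOn (fun x => 2 * K ^ 2 * ((deriv g x) ^ 2 * f x)) (Set.Ioi x₀) :=
    (iB.const_mul (2 * K ^ 2)).integrableOn
  have e3 : ∫ x in Set.Ioi x₀, ((1 / 2) * (G x ^ 2 * f x) + 2 * K ^ 2 * ((deriv g x) ^ 2 * f x))
      = (1 / 2) * (∫ x in Set.Ioi x₀, G x ^ 2 * f x)
        + 2 * K ^ 2 * ∫ x in Set.Ioi x₀, (deriv g x) ^ 2 * f x := by
    rw [integral_add j1 j2, integral_const_mul, integral_const_mul]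
  rw [e3] at hmean
  have e4 : ∫ x in Set.Ioi x₀, (g x - g x₀) ^ 2 * f x = ∫ x in Set.Ioi x₀, G x ^ 2 * f x := rfl
  rw [e4]
  linarith

end Pool.Agent.K6.H24.OP
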