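import Pool.Agent.K6.H24.OP.H2

/-!
# The line: the two forms of Poincaré's inequality; the log-concave case
-/

namespace Pool.Agent.K6.H24.OP

open MeasureTheory Filter Topology ProbabilityTheory
open scoped InnerProductSpace ENNReal

set_option linter.unusedSectionVars false

variable {n : ℕ} {ν : Measure ℝ} [IsProbabilityMeasure ν] {R : Fin n → Fin n → Prop}

lemma PI.mono {E : Type*} [NormedAddCommGroup E] [NormedSpace ℝ E] [MeasurableSpace E]
    {μ : Measure E} {C C' : ℝ} (h : PI μ C) (hC : C ≤ C') : PI μ C' := by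
  intro f hf hg
  obtain ⟨h1, h2⟩ := h f hf hg
  refine ⟨h1, h2.trans (mul_le_mul_of_nonneg_right hC (integral_nonneg fun x => sq_nonneg _))⟩

lemma norm_fderiv_line {f : ℝ → ℝ} (x : ℝ) : ‖fderiv ℝ f x‖ = |deriv f x| := by
  rw [← norm_deriv_eq_norm_fderiv, Real.norm_eq_abs]

/-- all `C¹` functions from those with compactly supported derivative -/
theorem pi_line_of_poinc [NullSingletonClass ν] {C : ℝ} (hC : 0 < C) (hP : Poinc ν C) :
    PI ν C := by
  intro f hf hg
  set S : Fin 1 → Fin 1 → Prop := fun _ _ => False with hS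
  have hKK : KK S = (Set.univ : Set (Fin 1 → ℝ)) := by
    ext x
    simp only [KK, Set.mem_ofPred_eq, Set.mem_univ, iff_true]
    refine ⟨fun i j hij => absurd (Subsingleton.elim i j) hij, fun i j h => h.elim⟩
  have hcnd : cnd ν S = Measure.pi fun _ : Fin 1 => ν := by
    unfold cnd
    rw [hKK, Measure.restrict_univ, measure_univ, inv_one, one_smul]
  have hmp := measurePreserving_eval (fun _ : Fin 1 => ν) 0
  have hK : (Measure.pi fun _ : Fin 1 => ν) (KK S) ≠ 0 := by
    rw [hKK, measure_univ]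
    exact one_ne_zero
  set F : (Fin 1 → ℝ) → ℝ := fun x => f (x 0) with hF
  have hFc : ContDiff ℝ 1 F :=
    hf.comp (ContinuousLinearMap.proj (R := ℝ) (φ := fun _ : Fin 1 => ℝ) 0).contDiff
  have hd : ∀ x : Fin 1 → ℝ, ∑ i, (fderiv ℝ F x (Pi.single i 1)) ^ 2 =
      ‖fderiv ℝ f (x 0)‖ ^ 2 := by
    intro x
    rw [Fin.sum_univ_one, norm_fderiv_line, sq_abs]
    congr 1
    have h1 : HasFDerivAt (fun y : Fin 1 → ℝ => y 0)
        (ContinuousLinearMap.proj (R := ℝ) (φ := fun _ : Fin 1 => ℝ) 0) x :=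
      (ContinuousLinearMap.proj (R := ℝ) (φ := fun _ : Fin 1 => ℝ) 0).hasFDerivAt
    have h2 : HasDerivAt f (deriv f (x 0)) (x 0) := ((hf.differentiable one_ne_zero) _).hasDerivAt
    have h3 := h2.comp_hasFDerivAt x h1
    have h4 : fderiv ℝ F x = _ := h3.fderiv
    rw [h4]
    simp
  have hgc : Continuous fun x => ‖fderiv ℝ f x‖ := (hf.continuous_fderiv one_ne_zero).norm
  have hD : Integrable (fun x : Fin 1 → ℝ => ∑ i, (fderiv ℝ F x (Pi.single i 1)) ^ 2)
      (cnd ν S) := by
    rw [hcnd]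
    simp only [hd]
    exact hmp.integrable_comp_of_integrable hg.integrable_sq
  obtain ⟨h1, h2⟩ := cnd_poinc hC hP hK hFc hD
  rw [hcnd] at h1 h2
  have e1 : MemLp f 2 ν := by
    have := (memLp_map_measure_iff (p := 2) (μ := Measure.pi fun _ : Fin 1 => ν)
      (f := fun x : Fin 1 → ℝ => x 0) (g := f) hf.continuous.aestronglyMeasurable
      hmp.measurable.aemeasurable).2 h1
    have h5 : Measure.map (fun x : Fin 1 → ℝ => x 0) (Measure.pi fun _ : Fin 1 => ν) = ν :=
      hmp.map_eq
    rwa [h5] at this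
  have e2 : variance F (Measure.pi fun _ : Fin 1 => ν) = variance f ν := by
    have := variance_map (μ := Measure.pi fun _ : Fin 1 => ν) (X := f)
      (Y := fun x : Fin 1 → ℝ => x 0) hf.continuous.measurable.aemeasurable
      hmp.measurable.aemeasurable
    have h5 : Measure.map (fun x : Fin 1 → ℝ => x 0) (Measure.pi fun _ : Fin 1 => ν) = ν :=
      hmp.map_eq
    rw [h5] at this
    exact this.symm
  have e3 : ∫ x, ∑ i, (fderiv ℝ F x (Pi.single i 1)) ^ 2 ∂(Measure.pi fun _ : Fin 1 => ν) =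
      ∫ x, ‖fderiv ℝ f x‖ ^ 2 ∂ν := by
    simp only [hd]
    have h5 := integral_map (μ := Measure.pi fun _ : Fin 1 => ν) hmp.measurable.aemeasurable
      (f := fun x : ℝ => ‖fderiv ℝ f x‖ ^ 2) (by
        rw [hmp.map_eq]
        exact (hgc.pow 2).aestronglyMeasurable)
    rw [hmp.map_eq] at h5
    exact h5.symm
  rw [e2, e3] at h2
  exact ⟨e1, h2⟩

/-- the converse -/
lemma poinc_of_pi_line {C : ℝ} (h : PI ν C) : Poinc ν C := by
  intro g hg hgc
  obtain ⟨B', hB'⟩ := hgc.exists_bound_of_continuous (hg.continuous_deriv le_rfl)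
  have hm : MemLp (fun x => ‖fderiv ℝ g x‖) 2 ν := by
    refine MemLp.of_bound ((hg.continuous_fderiv one_ne_zero).norm).aestronglyMeasurable B'
      (Eventually.of_forall fun x => ?_)
    rw [norm_norm, norm_fderiv_line]
    exact hB' x
  obtain ⟨-, h2⟩ := h g hg hm
  refine h2.trans (le_of_eq ?_)
  simp only [norm_fderiv_line, sq_abs]

/-- **The Poincaré constant of the conditioned measure is the one of the line.** -/
theorem pi_iff [NullSingletonClass ν] {C : ℝ} (hC : 0 < C) (hn : 1 ≤ n) (hR : Ext R) :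
    PI (ord ν R) C ↔ PI ν C :=
  ⟨fun h => pi_line_of_poinc hC (poinc_of_pi hn (cone_ne hR) h),
    fun h => pi_of_poinc hC (poinc_of_pi_line h) (cone_ne hR)⟩

/-- **The log-concave case.** -/
theorem lc_case {h : ℝ → ℝ} (hl : LC h) (hpos : 0 < ∫ x, h x) (hn : 1 ≤ n) (hR : Ext R) :
    IsProbabilityMeasure (nrm (pw h R)) ∧
    variance (fun x : Eu n => ⟪x, diag n⟫_ℝ) (nrm (pw h R)) =
      variance (fun x : ℝ => x) (law h) ∧
    ∀ s : ℝ, variance (fun x : ℝ => x) (law h) ≤ s → PI (nrm (pw h R)) (48 * s) := by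
  have hnull := law_null hl hpos
  have hp := law_prob hl hpos
  rw [nrm_eq hl hpos hR]
  have hc := cone_ne (ν := law h) hR
  refine ⟨?_, ord_diag hn hc (law_memLp hl hpos), fun s hs => ?_⟩
  · unfold ord
    exact ProbabilityTheory.cond_isProbabilityMeasure hc
  · have h1 := pi_of_poinc (C := 48 * variance (fun x : ℝ => x) (law h)) (R := R)
      (mul_pos (by norm_num) (var_pos hl hpos)) (poinc_law hl hpos) hc
    exact h1.mono (by linarith)

end Pool.Agent.K6.H24.OP
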