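import Pool.Agent.K6.H24.OP.H3

/-!
# Linear extensions of partial orders
-/

namespace Pool.Agent.K6.H24.OP

set_option linter.unusedSectionVars false

variable {n : ℕ} {R : Fin n → Fin n → Prop}

theorem ext_of_po (ha : ∀ a b, R a b → R b a → a = b) (ht : ∀ a b c, R a b → R b c → R a c) :
    Ext R := by
  classical
  let r : Fin n → Fin n → Prop := fun a b => a = b ∨ R a b
  have hr : IsPartialOrder (Fin n) r := by
    refine { refl := fun a => Or.inl rfl, trans := ?_, antisymm := ?_ }
    · intro a b c h1 h2
      rcases h1 with rfl | h1
      · exact h2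
      · rcases h2 with rfl | h2
        · exact Or.inr h1
        · exact Or.inr (ht _ _ _ h1 h2)
    · intro a b h1 h2
      rcases h1 with h1 | h1
      · exact h1
      · rcases h2 with h2 | h2
        · exact h2.symm
        · exact ha _ _ h1 h2
  obtain ⟨s, hs, hrs⟩ := extend_partialOrder r
  have hanti : ∀ a b, s a b → s b a → a = b := fun a b => hs.antisymm a b
  have htr : ∀ a b c, s a b → s b c → s a c := fun a b c => hs.trans a b c
  have htot : ∀ a b, s a b ∨ s b a := fun a b => hs.total a b
  let F : Fin n → Finset (Fin n) := fun i => Finset.univ.filter fun j => s j i ∧ j ≠ i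
  have hlt : ∀ i j, s i j → i ≠ j → (F i).card < (F j).card := by
    intro i j hij hne
    refine Finset.card_lt_card ?_
    rw [Finset.ssubset_iff_of_subset]
    · refine ⟨i, ?_, ?_⟩
      · simp only [F, Finset.mem_filter, Finset.mem_univ, true_and]
        exact ⟨hij, hne⟩
      · simp [F]
    · intro k hk
      simp only [F, Finset.mem_filter, Finset.mem_univ, true_and] at hk ⊢
      refine ⟨htr _ _ _ hk.1 hij, ?_⟩
      rintro rfl
      exact hne (hanti _ _ hij hk.1)
  have hcard : ∀ i, (F i).card < n := by
    intro i
    have h1 : (F i).card < (Finset.univ : Finset (Fin n)).card := by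
      refine Finset.card_lt_card ?_
      rw [Finset.ssubset_iff_of_subset (Finset.subset_univ _)]
      exact ⟨i, Finset.mem_univ _, by simp [F]⟩
    simpa using h1
  let f : Fin n → Fin n := fun i => ⟨(F i).card, hcard i⟩
  have hf : Function.Injective f := by
    intro i j hij
    by_contra hne
    have h1 : (F i).card = (F j).card := congrArg Fin.val hij
    rcases htot i j with h | h
    · have := hlt i j h hne
      omega
    · have := hlt j i h (Ne.symm hne)
      omega
  refine ⟨Equiv.ofBijective f (Finite.injective_iff_bijective.1 hf), fun i j hR => ?_⟩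
  change f i ≤ f j
  by_cases hij : i = j
  · rw [hij]
  · exact (hlt i j (hrs _ _ (Or.inr hR)) hij).le

end Pool.Agent.K6.H24.OP
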